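import Pool.Agent.helper14.LE.CoreH
import Pool.Agent.helper40.Bis.Final
import Pool.Agent.helper71.Bis.B1

set_option autoImplicit false

/-!
# From the core theorem to graphs
-/

namespace Pool.Agent.helper14.LE

open Finset Pool.Agent.helper2.Bis Pool.Agent.helper40.Bis

/-- the numerical part -/
theorem params_h (k : ℕ) (L : ℝ) (hL : 1 ≤ L) (hk : (k : ℝ) ≤ Real.exp L) :
    ∃ (m : ℕ) (c : ℝ), 1 ≤ m ∧ (m : ℝ) < 2 * k + 32768 * (√(k * L) + L) + 1 ∧ 0 < c ∧ c ≤ 1 / 8 ∧
      4 / c ^ 2 ≤ (m : ℝ) ∧ 11 * (m : ℝ) ^ 2 * Real.exp L ≤ Real.exp (c ^ 2 / 8 * m) ∧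
      (k : ℝ) + ⌊√(k * L) + L⌋₊ ≤ (1 / 2 - 3 * c) * m := by
  have hk0 : (0 : ℝ) ≤ k := Nat.cast_nonneg k
  have hL0 : (0 : ℝ) ≤ L := by linarith
  set r : ℝ := √(k * L) with hr
  have hr0 : 0 ≤ r := Real.sqrt_nonneg _
  have hr2 : r ^ 2 = k * L := Real.sq_sqrt (mul_nonneg hk0 hL0)
  set m : ℕ := ⌈2 * (k : ℝ) + 32768 * (r + L)⌉₊ with hm
  have hm1 : 2 * (k : ℝ) + 32768 * (r + L) ≤ m := Nat.le_ceil _
  have hm2 : (m : ℝ) < 2 * k + 32768 * (r + L) + 1 := Nat.ceil_lt_add_one (by positivity)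
  have hmpos : (0 : ℝ) < m := by linarith
  set y : ℝ := (m : ℝ) - 2 * k with hy
  have hy1 : 32768 * r ≤ y := by linarith
  have hy2 : 32768 * L ≤ y := by linarith
  have hy3 : (32768 : ℝ) ≤ y := by linarith
  have hym : y ≤ m := by linarith
  set c : ℝ := y / (8 * m) with hc
  have hcpos : 0 < c := by positivity
  have hcm : c * m = y / 8 := by
    rw [hc]
    field_simp
  have hc8 : c ≤ 1 / 8 := by
    rw [hc, div_le_iff₀ (by positivity)]
    linarith
  have hc2m : 256 * L ≤ c ^ 2 * m := by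
    have h1 : c ^ 2 * m = y ^ 2 / (64 * m) := by
      rw [hc]
      field_simp
      norm_num
    rw [h1, le_div_iff₀ (by positivity)]
    have h2 : (m : ℝ) = 2 * k + y := by rw [hy]; ring
    rw [h2]
    have h3 : (32768 * r) ^ 2 ≤ y ^ 2 := pow_le_pow_left₀ (by positivity) hy1 2
    have h4 : y * (32768 * L) ≤ y * y := mul_le_mul_of_nonneg_left hy2 (by linarith)
    have h5 : (32768 * r) ^ 2 = 32768 ^ 2 * (k * L) := by rw [mul_pow, hr2]
    rw [h5] at h3
    have h6 : 0 ≤ (k : ℝ) * L := mul_nonneg hk0 hL0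
    nlinarith
  refine ⟨m, c, ?_, hm2, hcpos, hc8, ?_, ?_, ?_⟩
  · have : (1 : ℝ) ≤ m := by linarith
    exact_mod_cast this
  · rw [div_le_iff₀ (by positivity)]
    linarith
  · have hexpL : L ≤ Real.exp L := by
      have := Real.add_one_le_exp L
      linarith
    have hexp1 : 1 ≤ Real.exp L := by linarith
    have hrexp : r ≤ Real.exp L := by
      apply Real.sqrt_le_iff.2
      refine ⟨(Real.exp_pos _).le, ?_⟩
      rw [sq]
      exact mul_le_mul hk hexpL hL0 (Real.exp_pos _).le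
    have hmE : (m : ℝ) ≤ 65539 * Real.exp L := by linarith
    have h1 : 11 * (m : ℝ) ^ 2 * Real.exp L ≤ 11 * (65539 * Real.exp L) ^ 2 * Real.exp L := by
      apply mul_le_mul_of_nonneg_right _ (Real.exp_pos _).le
      apply mul_le_mul_of_nonneg_left _ (by norm_num)
      exact pow_le_pow_left₀ hmpos.le hmE 2
    have h2 : 11 * (65539 * Real.exp L) ^ 2 * Real.exp L =
        (11 * 65539 ^ 2) * Real.exp (3 * L) := by
      have : Real.exp (3 * L) = Real.exp L ^ 3 := by
        rw [← Real.exp_nat_mul]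
        norm_num
      rw [this]
      ring
    have h3 : (11 * 65539 ^ 2 : ℝ) ≤ Real.exp 29 := by
      have e1 : (2.7 : ℝ) ≤ Real.exp 1 := by
        have := Real.exp_one_gt_d9
        linarith
      have e2 : Real.exp 29 = Real.exp 1 ^ 29 := by
        rw [← Real.exp_nat_mul]
        norm_num
      rw [e2]
      refine le_trans ?_ (pow_le_pow_left₀ (by norm_num) e1 29)
      norm_num
    have h4 : Real.exp 29 * Real.exp (3 * L) ≤ Real.exp (c ^ 2 / 8 * m) := by
      rw [← Real.exp_add]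
      apply Real.exp_le_exp.2
      linarith
    calc 11 * (m : ℝ) ^ 2 * Real.exp L ≤ _ := h1
      _ = _ := h2
      _ ≤ Real.exp 29 * Real.exp (3 * L) :=
          mul_le_mul_of_nonneg_right h3 (Real.exp_pos _).le
      _ ≤ _ := h4
  · have h1 : (1 / 2 - 3 * c) * m = m / 2 - 3 * (c * m) := by ring
    have h2 : ((⌊r + L⌋₊ : ℕ) : ℝ) ≤ r + L := Nat.floor_le (by positivity)
    rw [h1, hcm]
    linarith

/-- both kinds of exact bisections, good at every vertex of degree at most `exp L` or at least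
`exp (-L) n`, at every vertex of the set `X`, and at all but `exp (-L) n` vertices -/
def MiddleGood (k : ℕ) (L : ℝ) (V : Type) [Fintype V] [DecidableEq V] (G : SimpleGraph V)
    [DecidableRel G.Adj] (X : Finset V) : Prop :=
        (∃ A : Finset V,
            |2 * (A.card : ℤ) - (Fintype.card V : ℤ)| ≤ 1 ∧
            (∀ v : V, ((G.degree v : ℝ) ≤ Real.exp L ∨
                Real.exp (-L) * Fintype.card V ≤ (G.degree v : ℝ) ∨ v ∈ X) →
              k ≤ ((G.neighborFinset v).filter (fun w => (w ∈ A ↔ v ∈ A))).card) ∧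
            ((univ.filter (fun v : V =>
              ((G.neighborFinset v).filter (fun w => (w ∈ A ↔ v ∈ A))).card < k)).card : ℝ) ≤
              Real.exp (-L) * Fintype.card V) ∧
        (∃ A : Finset V,
            |2 * (A.card : ℤ) - (Fintype.card V : ℤ)| ≤ 1 ∧
            (∀ v : V, ((G.degree v : ℝ) ≤ Real.exp L ∨
                Real.exp (-L) * Fintype.card V ≤ (G.degree v : ℝ) ∨ v ∈ X) →
              k ≤ ((G.neighborFinset v).filter (fun w => (w ∈ A ↔ v ∉ A))).card) ∧
            ((univ.filter (fun v : V =>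
              ((G.neighborFinset v).filter (fun w => (w ∈ A ↔ v ∉ A))).card < k)).card : ℝ) ≤
              Real.exp (-L) * Fintype.card V)

theorem middleGood (k : ℕ) (L : ℝ) (hL : 1 ≤ L) (hk : (k : ℝ) ≤ Real.exp L)
    (V : Type) [Fintype V] [DecidableEq V] (G : SimpleGraph V) [DecidableRel G.Adj]
    (hG : ∀ v : V, 2 * (k : ℝ) + 32769 * (√(k * L) + L) ≤ (G.degree v : ℝ))
    (X : Finset V) (hX : ∀ v : V, ((G.neighborFinset v ∩ X).card : ℝ) ≤ √(k * L) + L) :
    MiddleGood k L V G X := by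
  classical
  obtain ⟨m, c, hm1, hmlt, hc, hc8, hm4, hEL, hkm⟩ := params_h k L hL hk
  have hm1R : (1 : ℝ) ≤ m := by exact_mod_cast hm1
  have hGm : ∀ v : V, m ≤ G.degree v := by
    intro v
    have h1 := hG v
    have h2 : 0 ≤ √((k : ℝ) * L) := Real.sqrt_nonneg _
    have h3 : (m : ℝ) ≤ (G.degree v : ℝ) := by linarith
    exact_mod_cast h3
  set D : ℕ := ⌊Real.exp (c ^ 2 / 8 * m)⌋₊ with hD
  have hDge : Real.exp (c ^ 2 / 8 * m) < D + 1 := Nat.lt_floor_add_one _
  have hL1 : 1 ≤ Real.exp L := Real.one_le_exp (by linarith)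
  have hE11 : 11 * (m : ℝ) ^ 2 ≤ Real.exp (c ^ 2 / 8 * m) := by
    have : 11 * (m : ℝ) ^ 2 * 1 ≤ 11 * (m : ℝ) ^ 2 * Real.exp L :=
      mul_le_mul_of_nonneg_left hL1 (by positivity)
    linarith
  have hLE : Real.exp L ≤ Real.exp (c ^ 2 / 8 * m) := by
    refine le_trans ?_ hEL
    have h1 : (1 : ℝ) ≤ 11 * (m : ℝ) ^ 2 := by nlinarith
    calc Real.exp L = 1 * Real.exp L := (one_mul _).symm
      _ ≤ _ := mul_le_mul_of_nonneg_right h1 (Real.exp_pos _).le
  have hLD : Real.exp L < D + 1 := lt_of_le_of_lt hLE hDge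
  have hDhalf : Real.exp (c ^ 2 / 8 * m) ≤ 2 * D := by
    have h1 : (1 : ℝ) < D := by nlinarith
    linarith
  have hDpos : (0 : ℝ) < D := by
    have := Real.exp_pos (c ^ 2 / 8 * m)
    linarith
  have hmD : (m : ℝ) ≤ Real.exp (-L) * D := by
    have h1 : Real.exp (-L) * (11 * (m : ℝ) ^ 2 * Real.exp L) ≤ Real.exp (-L) * (2 * D) :=
      mul_le_mul_of_nonneg_left (hEL.trans hDhalf) (Real.exp_pos _).le
    have h2 : Real.exp (-L) * (11 * (m : ℝ) ^ 2 * Real.exp L) = 11 * (m : ℝ) ^ 2 := by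
      have e9 : Real.exp (-L) * Real.exp L = 1 := by
        rw [← Real.exp_add]
        simp
      calc Real.exp (-L) * (11 * (m : ℝ) ^ 2 * Real.exp L) =
          11 * (m : ℝ) ^ 2 * (Real.exp (-L) * Real.exp L) := by ring
        _ = _ := by rw [e9, mul_one]
    rw [h2] at h1
    nlinarith
  obtain ⟨S, hS1, hS2, hS3, hS4⟩ := Pool.Agent.helper71.Bis.edge_minimal (V := V) G.Adj
    (fun u v h => h.symm) m (by
    intro v
    refine (hGm v).trans (le_of_eq ?_)
    unfold dg
    rw [← SimpleGraph.card_neighborFinset_eq_degree]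
    congr 1
    ext w
    simp [mem_nb])
  have hirr : ∀ v, ¬ S v v := fun v hv => (G.loopless.irrefl v) (hS2 v v hv)
  have hnbG : ∀ v, nb G.Adj v = G.neighborFinset v := by
    intro v
    ext w
    simp [mem_nb]
  have hdgG : ∀ v, dg G.Adj v = G.degree v := by
    intro v
    unfold dg
    rw [hnbG, SimpleGraph.card_neighborFinset_eq_degree]
  have hdgS : ∀ v, dg S v ≤ G.degree v := by
    intro v
    rw [← hdgG]
    unfold dg
    apply Finset.card_le_card
    intro w hw
    rw [mem_nb] at hw ⊢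
    exact hS2 v w hw
  have hXS : ∀ v, (nb S v ∩ X).card ≤ ⌊√((k : ℝ) * L) + L⌋₊ := by
    intro v
    apply Nat.le_floor
    refine le_trans ?_ (hX v)
    have : (nb S v ∩ X).card ≤ (G.neighborFinset v ∩ X).card := by
      apply Finset.card_le_card
      apply Finset.inter_subset_inter_right
      rw [← hnbG]
      intro w hw
      rw [mem_nb] at hw ⊢
      exact hS2 v w hw
    exact_mod_cast this
  have hlow : ∀ v, ((G.degree v : ℝ) ≤ Real.exp L ∨
      Real.exp (-L) * Fintype.card V ≤ (G.degree v : ℝ) ∨ v ∈ X) →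
      (dg S v ≤ D ∨ Real.exp (-L) * Fintype.card V ≤ (dg G.Adj v : ℝ) ∨ v ∈ X) := by
    intro v hv
    rcases hv with hv | hv | hv
    · left
      have h1 : (G.degree v : ℝ) < D + 1 := lt_of_le_of_lt hv hLD
      have h2 : G.degree v < D + 1 := by exact_mod_cast h1
      have h3 := hdgS v
      omega
    · right
      left
      rw [hdgG]
      exact hv
    · exact Or.inr (Or.inr hv)
  have hcnt : ∀ P : Finset V, (∀ v ∈ P, D < dg S v) →
      D * Set.ncard {v : V | D < dg S v} ≤ m * Fintype.card V →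
      (P.card : ℝ) ≤ Real.exp (-L) * Fintype.card V := by
    intro P hP hc
    have h1 : P.card ≤ Set.ncard {v : V | D < dg S v} := by
      rw [← Set.ncard_coe_finset]
      exact Set.ncard_le_ncard (fun v hv => hP v hv) (Set.toFinite _)
    have h2 : D * P.card ≤ m * Fintype.card V := (Nat.mul_le_mul_left _ h1).trans hc
    have h3 : (D : ℝ) * P.card ≤ m * Fintype.card V := by exact_mod_cast h2
    have h4 : (m : ℝ) * Fintype.card V ≤ Real.exp (-L) * D * Fintype.card V :=
      mul_le_mul_of_nonneg_right hmD (Nat.cast_nonneg _)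
    have h5 : (D : ℝ) * P.card ≤ D * (Real.exp (-L) * Fintype.card V) := by
      calc (D : ℝ) * P.card ≤ _ := h3
        _ ≤ _ := h4
        _ = _ := by ring
    exact le_of_mul_le_mul_left h5 hDpos
  have main : ∀ J : ℝ, J = 1 ∨ J = -1 → ∃ e : V → ℝ, (∀ v, e v = 1 ∨ e v = -1) ∧
      |2 * ((univ.filter (fun v => e v = 1)).card : ℤ) - (Fintype.card V : ℤ)| ≤ 1 ∧
      (∀ v, (dg S v ≤ D ∨ Real.exp (-L) * Fintype.card V ≤ (dg G.Adj v : ℝ) ∨ v ∈ X) →
        k ≤ ((nb G.Adj v).filter (fun w => J * e v * e w = 1)).card) ∧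
      D * Set.ncard {v : V | D < dg S v} ≤ m * Fintype.card V := by
    intro J hJ
    obtain ⟨e, he1, he2, he3, he4⟩ := core_h c L hc hc8 (by linarith) m k
      ⌊√((k : ℝ) * L) + L⌋₊ hm1 hm4 hEL hkm V G.Adj S hS2 hS1 hirr hS3 hS4 X hXS J hJ
    refine ⟨e, he1, ?_, he3, he4⟩
    rw [sum_sign e he1 (univ.filter (fun v => e v = 1)) (by simp)] at he2
    exact_mod_cast he2
  constructor
  · obtain ⟨e, he1, he2, he3, he4⟩ := main 1 (Or.inl rfl)
    have key : ∀ v, (dg S v ≤ D ∨ Real.exp (-L) * Fintype.card V ≤ (dg G.Adj v : ℝ) ∨ v ∈ X) →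
        k ≤ ((G.neighborFinset v).filter
        (fun w => (w ∈ univ.filter (fun v => e v = 1) ↔
          v ∈ univ.filter (fun v => e v = 1)))).card := by
      intro v hv
      refine (he3 v hv).trans (Finset.card_le_card ?_)
      intro w hw
      rw [Finset.mem_filter, hnbG] at hw
      rw [Finset.mem_filter]
      refine ⟨hw.1, ?_⟩
      have h1 := hw.2
      simp only [Finset.mem_filter, Finset.mem_univ, true_and]
      rcases he1 v with h | h <;> rcases he1 w with h' | h' <;> rw [h, h'] at h1 ⊢ <;>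
        first | (exfalso; revert h1; norm_num; done) | norm_num
    refine ⟨_, he2, fun v hv => key v (hlow v hv), hcnt _ (fun v hv => ?_) he4⟩
    by_contra hcon
    have h1 := key v (Or.inl (not_lt.1 hcon))
    have h2 := (Finset.mem_filter.1 hv).2
    exact absurd h1 (not_le.2 h2)
  · obtain ⟨e, he1, he2, he3, he4⟩ := main (-1) (Or.inr rfl)
    have key : ∀ v, (dg S v ≤ D ∨ Real.exp (-L) * Fintype.card V ≤ (dg G.Adj v : ℝ) ∨ v ∈ X) →
        k ≤ ((G.neighborFinset v).filter
        (fun w => (w ∈ univ.filter (fun v => e v = 1) ↔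
          v ∉ univ.filter (fun v => e v = 1)))).card := by
      intro v hv
      refine (he3 v hv).trans (Finset.card_le_card ?_)
      intro w hw
      rw [Finset.mem_filter, hnbG] at hw
      rw [Finset.mem_filter]
      refine ⟨hw.1, ?_⟩
      have h1 := hw.2
      simp only [Finset.mem_filter, Finset.mem_univ, true_and]
      rcases he1 v with h | h <;> rcases he1 w with h' | h' <;> rw [h, h'] at h1 ⊢ <;>
        first | (exfalso; revert h1; norm_num; done) | norm_num
    refine ⟨_, he2, fun v hv => key v (hlow v hv), hcnt _ (fun v hv => ?_) he4⟩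
    by_contra hcon
    have h1 := key v (Or.inl (not_lt.1 hcon))
    have h2 := (Finset.mem_filter.1 hv).2
    exact absurd h1 (not_le.2 h2)

end Pool.Agent.helper14.LE
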