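import Pool.Agent.helper14.LE.CoreN
import Pool.Agent.helper40.Bis.Final

set_option autoImplicit false

/-!
# From the core theorem with the percolation condition to graphs
-/

namespace Pool.Agent.helper14.LE

open Finset Pool.Agent.helper2.Bis Pool.Agent.helper40.Bis

/-- the numerical part -/
theorem params_n (k m : ℕ) (L : ℝ) (hL : 1 ≤ L)
    (hm : 2 * (k : ℝ) + 1048576 * (√(k * L) + L) ≤ m) :
    ∃ c : ℝ, 0 < c ∧ c ≤ 1 / 32 ∧ c * m = ((m : ℝ) - 2 * k) / 32 ∧
      c / 128 = ((m : ℝ) - 2 * k) / (4096 * m) ∧ 32768 * L ≤ c * m ∧ 512 * L ≤ c ^ 2 * m ∧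
      (k : ℝ) ≤ (1 / 2 - 12 * c) * m := by
  have hk0 : (0 : ℝ) ≤ k := Nat.cast_nonneg k
  have hL0 : (0 : ℝ) ≤ L := by linarith
  set r : ℝ := √(k * L) with hr
  have hr0 : 0 ≤ r := Real.sqrt_nonneg _
  have hr2 : r ^ 2 = k * L := Real.sq_sqrt (mul_nonneg hk0 hL0)
  have hmpos : (0 : ℝ) < m := by linarith
  set y : ℝ := (m : ℝ) - 2 * k with hy
  have hy1 : 1048576 * r ≤ y := by linarith
  have hy2 : 1048576 * L ≤ y := by linarith
  have hy3 : (1048576 : ℝ) ≤ y := by linarith
  have hym : y ≤ m := by linarith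
  set c : ℝ := y / (32 * m) with hc
  have hcpos : 0 < c := by positivity
  have hcm : c * m = y / 32 := by
    rw [hc]
    field_simp
  have hc32 : c ≤ 1 / 32 := by
    rw [hc, div_le_iff₀ (by positivity)]
    linarith
  refine ⟨c, hcpos, hc32, hcm, ?_, ?_, ?_, ?_⟩
  · rw [hc]
    field_simp
    norm_num
  · rw [hcm]
    linarith
  · have h1 : c ^ 2 * m = y ^ 2 / (1024 * m) := by
      rw [hc]
      field_simp
      norm_num
    rw [h1, le_div_iff₀ (by positivity)]
    have h2 : (m : ℝ) = 2 * k + y := by rw [hy]; ring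
    rw [h2]
    have h3 : (1048576 * r) ^ 2 ≤ y ^ 2 := pow_le_pow_left₀ (by positivity) hy1 2
    have h4 : y * (1048576 * L) ≤ y * y := mul_le_mul_of_nonneg_left hy2 (by linarith)
    have h5 : (1048576 * r) ^ 2 = 1048576 ^ 2 * (k * L) := by rw [mul_pow, hr2]
    rw [h5] at h3
    have h6 : 0 ≤ (k : ℝ) * L := mul_nonneg hk0 hL0
    have h7 : 0 ≤ y * L := mul_nonneg (by linarith) hL0
    nlinarith
  · have h1 : (1 / 2 - 12 * c) * m = m / 2 - 12 * (c * m) := by ring
    rw [h1, hcm]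
    linarith

theorem classGoodN (k m : ℕ) (L ω : ℝ) (hL : 1 ≤ L)
    (hm : 2 * (k : ℝ) + 1048576 * (√(k * L) + L) ≤ m) (hmL : (m : ℝ) ≤ Real.exp L)
    (hω1 : Real.exp (-(100 * L)) ≤ ω) (hω2 : ω ≤ ((m : ℝ) - 2 * k) / (4096 * m))
    (V : Type) [Fintype V] [DecidableEq V] (G R : SimpleGraph V) [DecidableRel G.Adj]
    [DecidableRel R.Adj] (hRG : R ≤ G)
    (hR : ∀ v, m ≤ R.degree v) (hmin : ∀ u v, R.Adj u v → R.degree u = m ∨ R.degree v = m)
    (hull : ∀ Z : Finset V, (∀ v ∈ Z, (R.degree v : ℝ) ≤ Real.exp (5 * L) ∧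
        ((m : ℝ) - 2 * k) / 64 < (Set.ncard {w : V | R.Adj v w ∧
          Real.exp (5 * L) < (R.degree w : ℝ) ∧
          (G.degree w : ℝ) < max (Real.exp (-L)) (4 * ω) * Fintype.card V} : ℝ)) →
      (Z.card : ℝ) ≤ Real.exp (-(2 * L)) * ω * Fintype.card V →
      ∃ W : Finset V, Z ⊆ W ∧ (W.card : ℝ) ≤ ω * Fintype.card V ∧
        ∀ v : V, v ∉ W → (R.degree v : ℝ) ≤ Real.exp (5 * L) →
          ((R.neighborFinset v ∩ W).card : ℝ) < ((m : ℝ) - 2 * k) / 64) :
    (∃ A : Finset V,
        |2 * (A.card : ℤ) - (Fintype.card V : ℤ)| ≤ 1 ∧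
        ∀ v : V, k ≤ ((G.neighborFinset v).filter (fun w => (w ∈ A ↔ v ∈ A))).card) ∧
    (∃ A : Finset V,
        |2 * (A.card : ℤ) - (Fintype.card V : ℤ)| ≤ 1 ∧
        ∀ v : V, k ≤ ((G.neighborFinset v).filter (fun w => (w ∈ A ↔ v ∉ A))).card) := by
  classical
  obtain ⟨c, hc, hc32, hcm, hc128, hcm', hc2m, hkm⟩ := params_n k m L hL hm
  set D : ℕ := ⌊Real.exp (5 * L)⌋₊ with hD
  have hnbG : ∀ v, nb G.Adj v = G.neighborFinset v := by
    intro v
    ext w
    simp [mem_nb]
  have hdgG : ∀ v, dg G.Adj v = G.degree v := by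
    intro v
    unfold dg
    rw [hnbG, SimpleGraph.card_neighborFinset_eq_degree]
  have hnbR : ∀ v, nb R.Adj v = R.neighborFinset v := by
    intro v
    ext w
    simp [mem_nb]
  have hdgR : ∀ v, dg R.Adj v = R.degree v := by
    intro v
    unfold dg
    rw [hnbR, SimpleGraph.card_neighborFinset_eq_degree]
  have hDiff : ∀ v, D < R.degree v ↔ Real.exp (5 * L) < (R.degree v : ℝ) := by
    intro v
    rw [hD, Nat.floor_lt (Real.exp_pos _).le]
  have hDiff' : ∀ v, R.degree v ≤ D ↔ (R.degree v : ℝ) ≤ Real.exp (5 * L) := by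
    intro v
    rw [← not_lt, hDiff v, not_lt]
  set S : Finset V := univ.filter (fun v => D < R.degree v ∧
    (G.degree v : ℝ) < max (Real.exp (-L)) (4 * ω) * Fintype.card V) with hS
  have main : ∀ J : ℝ, J = 1 ∨ J = -1 → ∃ e : V → ℝ, (∀ v, e v = 1 ∨ e v = -1) ∧
      |2 * ((univ.filter (fun v => e v = 1)).card : ℤ) - (Fintype.card V : ℤ)| ≤ 1 ∧
      ∀ v, k ≤ ((nb G.Adj v).filter (fun w => J * e v * e w = 1)).card := by
    intro J hJ
    obtain ⟨e, he1, he2, he3⟩ := core_n c L ω hc hc32 hL m k hmL hcm' hc2m hkm hω1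
      (by rw [hc128]; exact hω2) V G.Adj R.Adj (fun _ _ h => hRG h)
      (fun u v h => h.symm) (fun v hv => R.loopless.irrefl v hv)
      (fun v => by rw [hdgR]; exact hR v)
      (fun u v h => by rw [hdgR, hdgR]; exact hmin u v h) S (univ.filter (fun v => R.degree v ≤ D))
      (fun u hu => by
        rw [hdgR]
        exact (mem_filter.mp hu).2.1)
      (fun v hv => by
        rw [hdgR]
        exact (mem_filter.mp hv).2)
      (fun v hv hv' => by
        exfalso
        rw [hdgR] at hv'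
        exact hv (mem_filter.mpr ⟨mem_univ _, hv'⟩))
      (fun Z hZ hZS hZc => by
        obtain ⟨W, h1, h2, h3⟩ := hull Z (fun v hv => by
          refine ⟨(hDiff' v).1 (mem_filter.mp (hZ hv)).2, ?_⟩
          have h4 := hZS v hv
          rw [hcm] at h4
          have h5 : (nb R.Adj v ∩ S).card ≤ Set.ncard {w : V | R.Adj v w ∧
              Real.exp (5 * L) < (R.degree w : ℝ) ∧
              (G.degree w : ℝ) < max (Real.exp (-L)) (4 * ω) * Fintype.card V} := by
            rw [← Set.ncard_coe_finset]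
            apply Set.ncard_le_ncard _ (Set.toFinite _)
            intro w hw
            have hw' := Finset.mem_inter.1 (Finset.mem_coe.1 hw)
            have h6 := (mem_filter.mp hw'.2).2
            exact ⟨mem_nb.1 hw'.1, (hDiff w).1 h6.1, h6.2⟩
          have h6 : ((nb R.Adj v ∩ S).card : ℝ) ≤ (Set.ncard {w : V | R.Adj v w ∧
              Real.exp (5 * L) < (R.degree w : ℝ) ∧
              (G.degree w : ℝ) < max (Real.exp (-L)) (4 * ω) * Fintype.card V} : ℝ) := by
            exact_mod_cast h5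
          linarith) hZc
        refine ⟨W, h1, h2, fun v hv hvW => ?_⟩
        rw [hcm, hnbR]
        have h4 := h3 v hvW ((hDiff' v).1 (mem_filter.mp hv).2)
        linarith) J hJ
    refine ⟨e, he1, ?_, fun v => he3 v ?_⟩
    · rw [sum_sign e he1 (univ.filter (fun v => e v = 1)) (by simp)] at he2
      exact_mod_cast he2
    · rw [hdgR, hdgG]
      by_cases h1 : R.degree v ≤ D
      · exact Or.inl h1
      · right
        by_cases h2 : (G.degree v : ℝ) < max (Real.exp (-L)) (4 * ω) * Fintype.card V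
        · exact Or.inl (Finset.mem_filter.2 ⟨Finset.mem_univ _, not_le.1 h1, h2⟩)
        · exact Or.inr (not_lt.1 h2)
  constructor
  · obtain ⟨e, he1, he2, he3⟩ := main 1 (Or.inl rfl)
    refine ⟨_, he2, fun v => (he3 v).trans (Finset.card_le_card ?_)⟩
    intro w hw
    rw [Finset.mem_filter, hnbG] at hw
    rw [Finset.mem_filter]
    refine ⟨hw.1, ?_⟩
    have h1 := hw.2
    simp only [Finset.mem_filter, Finset.mem_univ, true_and]
    rcases he1 v with h | h <;> rcases he1 w with h' | h' <;> rw [h, h'] at h1 ⊢ <;>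
      first | (exfalso; revert h1; norm_num; done) | norm_num
  · obtain ⟨e, he1, he2, he3⟩ := main (-1) (Or.inr rfl)
    refine ⟨_, he2, fun v => (he3 v).trans (Finset.card_le_card ?_)⟩
    intro w hw
    rw [Finset.mem_filter, hnbG] at hw
    rw [Finset.mem_filter]
    refine ⟨hw.1, ?_⟩
    have h1 := hw.2
    simp only [Finset.mem_filter, Finset.mem_univ, true_and]
    rcases he1 v with h | h <;> rcases he1 w with h' | h' <;> rw [h, h'] at h1 ⊢ <;>
      first | (exfalso; revert h1; norm_num; done) | norm_num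

end Pool.Agent.helper14.LE
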