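import Pool.Agent.helper83.Bis.Count

set_option autoImplicit false

/-!
# The cascade lemma with sparsity of sets of bounded size only
-/

namespace Pool.Agent.helper14.LE

open Finset Pool.Agent.helper2.Bis Pool.Agent.helper83.Bis

/-- as `cascade_run`, with a bound `M` for the number of changed vertices of `Q` -/
theorem cascade_runM {V : Type} [Fintype V] [DecidableEq V] (R : V → V → Prop)
    (hsymm : ∀ u v, R u v → R v u) (hirr : ∀ v, ¬ R v v) (J : ℝ) (hJ : J = 1 ∨ J = -1)
    (S Q : Finset V) (hSQ : Disjoint S Q) (hSS : ∀ u ∈ S, ∀ v, R u v → v ∉ S)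
    (x : V → ℝ) (hx1 : ∀ v, |x v| ≤ 1) (hxS : ∀ u ∈ S, x u = 1 ∨ x u = -1)
    (t0 t1 : V → ℝ) (s : ℝ) (ht1 : ∀ v ∈ Q, 0 ≤ t1 v) (hts : ∀ v ∈ Q, t0 v + 2 * s ≤ t1 v)
    (hg1 : ∀ v ∈ Q, t0 v < J * ∑ w ∈ nb R v, x w → x v = 1)
    (hg2 : ∀ v ∈ Q, J * ∑ w ∈ nb R v, x w < -t0 v → x v = -1)
    (N0 : ℕ) (hD : ∀ u ∈ S, 2 * N0 ≤ dg R u) (M : ℕ)
    (hM : ∀ (y : V → ℝ) (Ch Fl : Finset V) (I : V → Finset V) (r : V → ℕ),
      Inv R J S Q x N0 s y Ch Fl I r → Ch.card ≤ M + 1 → Ch.card ≤ M) :
    ∃ (y : V → ℝ) (Ch Fl : Finset V) (I : V → Finset V) (r : V → ℕ),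
      Inv R J S Q x N0 s y Ch Fl I r ∧ Ch.card ≤ M ∧ (∀ v, |y v| ≤ 1) ∧
      (∀ v ∈ Q, t1 v < J * ∑ w ∈ nb R v, y w → y v = 1) ∧
      (∀ v ∈ Q, J * ∑ w ∈ nb R v, y w < -t1 v → y v = -1) ∧
      (∀ u ∈ S, N0 ≤ ((nb R u).filter (fun v => y v ≠ -(J * y u))).card) := by
  classical
  -- the domain
  set Dom : V → Finset ℝ := fun v => {x v, -x v, 1, -1} with hDom
  set ok : (V → ℝ) → Prop := fun y => ∃ (Ch Fl : Finset V) (I : V → Finset V) (r : V → ℕ),
    Inv R J S Q x N0 s y Ch Fl I r ∧ Ch.card ≤ M with hok
  set C : Finset (V → ℝ) := (Fintype.piFinset Dom).filter ok with hC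
  have hmem : ∀ y, ok y → y ∈ C := by
    intro y hy
    rw [hC, Finset.mem_filter, Fintype.mem_piFinset]
    refine ⟨fun v => ?_, hy⟩
    obtain ⟨Ch, Fl, I, r, h, _⟩ := hy
    simp only [hDom, Finset.mem_insert, Finset.mem_singleton]
    by_cases h1 : v ∈ Ch
    · rcases h.ch v h1 with h2 | h2
      · exact Or.inr (Or.inr (Or.inl h2))
      · exact Or.inr (Or.inr (Or.inr h2))
    · by_cases h3 : v ∈ Fl
      · rcases h.fl v h3 with h2 | h2
        · exact Or.inl h2
        · exact Or.inr (Or.inl h2)
      · exact Or.inl (h.off v h1 h3)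
  have hokx : ok x := by
    refine ⟨∅, ∅, fun _ => ∅, fun _ => 0, ?_, by simp⟩
    constructor
    · simp
    · simp
    · simp
    · simp
    · simp
    · simp
    · simp
    · simp
  obtain ⟨y, hyC, hmax⟩ := Finset.exists_max_image C (en R J) ⟨x, hmem x hokx⟩
  have hyok : ok y := (Finset.mem_filter.1 hyC).2
  obtain ⟨Ch, Fl, I, r, h, hChM⟩ := hyok
  have hSnQ : ∀ v, v ∈ S → v ∉ Q := fun v h1 h2 => Finset.disjoint_left.1 hSQ h1 h2
  have hChS : ∀ v, v ∈ Ch → v ∉ S := fun v h1 h2 => hSnQ v h2 (h.chQ h1)
  have hy1 : ∀ v, |y v| ≤ 1 := by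
    intro v
    by_cases h1 : v ∈ Ch
    · rcases h.ch v h1 with h2 | h2 <;> rw [h2] <;> norm_num
    · by_cases h3 : v ∈ Fl
      · rcases h.fl v h3 with h2 | h2
        · rw [h2]; exact hx1 v
        · rw [h2, abs_neg]; exact hx1 v
      · rw [h.off v h1 h3]; exact hx1 v
  -- the low vertices
  have key : ∀ ε : ℝ, (ε = 1 ∨ ε = -1) →
      (∀ v ∈ Q, t0 v < ε * (J * ∑ w ∈ nb R v, x w) → x v = ε) →
      ∀ v ∈ Q, t1 v < ε * (J * ∑ w ∈ nb R v, y w) → y v = ε := by
    intro ε hε hgx v hv hF
    by_contra hne
    have hvS : v ∉ S := fun h1 => hSnQ v h1 hv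
    have hvFl : v ∉ Fl := fun h1 => hvS (h.flS h1)
    have hεy : ε * y v < 1 := by
      have h1 := abs_le.1 (hy1 v)
      rcases hε with rfl | rfl
      · rcases lt_or_eq_of_le h1.2 with h2 | h2
        · linarith
        · exact absurd h2 hne
      · rcases lt_or_eq_of_le h1.1 with h2 | h2
        · linarith
        · exact absurd h2.symm hne
    have hε2 : ε * ε = 1 := by rcases hε with rfl | rfl <;> norm_num
    have hinc : en R J y < en R J (Function.update y v ε) := by
      have h1 := en_update R hsymm hirr J y v ε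
      have h2 : 2 * (ε - y v) * (J * ∑ w ∈ nb R v, y w) =
          2 * (1 - ε * y v) * (ε * (J * ∑ w ∈ nb R v, y w)) := by
        calc 2 * (ε - y v) * (J * ∑ w ∈ nb R v, y w) =
            2 * (ε * 1 - (ε * ε) * y v) * (J * ∑ w ∈ nb R v, y w) := by rw [hε2]; ring
          _ = _ := by ring
      have h3 : 0 < 2 * (1 - ε * y v) * (ε * (J * ∑ w ∈ nb R v, y w)) := by
        apply mul_pos
        · linarith
        · exact lt_of_le_of_lt (ht1 v hv) hF
      linarith
    have hok' : ok (Function.update y v ε) := by
      by_cases hvCh : v ∈ Ch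
      · refine ⟨Ch, Fl, I, r, ⟨h.chQ, h.flS, ?_, ?_, ?_, h.icard, h.imaj, h.cnt⟩, hChM⟩
        · intro w hw1 hw2
          have : w ≠ v := fun h1 => hw1 (h1 ▸ hvCh)
          rw [Function.update_of_ne this]
          exact h.off w hw1 hw2
        · intro w hw
          by_cases h1 : w = v
          · rw [h1, Function.update_self]
            exact hε
          · rw [Function.update_of_ne h1]
            exact h.ch w hw
        · intro u hu
          have : u ≠ v := fun h1 => hvFl (h1 ▸ hu)
          rw [Function.update_of_ne this]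
          exact h.fl u hu
      · -- the first move of `v`
        have hyx : y v = x v := h.off v hvCh hvFl
        have hF0 : ε * (J * ∑ w ∈ nb R v, x w) ≤ t0 v := by
          by_contra h1
          rw [not_le] at h1
          apply hne
          rw [hyx]
          exact hgx v hv h1
        set r' : V → ℕ := Function.update r v (Ch.sup r + 1) with hr'
        have hr'v : r' v = Ch.sup r + 1 := by rw [hr', Function.update_self]
        have hr'w : ∀ w ∈ Ch, r' w = r w := by
          intro w hw
          have : w ≠ v := fun h1 => hvCh (h1 ▸ hw)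
          rw [hr', Function.update_of_ne this]
        have hlt : ∀ w ∈ Ch, r' w < r' v := by
          intro w hw
          rw [hr'w w hw, hr'v]
          exact Nat.lt_succ_of_le (Finset.le_sup hw)
        have hInv : Inv R J S Q x N0 s (Function.update y v ε) (insert v Ch) Fl I r' := by
         refine ⟨?_, h.flS, ?_, ?_, ?_, h.icard, ?_, ?_⟩
         · intro w hw
           rcases Finset.mem_insert.1 hw with rfl | hw
           · exact hv
           · exact h.chQ hw
         · intro w hw1 hw2
           rw [Finset.mem_insert, not_or] at hw1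
           rw [Function.update_of_ne hw1.1]
           exact h.off w hw1.2 hw2
         · intro w hw
           by_cases h1 : w = v
           · rw [h1, Function.update_self]
             exact hε
           · rw [Function.update_of_ne h1]
             exact h.ch w ((Finset.mem_insert.1 hw).resolve_left h1)
         · intro u hu
           have : u ≠ v := fun h1 => hvFl (h1 ▸ hu)
           rw [Function.update_of_ne this]
           exact h.fl u hu
         · intro u hu w hw
           rcases h.imaj u hu w hw with h1 | h1 | h1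
           · exact Or.inl h1
           · exact Or.inr (Or.inl (Finset.mem_insert_of_mem h1))
           · exact Or.inr (Or.inr h1)
         · intro w hw
           rcases Finset.mem_insert.1 hw with rfl | hw
           · -- the count for `v`
             have e1 : ε * (J * ∑ u ∈ nb R w, y u) - ε * (J * ∑ u ∈ nb R w, x u) ≤
                 ∑ u ∈ nb R w, ((if u ∈ Ch then (2 : ℝ) else 0) +
                   (if u ∈ Fl ∧ w ∈ I u then (2 : ℝ) else 0)) := by
               have e2 : ε * (J * ∑ u ∈ nb R w, y u) - ε * (J * ∑ u ∈ nb R w, x u) =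
                   ∑ u ∈ nb R w, ε * J * (y u - x u) := by
                 rw [← Finset.mul_sum, Finset.sum_sub_distrib]
                 ring
               rw [e2]
               refine Finset.sum_le_sum fun u hu => ?_
               have hεJ : |ε * J| = 1 := by
                 rcases hε with rfl | rfl <;> rcases hJ with rfl | rfl <;> norm_num
               have hb2 : ε * J * (y u - x u) ≤ 2 := by
                 refine (le_abs_self _).trans ?_
                 rw [abs_mul, hεJ, one_mul]
                 have h1 := abs_le.1 (hy1 u)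
                 have h2 := abs_le.1 (hx1 u)
                 rw [abs_le]
                 constructor <;> linarith [h1.1, h1.2, h2.1, h2.2]
               by_cases h1 : u ∈ Ch
               · rw [if_pos h1]
                 have : (0 : ℝ) ≤ if u ∈ Fl ∧ w ∈ I u then (2 : ℝ) else 0 := by
                   split_ifs <;> norm_num
                 linarith
               · rw [if_neg h1, zero_add]
                 by_cases h2 : u ∈ Fl
                 · by_cases h3 : w ∈ I u
                   · rw [if_pos ⟨h2, h3⟩]
                     exact hb2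
                   · rw [if_neg (fun h4 => h3 h4.2)]
                     have h4 : w ∈ nb R u := mem_nb.2 (hsymm _ _ (mem_nb.1 hu))
                     rcases h.imaj u h2 w h4 with h5 | h5 | h5
                     · exact absurd h5 h3
                     · exact absurd h5 hvCh
                     · rcases h.fl u h2 with h6 | h6
                       · rw [h6]; simp
                       · rw [h6]
                         have h7 : x w = 1 ∨ x w = -1 := by
                           rw [h5]
                           rcases hJ with rfl | rfl <;> rcases hxS u (h.flS h2) with h8 | h8 <;>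
                             rw [h8] <;> norm_num
                         have h8 : x w ≠ ε := fun h9 => hne (hyx.trans h9)
                         have h9 : x w = -ε := by
                           rcases hε with rfl | rfl
                           · exact h7.resolve_left h8
                           · rw [neg_neg]
                             exact h7.resolve_right h8
                         have h10 : ε * J * (-x u - x u) = 2 * (ε * x w) := by
                           rw [h5]; ring
                         rw [h10, h9]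
                         have : ε * -ε = -1 := by rw [mul_neg, hε2]
                         rw [this]
                         norm_num
                 · rw [if_neg (fun h4 => h2 h4.1), h.off u h1 h2]
                   simp
             rw [Finset.sum_add_distrib] at e1
             have e3 : ∑ u ∈ nb R w, (if u ∈ Ch then (2 : ℝ) else 0) =
                 2 * ((nb R w ∩ Ch).card : ℝ) := by
               rw [Finset.sum_ite_mem, Finset.sum_const, nsmul_eq_mul]
               ring
             have e4 : ∑ u ∈ nb R w, (if u ∈ Fl ∧ w ∈ I u then (2 : ℝ) else 0) =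
                 2 * (((nb R w ∩ Fl).filter (fun u => w ∈ I u)).card : ℝ) := by
               rw [← Finset.sum_filter, Finset.sum_const, nsmul_eq_mul, mul_comm]
               congr 2
               congr 1
               ext u
               simp only [Finset.mem_filter, Finset.mem_inter]
               tauto
             rw [e3, e4] at e1
             have e5 : (nb R w ∩ insert w Ch).filter (fun u => r' u < r' w) = nb R w ∩ Ch := by
               ext u
               simp only [Finset.mem_filter, Finset.mem_inter, Finset.mem_insert]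
               constructor
               · rintro ⟨⟨h1, h2⟩, h3⟩
                 rcases h2 with rfl | h2
                 · exact absurd h3 (lt_irrefl _)
                 · exact ⟨h1, h2⟩
               · rintro ⟨h1, h2⟩
                 exact ⟨⟨h1, Or.inr h2⟩, hlt u h2⟩
             rw [e5]
             have e6 := hts w hv
             linarith
           · refine (h.cnt w hw).trans ?_
             have e1 : ((nb R w ∩ Ch).filter (fun u => r u < r w)).card ≤
                 ((nb R w ∩ insert v Ch).filter (fun u => r' u < r' w)).card := by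
               apply Finset.card_le_card
               intro u hu
               simp only [Finset.mem_filter, Finset.mem_inter, Finset.mem_insert] at hu ⊢
               refine ⟨⟨hu.1.1, Or.inr hu.1.2⟩, ?_⟩
               rw [hr'w u hu.1.2, hr'w w hw]
               exact hu.2
             have e2 : (((nb R w ∩ Ch).filter (fun u => r u < r w)).card : ℝ) ≤
                 (((nb R w ∩ insert v Ch).filter (fun u => r' u < r' w)).card : ℝ) := by
               exact_mod_cast e1
             linarith
        exact ⟨insert v Ch, Fl, I, r', hInv, hM _ _ _ _ _ hInv ((Finset.card_insert_le _ _).trans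
          (Nat.succ_le_succ hChM))⟩
    exact absurd (hmax _ (hmem _ hok')) (not_le.2 hinc)
  refine ⟨y, Ch, Fl, I, r, h, hChM, hy1, ?_, ?_, ?_⟩
  · intro v hv hF
    refine key 1 (Or.inl rfl) (fun v hv h1 => hg1 v hv (by rwa [one_mul] at h1)) v hv ?_
    rwa [one_mul]
  · intro v hv hF
    refine key (-1) (Or.inr rfl) (fun v hv h1 => hg2 v hv (by linarith)) v hv ?_
    linarith
  · -- the hubs
    intro u hu
    by_contra hlt
    rw [not_le] at hlt
    have hyS : y u = 1 ∨ y u = -1 := by
      have huCh : u ∉ Ch := fun h1 => hChS u h1 hu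
      by_cases h3 : u ∈ Fl
      · rcases h.fl u h3 with h2 | h2 <;> rcases hxS u hu with h4 | h4 <;> rw [h2, h4] <;>
          norm_num
      · rw [h.off u huCh h3]
        exact hxS u hu
    have huCh : u ∉ Ch := fun h1 => hChS u h1 hu
    have hJ2 : J * J = 1 := by rcases hJ with rfl | rfl <;> norm_num
    have hyu2 : y u * y u = 1 := by rcases hyS with h1 | h1 <;> rw [h1] <;> norm_num
    have hinc : en R J y < en R J (Function.update y u (-y u)) := by
      have h1 := en_update R hsymm hirr J y u (-y u)
      have h2 : 2 * (-y u - y u) * (J * ∑ w ∈ nb R u, y w) =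
          4 * ∑ w ∈ nb R u, (-(J * y u)) * y w := by
        rw [← Finset.mul_sum]
        ring
      have h3 : 0 < ∑ w ∈ nb R u, (-(J * y u)) * y w := by
        have h4 : ∀ w ∈ nb R u, (1 : ℝ) - (if y w ≠ -(J * y u) then 2 else 0) ≤
            (-(J * y u)) * y w := by
          intro w _
          by_cases h5 : y w ≠ -(J * y u)
          · rw [if_pos h5]
            have h6 : |(-(J * y u)) * y w| ≤ 1 := by
              rw [abs_mul, abs_neg, abs_mul]
              have h7 : |J| = 1 := by rcases hJ with rfl | rfl <;> norm_num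
              have h8 : |y u| = 1 := by rcases hyS with h9 | h9 <;> rw [h9] <;> norm_num
              rw [h7, h8]
              have := hy1 w
              linarith
            have := (abs_le.1 h6).1
            linarith
          · rw [if_neg h5]
            rw [not_not] at h5
            rw [h5]
            have : -(J * y u) * -(J * y u) = (J * J) * (y u * y u) := by ring
            rw [this, hJ2, hyu2]
            norm_num
        refine lt_of_lt_of_le ?_ (Finset.sum_le_sum h4)
        rw [Finset.sum_sub_distrib, ← Finset.sum_filter, Finset.sum_const, Finset.sum_const,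
          nsmul_eq_mul, nsmul_eq_mul, mul_one]
        have h5 := hD u hu
        unfold dg at h5
        have h6 : 2 * ((nb R u).filter (fun v => y v ≠ -(J * y u))).card < (nb R u).card := by
          omega
        have h7 : 2 * (((nb R u).filter (fun v => y v ≠ -(J * y u))).card : ℝ) <
            ((nb R u).card : ℝ) := by exact_mod_cast h6
        linarith
      linarith
    have hok' : ok (Function.update y u (-y u)) := by
      by_cases huFl : u ∈ Fl
      · refine ⟨Ch, Fl, I, r, ⟨h.chQ, h.flS, ?_, ?_, ?_, h.icard, h.imaj, h.cnt⟩, hChM⟩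
        · intro w hw1 hw2
          have : w ≠ u := fun h1 => hw2 (h1 ▸ huFl)
          rw [Function.update_of_ne this]
          exact h.off w hw1 hw2
        · intro w hw
          have : w ≠ u := fun h1 => huCh (h1 ▸ hw)
          rw [Function.update_of_ne this]
          exact h.ch w hw
        · intro w hw
          by_cases h1 : w = u
          · rw [h1, Function.update_self]
            rcases h.fl u huFl with h2 | h2
            · right; rw [h2]
            · left; rw [h2, neg_neg]
          · rw [Function.update_of_ne h1]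
            exact h.fl w hw
      · have hyx : y u = x u := h.off u huCh huFl
        set I' : V → Finset V := Function.update I u
          ((nb R u).filter (fun v => y v ≠ -(J * y u))) with hI'
        have hI'u : I' u = (nb R u).filter (fun v => y v ≠ -(J * y u)) := by
          rw [hI', Function.update_self]
        have hI'w : ∀ w ∈ Fl, I' w = I w := by
          intro w hw
          have : w ≠ u := fun h1 => huFl (h1 ▸ hw)
          rw [hI', Function.update_of_ne this]
        refine ⟨Ch, insert u Fl, I', r, ⟨h.chQ, ?_, ?_, ?_, ?_, ?_, ?_, ?_⟩, hChM⟩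
        · intro w hw
          rcases Finset.mem_insert.1 hw with rfl | hw
          · exact hu
          · exact h.flS hw
        · intro w hw1 hw2
          rw [Finset.mem_insert, not_or] at hw2
          rw [Function.update_of_ne hw2.1]
          exact h.off w hw1 hw2.2
        · intro w hw
          have : w ≠ u := fun h1 => huCh (h1 ▸ hw)
          rw [Function.update_of_ne this]
          exact h.ch w hw
        · intro w hw
          by_cases h1 : w = u
          · rw [h1, Function.update_self, hyx]
            right; rfl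
          · rw [Function.update_of_ne h1]
            exact h.fl w ((Finset.mem_insert.1 hw).resolve_left h1)
        · intro w hw
          by_cases h1 : w = u
          · rw [h1, hI'u]
            exact hlt.le
          · have h2 := (Finset.mem_insert.1 hw).resolve_left h1
            rw [hI'w w h2]
            exact h.icard w h2
        · intro w hw v hv
          by_cases h1 : w = u
          · subst h1
            rw [hI'u]
            by_cases h2 : y v = -(J * y w)
            · by_cases h3 : v ∈ Ch
              · exact Or.inr (Or.inl h3)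
              · right; right
                have h4 : v ∉ Fl := fun h5 => hSS w hu v (mem_nb.1 hv) (h.flS h5)
                rw [← h.off v h3 h4, ← hyx]
                exact h2
            · exact Or.inl (Finset.mem_filter.2 ⟨hv, h2⟩)
          · have h2 := (Finset.mem_insert.1 hw).resolve_left h1
            rw [hI'w w h2]
            exact h.imaj w h2 v hv
        · intro w hw
          refine (h.cnt w hw).trans ?_
          have e1 : ((nb R w ∩ Fl).filter (fun u' => w ∈ I u')).card ≤
              ((nb R w ∩ insert u Fl).filter (fun u' => w ∈ I' u')).card := by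
            apply Finset.card_le_card
            intro u' hu'
            simp only [Finset.mem_filter, Finset.mem_inter, Finset.mem_insert] at hu' ⊢
            refine ⟨⟨hu'.1.1, Or.inr hu'.1.2⟩, ?_⟩
            rw [hI'w u' hu'.1.2]
            exact hu'.2
          have e2 : (((nb R w ∩ Fl).filter (fun u' => w ∈ I u')).card : ℝ) ≤
              (((nb R w ∩ insert u Fl).filter (fun u' => w ∈ I' u')).card : ℝ) := by
            exact_mod_cast e1
          linarith
    exact absurd (hmax _ (hmem _ hok')) (not_le.2 hinc)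

/-- the number of changes, for any certificate -/
theorem inv_count {V : Type} [Fintype V] [DecidableEq V] (R : V → V → Prop)
    (hsymm : ∀ u v, R u v → R v u) (J : ℝ) (hJ : J = 1 ∨ J = -1)
    (H S Q : Finset V) (hSS : ∀ u ∈ S, ∀ v, R u v → v ∉ H)
    (x : V → ℝ) (hxS : ∀ u ∈ S, x u = 1 ∨ x u = -1)
    (s B : ℝ) (hs : 0 < s) (hB : 0 < B) (hBs : 2 ≤ s * B)
    (m D N0 : ℕ) (hD : ∀ u ∈ S, D ≤ dg R u) (hm : ∀ v, (nb R v ∩ S).card ≤ m)
    (hDN : 2 * ((N0 : ℝ) + m * B * N0) ≤ D)
    (y : V → ℝ) (Ch Fl : Finset V) (I : V → Finset V) (r : V → ℕ)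
    (h : Inv R J S Q x N0 s y Ch Fl I r)
    (hsp : ∀ Y ⊆ Ch, RConn R Y → B ≤ Y.card →
      ((∑ v ∈ Y, (nb R v ∩ Y).card : ℕ) : ℝ) ≤ s * Y.card) :
    (Ch.card : ℝ) ≤ B * (N0 * Fl.card) ∧
      (D : ℝ) * Fl.card ≤ 2 * m * ((univ.filter (fun v => v ∉ H ∧ x v ≠ 0)).card : ℝ) := by
  classical
  have hCh : (Ch.card : ℝ) ≤ B * (N0 * Fl.card) := by
    have h1 := count_closed R hsymm s B hs hB hBs Ch
      (fun v => ((nb R v ∩ Fl).filter (fun u => v ∈ I u)).card) r h.cnt
      hsp _ Ch rfl (Finset.Subset.refl _) (fun a _ w _ hw => hw)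
    refine h1.trans (mul_le_mul_of_nonneg_left ?_ hB.le)
    have h2 : ∑ v ∈ Ch, ((nb R v ∩ Fl).filter (fun u => v ∈ I u)).card ≤ ∑ u ∈ Fl, (I u).card := by
      have e1 : ∀ v ∈ Ch, ((nb R v ∩ Fl).filter (fun u => v ∈ I u)).card ≤
          ∑ u ∈ Fl, if v ∈ I u then 1 else 0 := by
        intro v _
        rw [Finset.sum_boole]
        simp only [Nat.cast_id]
        apply Finset.card_le_card
        intro u hu
        simp only [Finset.mem_filter, Finset.mem_inter] at hu ⊢
        exact ⟨hu.1.2, hu.2⟩
      refine (Finset.sum_le_sum e1).trans ?_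
      rw [Finset.sum_comm]
      refine Finset.sum_le_sum fun u _ => ?_
      rw [Finset.sum_boole]
      simp only [Nat.cast_id]
      apply Finset.card_le_card
      intro v hv
      exact (Finset.mem_filter.1 hv).2
    have h3 : ∑ u ∈ Fl, (I u).card ≤ N0 * Fl.card := by
      refine (Finset.sum_le_card_nsmul _ _ N0 h.icard).trans (le_of_eq ?_)
      rw [smul_eq_mul, mul_comm]
    have h4 : (∑ v ∈ Ch, ((nb R v ∩ Fl).filter (fun u => v ∈ I u)).card : ℕ) ≤ N0 * Fl.card :=
      h2.trans h3
    exact_mod_cast h4
  refine ⟨hCh, ?_⟩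
  set X : Finset V := univ.filter (fun v => v ∉ H ∧ x v ≠ 0) with hX
  have h1 : ∀ u ∈ Fl, D ≤ N0 + (nb R u ∩ (Ch ∪ X)).card := by
    intro u hu
    have huS := h.flS hu
    refine (hD u huS).trans ?_
    have h2 : nb R u ⊆ I u ∪ (nb R u ∩ (Ch ∪ X)) := by
      intro v hv
      rcases h.imaj u hu v hv with h3 | h3 | h3
      · exact Finset.mem_union_left _ h3
      · exact Finset.mem_union_right _ (Finset.mem_inter.2 ⟨hv, Finset.mem_union_left _ h3⟩)
      · refine Finset.mem_union_right _ (Finset.mem_inter.2 ⟨hv, Finset.mem_union_right _ ?_⟩)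
        rw [hX, Finset.mem_filter]
        refine ⟨Finset.mem_univ _, hSS u huS v (mem_nb.1 hv), ?_⟩
        rw [h3]
        rcases hJ with rfl | rfl <;> rcases hxS u huS with h4 | h4 <;> rw [h4] <;> norm_num
    have h3 := (Finset.card_le_card h2).trans (Finset.card_union_le _ _)
    have h4 := h.icard u hu
    unfold dg
    omega
  have h2 : D * Fl.card ≤ N0 * Fl.card + m * (Ch ∪ X).card := by
    have e1 : ∑ _u ∈ Fl, D ≤ ∑ u ∈ Fl, (N0 + (nb R u ∩ (Ch ∪ X)).card) := Finset.sum_le_sum h1
    rw [Finset.sum_const, smul_eq_mul, Finset.sum_add_distrib, Finset.sum_const, smul_eq_mul] at e1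
    have e2 : ∑ u ∈ Fl, (nb R u ∩ (Ch ∪ X)).card ≤ m * (Ch ∪ X).card := by
      have e3 : ∀ u ∈ Fl, (nb R u ∩ (Ch ∪ X)).card = ∑ v ∈ Ch ∪ X, if R u v then 1 else 0 := by
        intro u _
        rw [Finset.sum_boole]
        simp only [Nat.cast_id]
        congr 1
        ext w
        simp only [Finset.mem_filter, Finset.mem_inter, mem_nb]
        tauto
      rw [Finset.sum_congr rfl e3, Finset.sum_comm]
      have e4 : ∀ v ∈ Ch ∪ X, ∑ u ∈ Fl, (if R u v then 1 else 0) ≤ m := by
        intro v _
        rw [Finset.sum_boole]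
        simp only [Nat.cast_id]
        refine (Finset.card_le_card ?_).trans (hm v)
        intro u hu
        rw [Finset.mem_filter] at hu
        rw [Finset.mem_inter, mem_nb]
        exact ⟨hsymm _ _ hu.2, h.flS hu.1⟩
      refine (Finset.sum_le_card_nsmul _ _ m e4).trans (le_of_eq ?_)
      rw [smul_eq_mul, mul_comm]
    have e5 : Fl.card * D = D * Fl.card := mul_comm _ _
    have e6 : Fl.card * N0 = N0 * Fl.card := mul_comm _ _
    omega
  have h3 : ((Ch ∪ X).card : ℝ) ≤ Ch.card + X.card := by exact_mod_cast Finset.card_union_le _ _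
  have h4 : (D : ℝ) * Fl.card ≤ N0 * Fl.card + m * (Ch ∪ X).card := by exact_mod_cast h2
  have h5 : (m : ℝ) * (Ch ∪ X).card ≤ m * (Ch.card + X.card) :=
    mul_le_mul_of_nonneg_left h3 (Nat.cast_nonneg _)
  have h6 : (m : ℝ) * Ch.card ≤ m * (B * (N0 * Fl.card)) :=
    mul_le_mul_of_nonneg_left hCh (Nat.cast_nonneg _)
  have h7 : (2 * ((N0 : ℝ) + m * B * N0)) * Fl.card ≤ D * Fl.card :=
    mul_le_mul_of_nonneg_right hDN (Nat.cast_nonneg _)
  nlinarith

/-- **The cascade lemma**, with sparsity of the connected sets with at most `M + 1` vertices only -/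
theorem cascadeM {V : Type} [Fintype V] [DecidableEq V] (R : V → V → Prop)
    (hsymm : ∀ u v, R u v → R v u) (hirr : ∀ v, ¬ R v v) (J : ℝ) (hJ : J = 1 ∨ J = -1)
    (H S Q : Finset V) (hSH : S ⊆ H) (hQH : Disjoint Q H) (hSS : ∀ u ∈ S, ∀ v, R u v → v ∉ H)
    (x : V → ℝ) (hx1 : ∀ v, |x v| ≤ 1) (hxS : ∀ u ∈ S, x u = 1 ∨ x u = -1)
    (t0 t1 : V → ℝ) (s B : ℝ) (hs : 0 < s) (hB : 0 < B) (hBs : 2 ≤ s * B)
    (ht1 : ∀ v ∈ Q, 0 ≤ t1 v) (hts : ∀ v ∈ Q, t0 v + 2 * s ≤ t1 v)
    (hg1 : ∀ v ∈ Q, t0 v < J * ∑ w ∈ nb R v, x w → x v = 1)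
    (hg2 : ∀ v ∈ Q, J * ∑ w ∈ nb R v, x w < -t0 v → x v = -1)
    (M : ℕ)
    (hsp : ∀ Y ⊆ Q, RConn R Y → B ≤ Y.card → Y.card ≤ M + 1 →
      ((∑ v ∈ Y, (nb R v ∩ Y).card : ℕ) : ℝ) ≤ s * Y.card)
    (m D N0 : ℕ) (hD0 : 0 < D) (hD : ∀ u ∈ S, D ≤ dg R u) (hm : ∀ v, (nb R v ∩ S).card ≤ m)
    (hDN : 2 * ((N0 : ℝ) + m * B * N0) ≤ D)
    (hXM : B * N0 * (2 * m * ((univ.filter (fun v => v ∉ H ∧ x v ≠ 0)).card : ℝ)) ≤ M * D) :
    ∃ (y : V → ℝ) (Ch Fl : Finset V), Ch ⊆ Q ∧ Fl ⊆ S ∧ (∀ v, v ∉ Ch → v ∉ Fl → y v = x v) ∧
      (∀ v ∈ Ch, y v = 1 ∨ y v = -1) ∧ (∀ u ∈ Fl, y u = x u ∨ y u = -x u) ∧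
      (∀ v ∈ Q, t1 v < J * ∑ w ∈ nb R v, y w → y v = 1) ∧
      (∀ v ∈ Q, J * ∑ w ∈ nb R v, y w < -t1 v → y v = -1) ∧
      (∀ u ∈ S, N0 ≤ ((nb R u).filter (fun v => y v ≠ -(J * y u))).card) ∧
      (Ch.card : ℝ) ≤ B * (N0 * Fl.card) ∧
      (D : ℝ) * Fl.card ≤ 2 * m * ((univ.filter (fun v => v ∉ H ∧ x v ≠ 0)).card : ℝ) := by
  classical
  have hN0D : 2 * N0 ≤ D := by
    have h1 : (0 : ℝ) ≤ m * B * N0 := by positivity
    have h2 : 2 * (N0 : ℝ) ≤ D := by linarith
    exact_mod_cast h2
  have hDR : (0 : ℝ) < D := by exact_mod_cast hD0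
  have hall : ∀ (y : V → ℝ) (Ch Fl : Finset V) (I : V → Finset V) (r : V → ℕ),
      Inv R J S Q x N0 s y Ch Fl I r → Ch.card ≤ M + 1 →
      (Ch.card : ℝ) ≤ B * (N0 * Fl.card) ∧
      (D : ℝ) * Fl.card ≤ 2 * m * ((univ.filter (fun v => v ∉ H ∧ x v ≠ 0)).card : ℝ) :=
    fun y Ch Fl I r h hc => inv_count R hsymm J hJ H S Q hSS x hxS s B hs hB hBs m D N0 hD hm hDN
      y Ch Fl I r h (fun Y hY hYc hYB => hsp Y (hY.trans h.chQ) hYc hYB
        ((Finset.card_le_card hY).trans hc))
  obtain ⟨y, Ch, Fl, I, r, h, hChM, hy1, c1, c2, c3⟩ := cascade_runM R hsymm hirr J hJ S Q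
    (Finset.disjoint_left.2 fun v h1 h2 => Finset.disjoint_left.1 hQH h2 (hSH h1))
    (fun u hu v huv hv => hSS u hu v huv (hSH hv)) x hx1 hxS t0 t1 s ht1 hts hg1 hg2 N0
    (fun u hu => hN0D.trans (hD u hu)) M (by
      intro y Ch Fl I r h hc
      obtain ⟨h1, h2⟩ := hall y Ch Fl I r h hc
      have h3 : (D : ℝ) * Ch.card ≤ D * M := by
        calc (D : ℝ) * Ch.card ≤ D * (B * (N0 * Fl.card)) :=
              mul_le_mul_of_nonneg_left h1 hDR.le
          _ = (B * N0) * (D * Fl.card) := by ring
          _ ≤ (B * N0) * (2 * m * ((univ.filter (fun v => v ∉ H ∧ x v ≠ 0)).card : ℝ)) :=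
              mul_le_mul_of_nonneg_left h2 (by positivity)
          _ ≤ M * D := hXM
          _ = D * M := mul_comm _ _
      exact_mod_cast le_of_mul_le_mul_left h3 hDR)
  obtain ⟨h1, h2⟩ := hall y Ch Fl I r h (Nat.le_succ_of_le hChM)
  exact ⟨y, Ch, Fl, h.chQ, h.flS, h.off, h.ch, h.fl, c1, c2, c3, h1, h2⟩

end Pool.Agent.helper14.LE
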