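import Pool.Agent.helper77.Hull.Cascade

set_option autoImplicit false

/-!
# The cascade lemma with hulls of the small sets of vertices that have many middle hubs
-/

namespace Pool.Agent.helper14.LE

open Finset Pool.Agent.helper2.Bis Pool.Agent.helper83.Bis Pool.Agent.helper77.Hull

/-- the number of changes, for any certificate: `Z` is the set of the changed vertices that are in
more than `σ` counted minorities, and all changed vertices are in the hull of `Z` -/
theorem inv_count_n {V : Type} [Fintype V] [DecidableEq V] (R : V → V → Prop)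
    (hsymm : ∀ u v, R u v → R v u) (J : ℝ) (hJ : J = 1 ∨ J = -1)
    (H S Q : Finset V) (hSS : ∀ u ∈ S, ∀ v, R u v → v ∉ H)
    (x : V → ℝ) (hxS : ∀ u ∈ S, x u = 1 ∨ x u = -1) (s σ : ℝ) (hσ0 : 0 ≤ σ) (hσ : 2 * σ ≤ s)
    (m D N0 F b : ℕ) (hD : ∀ u ∈ S, D ≤ dg R u) (hm : ∀ v, (nb R v ∩ S).card ≤ m)
    (hN0D : 2 * N0 ≤ D)
    (hull : ∀ Z ⊆ Q, (∀ v ∈ Z, σ < ((nb R v ∩ S).card : ℝ)) → Z.card ≤ N0 * F →
      ∃ W : Finset V, Z ⊆ W ∧ W.card ≤ b ∧ ∀ v ∈ Q, v ∉ W → ((nb R v ∩ W).card : ℝ) < σ)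
    (y : V → ℝ) (Ch Fl : Finset V) (I : V → Finset V) (r : V → ℕ)
    (h : Inv R J S Q x N0 s y Ch Fl I r) (hFl : Fl.card ≤ F) :
    Ch.card ≤ b ∧
      D * Fl.card ≤ 2 * m * (Ch.card + (univ.filter (fun v => v ∉ H ∧ x v ≠ 0)).card) := by
  classical
  have hCh : Ch.card ≤ b := by
    set hv : V → ℕ := fun v => ((nb R v ∩ Fl).filter (fun u => v ∈ I u)).card with hhv
    have h2 : ∑ v ∈ Ch, hv v ≤ ∑ u ∈ Fl, (I u).card := by
      have e1 : ∀ v ∈ Ch, hv v ≤ ∑ u ∈ Fl, if v ∈ I u then 1 else 0 := by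
        intro v _
        rw [Finset.sum_boole]
        simp only [Nat.cast_id]
        apply Finset.card_le_card
        intro u hu
        simp only [Finset.mem_filter, Finset.mem_inter] at hu ⊢
        exact ⟨hu.1.2, hu.2⟩
      refine (Finset.sum_le_sum e1).trans ?_
      rw [Finset.sum_comm]
      refine Finset.sum_le_sum fun u _ => ?_
      rw [Finset.sum_boole]
      simp only [Nat.cast_id]
      apply Finset.card_le_card
      intro v hv
      exact (Finset.mem_filter.1 hv).2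
    have h3 : ∑ u ∈ Fl, (I u).card ≤ N0 * Fl.card := by
      refine (Finset.sum_le_card_nsmul _ _ N0 h.icard).trans (le_of_eq ?_)
      rw [smul_eq_mul, mul_comm]
    set Z : Finset V := Ch.filter (fun v => σ < (hv v : ℝ)) with hZ
    have hZ1 : Z.card ≤ N0 * Fl.card := by
      have e1 : Z.card ≤ ∑ v ∈ Ch, hv v := by
        calc Z.card = ∑ _v ∈ Z, 1 := by simp
          _ ≤ ∑ v ∈ Z, hv v := Finset.sum_le_sum fun v hv' => by
            have h5 : (0 : ℝ) < hv v := lt_of_le_of_lt hσ0 (Finset.mem_filter.1 hv').2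
            have h6 : 0 < hv v := by exact_mod_cast h5
            exact h6
          _ ≤ ∑ v ∈ Ch, hv v :=
            Finset.sum_le_sum_of_subset (Finset.filter_subset _ _)
      omega
    obtain ⟨W, hZW, hWc, hWn⟩ := hull Z ((Finset.filter_subset _ _).trans h.chQ)
      (fun v hvZ => by
        refine lt_of_lt_of_le (Finset.mem_filter.1 hvZ).2 ?_
        have h5 : hv v ≤ (nb R v ∩ S).card := by
          simp only [hhv]
          exact Finset.card_le_card ((Finset.filter_subset _ _).trans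
            (Finset.inter_subset_inter_left h.flS))
        exact_mod_cast h5)
      (hZ1.trans (Nat.mul_le_mul_left _ hFl))
    have hChW : Ch ⊆ W := by
      by_contra hcon
      have hne : (Ch.filter (fun v => v ∉ W)).Nonempty := by
        rw [Finset.nonempty_iff_ne_empty]
        intro he
        apply hcon
        intro v hv'
        by_contra hvW
        have : v ∈ Ch.filter (fun v => v ∉ W) := Finset.mem_filter.2 ⟨hv', hvW⟩
        rw [he] at this
        exact absurd this (Finset.notMem_empty _)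
      obtain ⟨v0, hv0, hmin⟩ := Finset.exists_min_image _ r hne
      obtain ⟨hv0C, hv0W⟩ := Finset.mem_filter.1 hv0
      have e1 := h.cnt v0 hv0C
      have e2 : (hv v0 : ℝ) ≤ σ := by
        by_contra h0
        exact hv0W (hZW (Finset.mem_filter.2 ⟨hv0C, not_le.1 h0⟩))
      have e3 : (((nb R v0 ∩ Fl).filter (fun u => v0 ∈ I u)).card : ℝ) ≤ σ := e2
      have e4 : (nb R v0 ∩ Ch).filter (fun w => r w < r v0) ⊆ nb R v0 ∩ W := by
        intro w hw
        obtain ⟨hw1, hw2⟩ := Finset.mem_filter.1 hw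
        obtain ⟨hw3, hw4⟩ := Finset.mem_inter.1 hw1
        refine Finset.mem_inter.2 ⟨hw3, ?_⟩
        by_contra hwW
        exact absurd (hmin w (Finset.mem_filter.2 ⟨hw4, hwW⟩)) (not_le.2 hw2)
      have e5 : (((nb R v0 ∩ Ch).filter (fun w => r w < r v0)).card : ℝ) ≤
          ((nb R v0 ∩ W).card : ℝ) := by exact_mod_cast Finset.card_le_card e4
      have e6 := hWn v0 (h.chQ hv0C) hv0W
      linarith
    exact (Finset.card_le_card hChW).trans hWc
  refine ⟨hCh, ?_⟩
  set X : Finset V := univ.filter (fun v => v ∉ H ∧ x v ≠ 0) with hX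
  have h1 : ∀ u ∈ Fl, D ≤ N0 + (nb R u ∩ (Ch ∪ X)).card := by
    intro u hu
    have huS := h.flS hu
    refine (hD u huS).trans ?_
    have h2 : nb R u ⊆ I u ∪ (nb R u ∩ (Ch ∪ X)) := by
      intro v hv
      rcases h.imaj u hu v hv with h3 | h3 | h3
      · exact Finset.mem_union_left _ h3
      · exact Finset.mem_union_right _ (Finset.mem_inter.2 ⟨hv, Finset.mem_union_left _ h3⟩)
      · refine Finset.mem_union_right _ (Finset.mem_inter.2 ⟨hv, Finset.mem_union_right _ ?_⟩)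
        rw [hX, Finset.mem_filter]
        refine ⟨Finset.mem_univ _, hSS u huS v (mem_nb.1 hv), ?_⟩
        rw [h3]
        rcases hJ with rfl | rfl <;> rcases hxS u huS with h4 | h4 <;> rw [h4] <;> norm_num
    have h3 := (Finset.card_le_card h2).trans (Finset.card_union_le _ _)
    have h4 := h.icard u hu
    unfold dg
    omega
  have h2 : D * Fl.card ≤ N0 * Fl.card + m * (Ch ∪ X).card := by
    have e1 : ∑ _u ∈ Fl, D ≤ ∑ u ∈ Fl, (N0 + (nb R u ∩ (Ch ∪ X)).card) := Finset.sum_le_sum h1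
    rw [Finset.sum_const, smul_eq_mul, Finset.sum_add_distrib, Finset.sum_const, smul_eq_mul] at e1
    have e2 : ∑ u ∈ Fl, (nb R u ∩ (Ch ∪ X)).card ≤ m * (Ch ∪ X).card := by
      have e3 : ∀ u ∈ Fl, (nb R u ∩ (Ch ∪ X)).card = ∑ v ∈ Ch ∪ X, if R u v then 1 else 0 := by
        intro u _
        rw [Finset.sum_boole]
        simp only [Nat.cast_id]
        congr 1
        ext w
        simp only [Finset.mem_filter, Finset.mem_inter, mem_nb]
        tauto
      rw [Finset.sum_congr rfl e3, Finset.sum_comm]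
      have e4 : ∀ v ∈ Ch ∪ X, ∑ u ∈ Fl, (if R u v then 1 else 0) ≤ m := by
        intro v _
        rw [Finset.sum_boole]
        simp only [Nat.cast_id]
        refine (Finset.card_le_card ?_).trans (hm v)
        intro u hu
        rw [Finset.mem_filter] at hu
        rw [Finset.mem_inter, mem_nb]
        exact ⟨hsymm _ _ hu.2, h.flS hu.1⟩
      refine (Finset.sum_le_card_nsmul _ _ m e4).trans (le_of_eq ?_)
      rw [smul_eq_mul, mul_comm]
    have e5 : Fl.card * D = D * Fl.card := mul_comm _ _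
    have e6 : Fl.card * N0 = N0 * Fl.card := mul_comm _ _
    omega
  have h3 : (Ch ∪ X).card ≤ Ch.card + X.card := Finset.card_union_le _ _
  have h4 : m * (Ch ∪ X).card ≤ m * (Ch.card + X.card) := Nat.mul_le_mul_left _ h3
  have h5 : 2 * N0 * Fl.card ≤ D * Fl.card := Nat.mul_le_mul_right _ hN0D
  have h6 : 2 * N0 * Fl.card = 2 * (N0 * Fl.card) := by ring
  have h7 : 2 * m * (Ch.card + X.card) = 2 * (m * (Ch.card + X.card)) := by ring
  omega

/-- **The cascade lemma**, with hulls of the small subsets of `Q` of vertices with many middle hubs -/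
theorem cascade_n {V : Type} [Fintype V] [DecidableEq V] (R : V → V → Prop)
    (hsymm : ∀ u v, R u v → R v u) (hirr : ∀ v, ¬ R v v) (J : ℝ) (hJ : J = 1 ∨ J = -1)
    (H S Q : Finset V) (hSH : S ⊆ H) (hQH : Disjoint Q H) (hSS : ∀ u ∈ S, ∀ v, R u v → v ∉ H)
    (x : V → ℝ) (hx1 : ∀ v, |x v| ≤ 1) (hxS : ∀ u ∈ S, x u = 1 ∨ x u = -1)
    (t0 t1 : V → ℝ) (s σ : ℝ) (hs : 0 < s) (hσ0 : 0 ≤ σ) (hσ : 2 * σ ≤ s)
    (ht1 : ∀ v ∈ Q, 0 ≤ t1 v) (hts : ∀ v ∈ Q, t0 v + 2 * s ≤ t1 v)
    (hg1 : ∀ v ∈ Q, t0 v < J * ∑ w ∈ nb R v, x w → x v = 1)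
    (hg2 : ∀ v ∈ Q, J * ∑ w ∈ nb R v, x w < -t0 v → x v = -1)
    (m D N0 F b : ℕ) (hD0 : 0 < D) (hD : ∀ u ∈ S, D ≤ dg R u) (hm : ∀ v, (nb R v ∩ S).card ≤ m)
    (hN0D : 2 * N0 ≤ D)
    (hcase : univ.filter (fun v => v ∉ H ∧ x v ≠ 0) = ∅ ∨
      ((∀ Z ⊆ Q, (∀ v ∈ Z, σ < ((nb R v ∩ S).card : ℝ)) → Z.card ≤ N0 * (F + 1) →
        ∃ W : Finset V, Z ⊆ W ∧ W.card ≤ b ∧ ∀ v ∈ Q, v ∉ W → ((nb R v ∩ W).card : ℝ) < σ) ∧
      2 * m * (b + (univ.filter (fun v => v ∉ H ∧ x v ≠ 0)).card) < (F + 1) * D)) :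
    ∃ (y : V → ℝ) (Ch Fl : Finset V), Ch ⊆ Q ∧ Fl ⊆ S ∧ (∀ v, v ∉ Ch → v ∉ Fl → y v = x v) ∧
      (∀ v ∈ Ch, y v = 1 ∨ y v = -1) ∧ (∀ u ∈ Fl, y u = x u ∨ y u = -x u) ∧
      (∀ v ∈ Q, t1 v < J * ∑ w ∈ nb R v, y w → y v = 1) ∧
      (∀ v ∈ Q, J * ∑ w ∈ nb R v, y w < -t1 v → y v = -1) ∧
      (∀ u ∈ S, N0 ≤ ((nb R u).filter (fun v => y v ≠ -(J * y u))).card) ∧
      (Ch.card ≤ b ∧ (univ.filter (fun v => v ∉ H ∧ x v ≠ 0) = ∅ → Ch.card = 0)) ∧
      D * Fl.card ≤ 2 * m * (Ch.card + (univ.filter (fun v => v ∉ H ∧ x v ≠ 0)).card) := by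
  classical
  by_cases hX : univ.filter (fun v => v ∉ H ∧ x v ≠ 0) = ∅
  · -- nothing to do
    refine ⟨x, ∅, ∅, Finset.empty_subset _, Finset.empty_subset _, fun _ _ _ => rfl,
      fun v hv => absurd hv (Finset.notMem_empty _), fun v hv => absurd hv (Finset.notMem_empty _),
      fun v hv h1 => hg1 v hv ?_, fun v hv h1 => hg2 v hv ?_, fun u hu => ?_, by simp, by simp⟩
    · have := hts v hv
      linarith
    · have := hts v hv
      linarith
    · have h1 : (nb R u).filter (fun v => x v ≠ -(J * x u)) = nb R u := by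
        apply Finset.filter_true_of_mem
        intro v hv h2
        have h3 : v ∉ H := hSS u hu v (mem_nb.1 hv)
        have h4 : v ∈ univ.filter (fun v => v ∉ H ∧ x v ≠ 0) := by
          refine Finset.mem_filter.2 ⟨Finset.mem_univ _, h3, ?_⟩
          rw [h2]
          rcases hJ with rfl | rfl <;> rcases hxS u hu with h5 | h5 <;> rw [h5] <;> norm_num
        rw [hX] at h4
        exact absurd h4 (Finset.notMem_empty _)
      rw [h1]
      have h2 := hD u hu
      unfold dg at h2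
      omega
  obtain ⟨hull, hXF⟩ := hcase.resolve_left hX
  have hall : ∀ (y : V → ℝ) (Ch Fl : Finset V) (I : V → Finset V) (r : V → ℕ),
      Inv R J S Q x N0 s y Ch Fl I r → Fl.card ≤ F + 1 →
      Ch.card ≤ b ∧
      D * Fl.card ≤ 2 * m * (Ch.card + (univ.filter (fun v => v ∉ H ∧ x v ≠ 0)).card) :=
    fun y Ch Fl I r h hc => inv_count_n R hsymm J hJ H S Q hSS x hxS s σ hσ0 hσ m D N0 (F + 1) b hD
      hm hN0D hull y Ch Fl I r h hc
  obtain ⟨y, Ch, Fl, I, r, h, hFlF, hy1, c1, c2, c3⟩ := cascade_runF R hsymm hirr J hJ S Q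
    (Finset.disjoint_left.2 fun v h1 h2 => Finset.disjoint_left.1 hQH h2 (hSH h1))
    (fun u hu v huv hv => hSS u hu v huv (hSH hv)) x hx1 hxS t0 t1 s ht1 hts hg1 hg2 N0
    (fun u hu => hN0D.trans (hD u hu)) F (by
      intro y Ch Fl I r h hc
      obtain ⟨h1, h2⟩ := hall y Ch Fl I r h hc
      have h3 : 2 * m * (Ch.card + (univ.filter (fun v => v ∉ H ∧ x v ≠ 0)).card) ≤
          2 * m * (b + (univ.filter (fun v => v ∉ H ∧ x v ≠ 0)).card) :=
        Nat.mul_le_mul_left _ (by omega)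
      have h4 : D * Fl.card < D * (F + 1) := by
        calc D * Fl.card ≤ _ := h2
          _ ≤ _ := h3
          _ < _ := hXF
          _ = D * (F + 1) := mul_comm _ _
      have h5 : Fl.card < F + 1 := Nat.lt_of_mul_lt_mul_left h4
      omega)
  obtain ⟨h1, h2⟩ := hall y Ch Fl I r h (Nat.le_succ_of_le hFlF)
  exact ⟨y, Ch, Fl, h.chQ, h.flS, h.off, h.ch, h.fl, c1, c2, c3, ⟨h1, fun h3 => absurd h3 hX⟩, h2⟩

end Pool.Agent.helper14.LE
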