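import Pool.Agent.helper14.LE.State
import Pool.Agent.helper14.LE.RoundG
import Pool.Agent.helper15.Bis.Signs
import Pool.Agent.helper40.Bis.ChooseK

set_option autoImplicit false

/-!
# Exact bisections that are good at all vertices of low degree and of giant degree
-/

namespace Pool.Agent.helper14.LE

open Finset Pool.Agent.helper2.Bis

/-- disjoint sets of the same size -/
theorem exists_family {V : Type} [DecidableEq V] (A : V → Finset V) (M n : ℕ) (H1 : Finset V) :
    H1.card ≤ n → (∀ v ∈ H1, M * n ≤ (A v).card) →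
    ∃ Y : V → Finset V, (∀ v ∈ H1, Y v ⊆ A v ∧ (Y v).card = M) ∧
      ∀ w, ∀ a ∈ H1, ∀ b ∈ H1, w ∈ Y a → w ∈ Y b → a = b := by
  classical
  induction H1 using Finset.induction_on with
  | empty =>
    intro _ _
    exact ⟨fun _ => ∅, by simp, by simp⟩
  | insert a S ha ih =>
    intro hn hA
    rw [Finset.card_insert_of_notMem ha] at hn
    obtain ⟨Y, hY1, hY2⟩ := ih (by omega) (fun v hv => hA v (Finset.mem_insert_of_mem hv))
    set U : Finset V := S.biUnion Y with hU
    have hUc : U.card ≤ S.card * M :=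
      Finset.card_biUnion_le_card_mul _ _ M (fun v hv => (hY1 v hv).2.le)
    have h1 : M ≤ (A a \ U).card := by
      have h2 := Finset.le_card_sdiff U (A a)
      have h3 := hA a (Finset.mem_insert_self _ _)
      have h4 : S.card * M + M ≤ M * n := by
        calc S.card * M + M = M * (S.card + 1) := by ring
          _ ≤ M * n := Nat.mul_le_mul_left _ hn
      omega
    obtain ⟨B, hB1, hB2⟩ := Finset.exists_subset_card_eq h1
    have hBU : ∀ w ∈ B, ∀ v ∈ S, w ∉ Y v := by
      intro w hw v hv hwv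
      exact (Finset.mem_sdiff.1 (hB1 hw)).2 (Finset.mem_biUnion.2 ⟨v, hv, hwv⟩)
    have hne : ∀ v ∈ S, v ≠ a := fun v hv h => ha (h ▸ hv)
    refine ⟨fun v => if v = a then B else Y v, ?_, ?_⟩
    · intro v hv
      rcases Finset.mem_insert.1 hv with rfl | hv
      · simp only [if_true]
        exact ⟨hB1.trans Finset.sdiff_subset, hB2⟩
      · simp only [if_neg (hne v hv)]
        exact hY1 v hv
    · intro w x hx y hy hwx hwy
      rcases Finset.mem_insert.1 hx with hx' | hx'
      · rcases Finset.mem_insert.1 hy with hy' | hy'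
        · rw [hx', hy']
        · exfalso
          simp only [hx', if_true] at hwx
          simp only [if_neg (hne y hy')] at hwy
          exact hBU w hwx y hy' hwy
      · rcases Finset.mem_insert.1 hy with hy' | hy'
        · exfalso
          simp only [hy', if_true] at hwy
          simp only [if_neg (hne x hx')] at hwx
          exact hBU w hwy x hx' hwx
        · simp only [if_neg (hne x hx')] at hwx
          simp only [if_neg (hne y hy')] at hwy
          exact hY2 w x hx' y hy' hwx hwy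

theorem core_g (c L : ℝ) (hc : 0 < c) (hc8 : c ≤ 1 / 8) (hL : 0 ≤ L) (m k : ℕ) (hm1 : 1 ≤ m)
    (hm4 : 4 / c ^ 2 ≤ (m : ℝ)) (hEL : 11 * (m : ℝ) ^ 2 * Real.exp L ≤ Real.exp (c ^ 2 / 8 * m))
    (hkm : (k : ℝ) ≤ (1 / 2 - 3 * c) * m)
    (V : Type) [Fintype V] (P R : V → V → Prop) (hRP : ∀ u v, R u v → P u v)
    (hsymm : ∀ u v, R u v → R v u) (hirr : ∀ v, ¬ R v v)
    (hdeg : ∀ v, m ≤ dg R v) (hedge : ∀ u v, R u v → dg R u = m ∨ dg R v = m)
    (J : ℝ) (hJ : J = 1 ∨ J = -1) :
    ∃ e : V → ℝ, (∀ v, e v = 1 ∨ e v = -1) ∧ |∑ v, e v| ≤ 1 ∧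
      (∀ v, (dg R v ≤ ⌊Real.exp (c ^ 2 / 8 * m)⌋₊ ∨
          Real.exp (-L) * Fintype.card V ≤ (dg P v : ℝ)) →
        k ≤ ((nb P v).filter (fun w => J * e v * e w = 1)).card) ∧
      ⌊Real.exp (c ^ 2 / 8 * m)⌋₊ *
        Set.ncard {v : V | ⌊Real.exp (c ^ 2 / 8 * m)⌋₊ < dg R v} ≤ m * Fintype.card V := by
  classical
  have hm1R : (1 : ℝ) ≤ m := by exact_mod_cast hm1
  have hc2pos : 0 < c ^ 2 := by positivity
  have hc64 : c ^ 2 ≤ 1 / 64 := by nlinarith
  have hcm : 4 ≤ c ^ 2 * m := by
    rw [div_le_iff₀ hc2pos] at hm4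
    linarith
  have hm256 : (256 : ℝ) ≤ m := by nlinarith
  have hm8 : 8 ≤ m := by
    have : (8 : ℝ) ≤ m := by linarith
    exact_mod_cast this
  set E : ℝ := Real.exp (c ^ 2 / 8 * m) with hEdef
  have hE0 : 0 < E := Real.exp_pos _
  have hL1 : 1 ≤ Real.exp L := Real.one_le_exp hL
  have hEm2 : 11 * (m : ℝ) ^ 2 ≤ E := by
    have : 11 * (m : ℝ) ^ 2 * 1 ≤ 11 * (m : ℝ) ^ 2 * Real.exp L :=
      mul_le_mul_of_nonneg_left hL1 (by positivity)
    linarith
  have hE1 : 1 ≤ E := by nlinarith
  have hE2 : Real.exp (c ^ 2 / 4 * m) = E ^ 2 := by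
    rw [hEdef, ← Real.exp_nat_mul]
    congr 1
    push_cast
    ring
  have hE4' : Real.exp (-(c ^ 2 * m / 2)) * E ^ 4 = 1 := by
    rw [hEdef, ← Real.exp_nat_mul, ← Real.exp_add]
    rw [← Real.exp_zero]
    congr 1
    push_cast
    ring
  have hE4 : Real.exp (-(c ^ 2 / 4 * m)) ≤ c ^ 2 / 12 := by
    rw [Real.exp_neg, hE2, inv_le_iff_one_le_mul₀ (by positivity)]
    have h1 : (121 : ℝ) * m ^ 4 ≤ E ^ 2 := by
      have := pow_le_pow_left₀ (by positivity) hEm2 2
      calc (121 : ℝ) * m ^ 4 = (11 * (m : ℝ) ^ 2) ^ 2 := by ring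
        _ ≤ _ := this
    have h2 : (m : ℝ) ≤ (m : ℝ) ^ 4 := by
      calc (m : ℝ) = (m : ℝ) ^ 1 := (pow_one _).symm
        _ ≤ (m : ℝ) ^ 4 := pow_le_pow_right₀ hm1R (by norm_num)
    have h3 : (121 : ℝ) * m ≤ E ^ 2 := by linarith
    calc (1 : ℝ) ≤ 1 / 12 * (121 * (4 : ℝ)) := by norm_num
      _ ≤ 1 / 12 * (121 * (c ^ 2 * m)) := by linarith
      _ = c ^ 2 / 12 * (121 * m) := by ring
      _ ≤ c ^ 2 / 12 * E ^ 2 := mul_le_mul_of_nonneg_left h3 (by positivity)
  have hE8 : (m : ℝ) ≤ E := by nlinarith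
  set D : ℕ := ⌊E⌋₊ with hDdef
  have hmD : m ≤ D := Nat.le_floor hE8
  have hDle' : (D : ℝ) ≤ E := Nat.floor_le hE0.le
  have hDge : E < D + 1 := Nat.lt_floor_add_one _
  have hD1 : (1 : ℝ) ≤ D := by
    have : (m : ℝ) ≤ D := by exact_mod_cast hmD
    linarith
  have hDhalf : E / 2 ≤ D := by linarith
  have hD2m : 2 * m ≤ D := by
    apply Nat.le_floor
    push_cast
    nlinarith
  have hD2 : (D : ℝ) ^ 2 ≤ Real.exp (c ^ 2 / 4 * m) := by
    rw [hE2]
    exact pow_le_pow_left₀ (Nat.cast_nonneg _) hDle' 2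
  have hexp1 : 1 ≤ Real.exp (c ^ 2 / 4 * m) := Real.one_le_exp (by positivity)
  have h2k : 2 * k ≤ m := by
    have : 2 * (k : ℝ) ≤ m := by nlinarith
    exact_mod_cast this
  -- the trivial case
  by_cases hV : IsEmpty V
  · refine ⟨fun _ => 1, fun _ => Or.inl rfl, ?_, fun v => (hV.false v).elim, ?_⟩
    · simp
    · have : {v : V | D < dg R v} = ∅ := by
        ext v
        exact (hV.false v).elim
      rw [this]
      simp
  rw [not_isEmpty_iff] at hV
  obtain ⟨v0⟩ := hV
  -- hubs
  set H : Finset V := univ.filter (fun v => D < dg R v) with hH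
  have hHm : ∀ h ∈ H, ∀ v, R h v → v ∉ H ∧ dg R v = m := by
    intro h hh v hv
    have h1 : D < dg R h := (mem_filter.mp hh).2
    have h2 : dg R v = m := by
      rcases hedge h v hv with h3 | h3
      · omega
      · exact h3
    refine ⟨?_, h2⟩
    intro h3
    have := (mem_filter.mp h3).2
    omega
  have hDle : ∀ v, v ∉ H → dg R v ≤ D := by
    intro v hv
    by_contra hcon
    exact hv (mem_filter.mpr ⟨mem_univ _, by omega⟩)
  set T : Finset V := univ.filter (fun v => v ∉ H) with hT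
  have hTH : T.card + H.card = Fintype.card V := by
    have := Finset.card_filter_add_card_filter_not (s := (univ : Finset V)) (fun v => v ∉ H)
    have e : univ.filter (fun v => ¬ (v ∉ H)) = H := by ext v; simp
    rw [e] at this
    exact this
  -- number of hubs
  have hHT : D * H.card ≤ m * T.card := by
    have h1 : H.card * D ≤ ∑ h ∈ H, dg R h := by
      rw [← smul_eq_mul]
      exact Finset.card_nsmul_le_sum _ _ _ (fun h hh => (mem_filter.mp hh).2.le)
    have h2 : ∑ h ∈ H, dg R h = ∑ v ∈ T, (nb R v ∩ H).card := by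
      have e1 : ∀ h ∈ H, dg R h = ∑ v ∈ T, if R h v then 1 else 0 := by
        intro h hh
        rw [Finset.sum_boole]
        unfold dg
        simp only [Nat.cast_id]
        congr 1
        ext v
        simp only [mem_nb, hT, mem_filter, mem_univ, true_and]
        exact ⟨fun hv => ⟨(hHm h hh v hv).1, hv⟩, fun hv => hv.2⟩
      have e2 : ∀ v ∈ T, (nb R v ∩ H).card = ∑ h ∈ H, if R h v then 1 else 0 := by
        intro v _
        rw [Finset.sum_boole]
        simp only [Nat.cast_id]
        congr 1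
        ext h
        simp only [mem_inter, mem_nb, mem_filter]
        exact ⟨fun hh => ⟨hh.2, hsymm _ _ hh.1⟩, fun hh => ⟨hsymm _ _ hh.2, hh.1⟩⟩
      rw [Finset.sum_congr rfl e1, Finset.sum_congr rfl e2, Finset.sum_comm]
    have h3 : ∑ v ∈ T, (nb R v ∩ H).card ≤ ∑ _v ∈ T, m := by
      apply Finset.sum_le_sum
      intro v _
      by_cases hne : (nb R v ∩ H).Nonempty
      · obtain ⟨h, hh⟩ := hne
        have hh' := mem_inter.mp hh
        have hdm : dg R v = m := (hHm h hh'.2 v (hsymm _ _ (mem_nb.mp hh'.1))).2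
        rw [← hdm]
        exact Finset.card_le_card Finset.inter_subset_left
      · rw [Finset.not_nonempty_iff_eq_empty.mp hne]
        simp
    rw [Finset.sum_const, smul_eq_mul] at h3
    calc D * H.card = H.card * D := mul_comm _ _
      _ ≤ _ := h1
      _ = _ := h2
      _ ≤ _ := h3
      _ = m * T.card := mul_comm _ _
  have hHT4 : H.card ≤ T.card := by
    have h1 : m * H.card ≤ m * T.card := (Nat.mul_le_mul_right _ hmD).trans hHT
    exact Nat.le_of_mul_le_mul_left h1 (by omega)
  have hVm : m + 1 ≤ Fintype.card V := by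
    have h1 := hdeg v0
    have h2 : (insert v0 (nb R v0)).card ≤ Fintype.card V := Finset.card_le_univ _
    rw [Finset.card_insert_of_notMem (fun h => hirr v0 (mem_nb.mp h))] at h2
    unfold dg at h1
    omega
  have hT4 : 4 ≤ T.card := by omega
  -- random signs on the hubs
  have hB : ∀ v : V, nb R v ∩ H ⊆ H := fun v => Finset.inter_subset_right
  have hBc : ∀ v : V, (nb R v ∩ H).card ≤ m := by
    intro v
    by_cases hne : (nb R v ∩ H).Nonempty
    · obtain ⟨h, hh⟩ := hne
      have hh' := mem_inter.mp hh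
      have hdm : dg R v = m := (hHm h hh'.2 v (hsymm _ _ (mem_nb.mp hh'.1))).2
      rw [← hdm]
      exact Finset.card_le_card Finset.inter_subset_left
    · rw [Finset.not_nonempty_iff_eq_empty.mp hne]
      simp
  obtain ⟨s0, hs0, hs0sum, hs0W⟩ := signs H (fun v : V => nb R v ∩ H) hB m (by omega) hBc
    (c * m) (by positivity)
  set W : ℕ := Set.ncard {v : V | c * m < |∑ h ∈ nb R v ∩ H, s0 h|} with hWdef
  have hW : (W : ℝ) ≤ 4 * Real.exp (-(c ^ 2 * m / 2)) * T.card := by
    have h3 : -((c * m) ^ 2) / (2 * m) = -(c ^ 2 * m / 2) := by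
      field_simp
    rw [h3] at hs0W
    have h4 : (Fintype.card V : ℝ) ≤ 2 * T.card := by
      have : Fintype.card V ≤ 2 * T.card := by omega
      exact_mod_cast this
    calc (W : ℝ) ≤ 2 * Real.exp (-(c ^ 2 * m / 2)) * Fintype.card V := hs0W
      _ ≤ 2 * Real.exp (-(c ^ 2 * m / 2)) * (2 * T.card) :=
          mul_le_mul_of_nonneg_left h4 (by positivity)
      _ = _ := by ring
  obtain ⟨s, q, hs, hss0, hq1, hq0, hx0, hx1, hn1⟩ := state R hsymm H J hJ m k c hc hc8
    (by omega) hkm hdeg s0 hs0 hBc W (le_refl _)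
  have hsH : ∀ h ∈ H, s h ≠ 0 := by
    intro h hh
    rw [hss0 h hh]
    rcases hs0 h with h' | h' <;> rw [h'] <;> norm_num
  -- finite sets
  set F : Finset V := univ.filter (fun v => v ∉ H ∧ q v ≠ 0) with hF
  set F0 : Finset V := univ.filter (fun v => v ∉ H ∧ s v ≠ 0) with hF0
  set F1 : Finset V := univ.filter (fun v => v ∉ H ∧ s v = 0 ∧ q v ≠ 0) with hF1
  set Z : Finset V := univ.filter (fun v => v ∉ H ∧ s v = 0 ∧ q v = 0) with hZ
  have eF : Set.ncard {v : V | v ∉ H ∧ q v ≠ 0} = F.card := by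
    rw [← Set.ncard_coe_finset]
    congr 1
    ext v
    simp [hF]
  have eF0 : Set.ncard {v : V | v ∉ H ∧ s v ≠ 0} = F0.card := by
    rw [← Set.ncard_coe_finset]
    congr 1
    ext v
    simp [hF0]
  have eF1 : Set.ncard {v : V | v ∉ H ∧ s v = 0 ∧ q v ≠ 0} = F1.card := by
    rw [← Set.ncard_coe_finset]
    congr 1
    ext v
    simp [hF1]
  rw [eF] at hn1
  have hsq : ∀ v, s v ≠ 0 → q v ≠ 0 := by
    intro v hv
    rw [hq1 v hv]
    exact div_ne_zero hv two_ne_zero
  have hF01 : F0.card + F1.card = F.card := by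
    rw [← Finset.card_union_of_disjoint]
    · congr 1
      ext v
      simp only [hF, hF0, hF1, mem_union, mem_filter, mem_univ, true_and]
      constructor
      · rintro (⟨h1, h2⟩ | ⟨h1, _, h3⟩)
        · exact ⟨h1, hsq v h2⟩
        · exact ⟨h1, h3⟩
      · rintro ⟨h1, h2⟩
        by_cases h3 : s v = 0
        · exact Or.inr ⟨h1, h3, h2⟩
        · exact Or.inl ⟨h1, h3⟩
    · rw [Finset.disjoint_left]
      intro v hv hv'
      simp only [hF0, hF1, mem_filter, mem_univ, true_and] at hv hv'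
      exact hv.2 hv'.2.1
  have hTZ : T.card ≤ Z.card + F.card := by
    have hsub : T ⊆ Z ∪ F := by
      intro v hv
      have hvH : v ∉ H := (mem_filter.mp hv).2
      simp only [hZ, hF, mem_union, mem_filter, mem_univ, true_and]
      by_cases h : q v = 0
      · left
        refine ⟨hvH, ?_, h⟩
        by_contra h'
        exact hsq v h' h
      · right
        exact ⟨hvH, h⟩
    exact (Finset.card_le_card hsub).trans (Finset.card_union_le _ _)
  -- size of the correction set
  obtain ⟨N, hN1, hN2, hNpar⟩ : ∃ N : ℕ, F.card + 1 ≤ N ∧ N ≤ F.card + 2 ∧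
      (N ≤ Z.card → Even (Z.card - N)) := by
    rcases Nat.even_or_odd (Z.card - (F.card + 1)) with h | h
    · exact ⟨F.card + 1, le_refl _, by omega, fun _ => h⟩
    · refine ⟨F.card + 2, by omega, le_refl _, fun hle => ?_⟩
      obtain ⟨r, hr⟩ := h
      exact ⟨r, by omega⟩
  have hdisj : Disjoint H Z := by
    rw [Finset.disjoint_left]
    intro v hv hvZ
    exact (mem_filter.mp hvZ).2.1 hv
  have hEE : Real.exp (-(c ^ 2 * m / 2)) * Real.exp (c ^ 2 / 4 * m) ≤ c ^ 2 / 12 := by
    rw [← Real.exp_add]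
    have : -(c ^ 2 * m / 2) + c ^ 2 / 4 * m = -(c ^ 2 / 4 * m) := by ring
    rw [this]
    exact hE4
  obtain ⟨K, hKZ, hKc, hK2⟩ : ∃ K : Finset V, K ⊆ Z ∧ K.card = N ∧
      ∀ v, v ∉ H → (nb R v ∩ K).card ≤ 2 := by
    by_cases hW0 : W = 0
    · have hF0' : F.card = 0 := by
        rw [hW0] at hn1
        have h1 : (F.card : ℝ) ≤ 0 := by
          by_contra h
          rw [not_le] at h
          have : 0 < 2 * c ^ 2 * (F.card : ℝ) := by positivity
          simp only [Nat.cast_zero] at hn1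
          linarith
        exact_mod_cast le_antisymm h1 (Nat.cast_nonneg _)
      have hNZ : N ≤ Z.card := by omega
      obtain ⟨K, hKZ, hKc⟩ := Finset.exists_subset_card_eq hNZ
      refine ⟨K, hKZ, hKc, fun v _ => ?_⟩
      refine (Finset.card_le_card Finset.inter_subset_right).trans ?_
      omega
    · have hW1 : (1 : ℝ) ≤ W := by exact_mod_cast Nat.one_le_iff_ne_zero.mpr hW0
      have hc2 : c ^ 2 ≤ 1 / 64 := by nlinarith
      have hNR : (N : ℝ) * c ^ 2 ≤ W := by
        have h1 : (N : ℝ) ≤ F.card + 2 := by exact_mod_cast hN2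
        have h2 : (N : ℝ) * c ^ 2 ≤ (F.card + 2) * c ^ 2 :=
          mul_le_mul_of_nonneg_right h1 (by positivity)
        nlinarith
      have hDR : (D : ℝ) ^ 2 + 2 ≤ 3 * Real.exp (c ^ 2 / 4 * m) := by linarith
      have hND : (N : ℝ) * ((D : ℝ) ^ 2 + 2) ≤ T.card := by
        have hT0 : (0 : ℝ) ≤ T.card := Nat.cast_nonneg _
        have h1 : (N : ℝ) * c ^ 2 * ((D : ℝ) ^ 2 + 2) ≤ T.card * c ^ 2 := by
          calc (N : ℝ) * c ^ 2 * ((D : ℝ) ^ 2 + 2)
              ≤ W * (3 * Real.exp (c ^ 2 / 4 * m)) :=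
                mul_le_mul hNR hDR (by positivity) (by positivity)
            _ ≤ (4 * Real.exp (-(c ^ 2 * m / 2)) * T.card) * (3 * Real.exp (c ^ 2 / 4 * m)) :=
                mul_le_mul_of_nonneg_right hW (by positivity)
            _ = 12 * (Real.exp (-(c ^ 2 * m / 2)) * Real.exp (c ^ 2 / 4 * m)) * T.card := by ring
            _ ≤ 12 * (c ^ 2 / 12) * T.card := by
                apply mul_le_mul_of_nonneg_right _ hT0
                exact mul_le_mul_of_nonneg_left hEE (by norm_num)
            _ = T.card * c ^ 2 := by ring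
        have h2 : (N : ℝ) * ((D : ℝ) ^ 2 + 2) * c ^ 2 ≤ T.card * c ^ 2 := by
          calc (N : ℝ) * ((D : ℝ) ^ 2 + 2) * c ^ 2 = (N : ℝ) * c ^ 2 * ((D : ℝ) ^ 2 + 2) := by ring
            _ ≤ _ := h1
        exact le_of_mul_le_mul_right h2 (by positivity)
      have hND' : N * (D ^ 2 + 2) ≤ T.card := by exact_mod_cast hND
      have h5 : N * (D ^ 2 + 2) = N * (D ^ 2 + 1) + N := by ring
      have hNZ : N * (D ^ 2 + 1) ≤ Z.card := by omega
      obtain ⟨K, hKZ, hKc, hK⟩ := Pool.Agent.helper40.Bis.greedy R hsymm H Z Z hdisj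
        (Finset.Subset.refl _) D hDle N hNZ N le_rfl
      refine ⟨K, hKZ, hKc, fun v hv => ?_⟩
      have : (nb R v ∩ K).card ≤ 1 := by
        rw [Finset.card_le_one]
        intro a ha b hb
        rw [mem_inter, mem_nb] at ha hb
        exact hK v hv a ha.2 b hb.2 ha.1 hb.1
      omega
  have hNZ : N ≤ Z.card := by
    rw [← hKc]
    exact Finset.card_le_card hKZ
  -- the served hubs
  set H1 : Finset V := H.filter (fun v => Real.exp (-L) * Fintype.card V ≤ (dg P v : ℝ)) with hH1
  have hn0 : (0 : ℝ) ≤ Fintype.card V := Nat.cast_nonneg _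
  have hTn : (T.card : ℝ) ≤ Fintype.card V := by exact_mod_cast (by omega : T.card ≤ _)
  have hHn : (2 * (m : ℝ) + 1) * H.card * E ≤ 6 * (m : ℝ) ^ 2 * Fintype.card V := by
    have h1 : (D : ℝ) * H.card ≤ m * T.card := by exact_mod_cast hHT
    have h2 : E / 2 * H.card ≤ D * H.card := mul_le_mul_of_nonneg_right hDhalf (Nat.cast_nonneg _)
    have h3 : (m : ℝ) * T.card ≤ m * Fintype.card V :=
      mul_le_mul_of_nonneg_left hTn (by linarith)
    have h4 : E * H.card ≤ 2 * (m * Fintype.card V) := by linarith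
    calc (2 * (m : ℝ) + 1) * H.card * E = (2 * (m : ℝ) + 1) * (E * H.card) := by ring
      _ ≤ (3 * m) * (2 * (m * Fintype.card V)) :=
          mul_le_mul (by linarith) h4 (by positivity) (by positivity)
      _ = _ := by ring
  have hFn : 2 * (F.card : ℝ) * E ≤ m * Fintype.card V := by
    have h1 : 2 * c ^ 2 * (F.card : ℝ) ≤
        4 * Real.exp (-(c ^ 2 * m / 2)) * Fintype.card V := by
      refine hn1.trans (hW.trans ?_)
      exact mul_le_mul_of_nonneg_left hTn (by positivity)
    have hx0 : 0 < Real.exp (-(c ^ 2 * m / 2)) := Real.exp_pos _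
    have h2 : Real.exp (-(c ^ 2 * m / 2)) * E ≤ 1 := by
      rw [← hE4']
      apply mul_le_mul_of_nonneg_left _ hx0.le
      calc E = E ^ 1 := (pow_one _).symm
        _ ≤ E ^ 4 := pow_le_pow_right₀ hE1 (by norm_num)
    have h3 : c ^ 2 * (2 * (F.card : ℝ) * E) ≤ 4 * Fintype.card V := by
      calc c ^ 2 * (2 * (F.card : ℝ) * E) = (2 * c ^ 2 * (F.card : ℝ)) * E := by ring
        _ ≤ (4 * Real.exp (-(c ^ 2 * m / 2)) * Fintype.card V) * E :=
            mul_le_mul_of_nonneg_right h1 hE0.le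
        _ = 4 * (Real.exp (-(c ^ 2 * m / 2)) * E) * Fintype.card V := by ring
        _ ≤ 4 * 1 * Fintype.card V := by
            apply mul_le_mul_of_nonneg_right _ hn0
            exact mul_le_mul_of_nonneg_left h2 (by norm_num)
        _ = _ := by ring
    have h4 : c ^ 2 * (2 * (F.card : ℝ) * E) ≤ c ^ 2 * (m * Fintype.card V) := by
      refine h3.trans ?_
      calc 4 * (Fintype.card V : ℝ) ≤ (c ^ 2 * m) * Fintype.card V :=
            mul_le_mul_of_nonneg_right hcm hn0
        _ = _ := by ring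
    exact le_of_mul_le_mul_left h4 hc2pos
  have hserve : ∀ v ∈ H1, 2 * m * H1.card ≤ ((nb P v ∩ Z) \ K).card := by
    intro v hv
    have hvH := (Finset.mem_filter.1 hv).1
    have hvP := (Finset.mem_filter.1 hv).2
    have hDv : D < dg R v := (Finset.mem_filter.1 hvH).2
    have hDn : D + 1 ≤ Fintype.card V := by
      have : dg R v ≤ Fintype.card V := Finset.card_le_univ _
      omega
    have hEn : E ≤ Fintype.card V := by
      have : ((D + 1 : ℕ) : ℝ) ≤ Fintype.card V := by exact_mod_cast hDn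
      push_cast at this
      linarith
    have h1 : dg P v ≤ ((nb P v ∩ Z) \ K).card + H.card + F.card + N := by
      have hsub : nb P v ⊆ (((nb P v ∩ Z) \ K) ∪ H) ∪ (F ∪ K) := by
        intro w hw
        by_cases hwH : w ∈ H
        · exact Finset.mem_union_left _ (Finset.mem_union_right _ hwH)
        by_cases hwF : w ∈ F
        · exact Finset.mem_union_right _ (Finset.mem_union_left _ hwF)
        by_cases hwK : w ∈ K
        · exact Finset.mem_union_right _ (Finset.mem_union_right _ hwK)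
        have hwZ : w ∈ Z := by
          simp only [hF, mem_filter, mem_univ, true_and, not_and, not_not] at hwF
          have hq : q w = 0 := hwF hwH
          simp only [hZ, mem_filter, mem_univ, true_and]
          refine ⟨hwH, ?_, hq⟩
          by_contra h'
          exact hsq w h' hq
        exact Finset.mem_union_left _ (Finset.mem_union_left _
          (Finset.mem_sdiff.2 ⟨Finset.mem_inter.2 ⟨hw, hwZ⟩, hwK⟩))
      have h2 := Finset.card_le_card hsub
      have h3 := Finset.card_union_le (((nb P v ∩ Z) \ K) ∪ H) (F ∪ K)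
      have h4 := Finset.card_union_le ((nb P v ∩ Z) \ K) H
      have h5 := Finset.card_union_le F K
      unfold dg
      omega
    have h2 : H1.card ≤ H.card := Finset.card_le_card (Finset.filter_subset _ _)
    have h3 : (2 * m * H.card + H.card + F.card + N : ℝ) ≤ dg P v := by
      refine le_trans ?_ hvP
      have hNR : (N : ℝ) ≤ F.card + 2 := by exact_mod_cast hN2
      have e1 : (2 * m * H.card + H.card + F.card + N : ℝ) * E ≤
          (11 * (m : ℝ) ^ 2) * Fintype.card V := by
        have e2 : (2 : ℝ) * E ≤ 2 * Fintype.card V := by linarith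
        have e3 : (N : ℝ) * E ≤ (F.card + 2) * E := mul_le_mul_of_nonneg_right hNR hE0.le
        have e4 : (m : ℝ) ≤ (m : ℝ) ^ 2 := by nlinarith
        have e5 : (m : ℝ) * Fintype.card V ≤ (m : ℝ) ^ 2 * Fintype.card V :=
          mul_le_mul_of_nonneg_right e4 hn0
        have e6 : (1 : ℝ) * Fintype.card V ≤ (m : ℝ) ^ 2 * Fintype.card V :=
          mul_le_mul_of_nonneg_right (by nlinarith) hn0
        nlinarith
      have e7 : (11 * (m : ℝ) ^ 2) * Fintype.card V ≤ Real.exp (-L) * E * Fintype.card V := by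
        apply mul_le_mul_of_nonneg_right _ hn0
        have e8 : Real.exp (-L) * (11 * (m : ℝ) ^ 2 * Real.exp L) ≤ Real.exp (-L) * E :=
          mul_le_mul_of_nonneg_left hEL (Real.exp_pos _).le
        have e9 : Real.exp (-L) * Real.exp L = 1 := by
          rw [← Real.exp_add]
          simp
        calc 11 * (m : ℝ) ^ 2 = 11 * (m : ℝ) ^ 2 * (Real.exp (-L) * Real.exp L) := by
              rw [e9, mul_one]
          _ = Real.exp (-L) * (11 * (m : ℝ) ^ 2 * Real.exp L) := by ring
          _ ≤ _ := e8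
      have e10 : (2 * m * H.card + H.card + F.card + N : ℝ) * E ≤
          (Real.exp (-L) * Fintype.card V) * E := by
        calc _ ≤ _ := e1
          _ ≤ _ := e7
          _ = _ := by ring
      exact le_of_mul_le_mul_right e10 hE0
    have h4 : 2 * m * H.card + H.card + F.card + N ≤ dg P v := by exact_mod_cast h3
    have h5 : 2 * m * H1.card ≤ 2 * m * H.card := Nat.mul_le_mul_left _ h2
    omega
  obtain ⟨Y, hY1, hY2⟩ := exists_family (fun v => (nb P v ∩ Z) \ K) (2 * m) H1.card H1 le_rfl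
    hserve
  obtain ⟨e, he1, he2, he3, he4⟩ := rounding_g R hsymm H J hJ m k D c hc hc8 hm4 hdeg hDle
    s q hs hsH hq1 hq0 hx0 hx1 K
    (fun v hv => (mem_filter.mp (hKZ hv)).2) hK2
    (by
      have e : Set.ncard {v : V | v ∉ H ∧ s v = 0 ∧ q v = 0 ∧ v ∉ K} = Z.card - N := by
        have : {v : V | v ∉ H ∧ s v = 0 ∧ q v = 0 ∧ v ∉ K} = ((Z \ K : Finset V) : Set V) := by
          ext v
          simp [hZ]
          tauto
        rw [this, Set.ncard_coe_finset, Finset.card_sdiff_of_subset hKZ, hKc]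
      rw [e]
      exact hNpar hNZ)
    (by
      rw [eF0, eF1, hKc]
      have h1 : |∑ h ∈ H, s h| ≤ 1 := by
        rw [Finset.sum_congr rfl hss0]
        exact hs0sum
      have h2 : (F0.card : ℝ) + F1.card = F.card := by exact_mod_cast hF01
      have h3 : (F.card : ℝ) + 1 ≤ N := by exact_mod_cast hN1
      linarith)
    H1 (Finset.filter_subset _ _) Y hD2m h2k
    (by
      intro h hh
      refine ⟨(hY1 h hh).2, fun w hw => ?_⟩
      have h1 := Finset.mem_sdiff.1 ((hY1 h hh).1 hw)
      have h2 := (Finset.mem_filter.1 (Finset.mem_inter.1 h1.1).2).2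
      exact ⟨h2.1, h2.2.1, h2.2.2, h1.2⟩)
    hY2
    (2 * Real.exp (-(c ^ 2 * m / 2))) (le_refl _)
    (by
      have hDR : 2 * (D : ℝ) * (D + 1) + 1 ≤ 5 * Real.exp (c ^ 2 / 4 * m) := by
        have h1 : (D : ℝ) ≤ (D : ℝ) ^ 2 := by nlinarith
        have h2 : (1 : ℝ) ≤ (D : ℝ) ^ 2 := by nlinarith
        nlinarith
      calc 4 * (2 * Real.exp (-(c ^ 2 * m / 2))) * (2 * (D : ℝ) * (D + 1) + 1)
          ≤ 4 * (2 * Real.exp (-(c ^ 2 * m / 2))) * (5 * Real.exp (c ^ 2 / 4 * m)) :=
            mul_le_mul_of_nonneg_left hDR (by positivity)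
        _ = 40 * (Real.exp (-(c ^ 2 * m / 2)) * Real.exp (c ^ 2 / 4 * m)) := by ring
        _ ≤ 40 * (c ^ 2 / 12) := mul_le_mul_of_nonneg_left hEE (by norm_num)
        _ ≤ 1 := by linarith)
  refine ⟨e, he1, he2, ?_, ?_⟩
  · intro v hv
    by_cases hvH : v ∈ H
    · have hvH1 : v ∈ H1 := by
        rcases hv with hv | hv
        · have := (mem_filter.mp hvH).2
          omega
        · exact Finset.mem_filter.2 ⟨hvH, hv⟩
      refine (he4 v hvH1).trans (Finset.card_le_card ?_)
      apply Finset.filter_subset_filter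
      intro w hw
      exact (Finset.mem_inter.1 (Finset.mem_sdiff.1 ((hY1 v hvH1).1 hw)).1).1
    · refine (he3 v hvH).trans (Finset.card_le_card ?_)
      apply Finset.filter_subset_filter
      intro w hw
      rw [mem_nb] at hw ⊢
      exact hRP v w hw
  · have eH : Set.ncard {v : V | D < dg R v} = H.card := by
      rw [← Set.ncard_coe_finset]
      congr 1
      ext v
      simp [hH]
    rw [eH]
    exact hHT.trans (Nat.mul_le_mul_left _ (by omega))

end Pool.Agent.helper14.LE
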