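import Pool.Agent.helper71.Bis.Rounding

set_option autoImplicit false

/-!
# Rounding a fractional state; hubs with a set of random neighbours are served
(variant of the rounding theorem of helper71)
-/

namespace Pool.Agent.helper14.LE

open Finset Pool.Agent.helper2.Bis Pool.Agent.helper71.Bis

theorem rounding_h {V : Type} [Fintype V] [DecidableEq V] (R : V → V → Prop)
    (hsymm : ∀ u v, R u v → R v u)
    (H : Finset V) (J : ℝ) (hJ : J = 1 ∨ J = -1) (m k D : ℕ) (c : ℝ) (hc : 0 < c) (hc8 : c ≤ 1 / 8)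
    (hm : 4 / c ^ 2 ≤ m) (hdeg : ∀ v, m ≤ dg R v)
    (hD : ∀ v, v ∉ H → dg R v ≤ D)
    (s q : V → ℝ) (hs : ∀ v, s v = 1 ∨ s v = -1 ∨ s v = 0) (hsH : ∀ h ∈ H, s h ≠ 0)
    (hq1 : ∀ v, s v ≠ 0 → q v = s v / 2) (hq0 : ∀ v, s v = 0 → |q v| ≤ 1 / 2)
    (hx0 : ∀ v, v ∉ H → s v = 0 → |J * ∑ w ∈ nb R v, q w| ≤ dg R v / 2 - k - c * dg R v)
    (hx1 : ∀ v, v ∉ H → s v ≠ 0 →
      -((dg R v : ℝ) / 2 - k - c * dg R v) ≤ s v * (J * ∑ w ∈ nb R v, q w))
    (K : Finset V) (hK : ∀ v ∈ K, v ∉ H ∧ s v = 0 ∧ q v = 0)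
    (hK2 : ∀ v, v ∉ H → (nb R v ∩ K).card ≤ 2)
    (heven : Even (Set.ncard {v : V | v ∉ H ∧ s v = 0 ∧ q v = 0 ∧ v ∉ K}))
    (hsum : |∑ h ∈ H, s h| + (Set.ncard {v : V | v ∉ H ∧ s v ≠ 0} : ℝ)
      + (Set.ncard {v : V | v ∉ H ∧ s v = 0 ∧ q v ≠ 0} : ℝ) ≤ K.card)
    (H1 : Finset V) (hH1 : H1 ⊆ H) (Y : V → Finset V) (hmD : 2 * m ≤ D) (h2k : 2 * k ≤ m)
    (hY : ∀ h ∈ H1, (Y h).card = 2 * m ∧ (∀ w ∈ Y h, s w = 0 ∧ w ∉ K) ∧
      0 ≤ J * s h * ∑ w ∈ Y h, q w)
    (hYd : ∀ w, s w = 0 → (H1.filter (fun h => w ∈ Y h)).card ≤ D + 1)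
    (P0 : ℝ) (hP1 : 2 * Real.exp (-(c ^ 2 * m / 2)) ≤ P0)
    (hP : 4 * P0 * (2 * (D : ℝ) * (2 * D + 1) + 1) ≤ 1) :
    ∃ e : V → ℝ, (∀ v, e v = 1 ∨ e v = -1) ∧ |∑ v, e v| ≤ 1 ∧ (∀ v, s v ≠ 0 → e v = s v) ∧
      (∀ v, v ∉ H → k ≤ ((nb R v).filter (fun w => J * e v * e w = 1)).card) ∧
      ∀ v ∈ H1, k ≤ ((Y v).filter (fun w => J * e v * e w = 1)).card := by
  classical
  have hJ2 : |J| = 1 := by rcases hJ with rfl | rfl <;> simp
  -- the finite sets
  set Z : Finset V := univ.filter (fun v => v ∉ H ∧ s v = 0 ∧ q v = 0 ∧ v ∉ K) with hZ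
  set F0 : Finset V := univ.filter (fun v => v ∉ H ∧ s v ≠ 0) with hF0
  set F1 : Finset V := univ.filter (fun v => v ∉ H ∧ s v = 0 ∧ q v ≠ 0) with hF1
  have eZ : Set.ncard {v : V | v ∉ H ∧ s v = 0 ∧ q v = 0 ∧ v ∉ K} = Z.card := by
    rw [← Set.ncard_coe_finset]
    congr 1
    ext v
    simp [hZ]
  have eF0 : Set.ncard {v : V | v ∉ H ∧ s v ≠ 0} = F0.card := by
    rw [← Set.ncard_coe_finset]
    congr 1
    ext v
    simp [hF0]
  have eF1 : Set.ncard {v : V | v ∉ H ∧ s v = 0 ∧ q v ≠ 0} = F1.card := by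
    rw [← Set.ncard_coe_finset]
    congr 1
    ext v
    simp [hF1]
  rw [eZ] at heven
  rw [eF0, eF1] at hsum
  obtain ⟨Z1, Z2, φ, hdisj, hZ12, himg, hinj0⟩ := exists_pairing Z heven
  have hZ1Z : ∀ v ∈ Z1, v ∈ Z := fun v hv => by
    rw [← hZ12]
    exact Finset.mem_union_left _ hv
  have hZ2Z : ∀ v ∈ Z2, v ∈ Z := fun v hv => by
    rw [← hZ12]
    exact Finset.mem_union_right _ hv
  have hZmem : ∀ v ∈ Z, v ∉ H ∧ s v = 0 ∧ q v = 0 ∧ v ∉ K := fun v hv => by
    simpa [hZ] using hv
  have hφ : ∀ v ∈ Z2, φ v ∈ Z1 := fun v hv => by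
    rw [← himg]
    exact Finset.mem_image_of_mem _ hv
  set ρ : V → V := fun v => if v ∈ Z2 then φ v else v with hρdef
  have hρ2 : ∀ v, v ∈ Z2 → ρ v = φ v := fun v hv => by simp [hρdef, hv]
  have hρ : ∀ v, v ∉ Z2 → ρ v = v := fun v hv => by simp [hρdef, hv]
  have hinj : Set.InjOn ρ (Z2 : Set V) := by
    intro a ha b hb hab
    have ha' : a ∈ Z2 := by exact_mod_cast ha
    have hb' : b ∈ Z2 := by exact_mod_cast hb
    rw [hρ2 a ha', hρ2 b hb'] at hab
    exact hinj0 ha hb hab
  -- the random vertices and the parameters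
  set Rnd : Finset V := univ.filter (fun v => s v = 0 ∧ v ∉ K) with hRnd
  have hRmem : ∀ v, v ∈ Rnd ↔ s v = 0 ∧ v ∉ K := fun v => by simp [hRnd]
  have hRH : ∀ v ∈ Rnd, v ∉ H := fun v hv hvH => hsH v hvH ((hRmem v).1 hv).1
  set p : V → ℝ := fun i => 1 / 2 + (if s i = 0 then q i else 0) with hpdef
  have hp : ∀ i, 0 ≤ p i ∧ p i ≤ 1 := by
    intro i
    simp only [hpdef]
    split_ifs with h
    · have := abs_le.1 (hq0 i h)
      constructor <;> linarith [this.1, this.2]
    · constructor <;> norm_num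
  -- the sets of relevant neighbours
  set Yv : V → Finset V := fun v => if v ∈ H then (if v ∈ H1 then Y v else ∅) else nb R v
    with hYv
  have hYvH1 : ∀ v, v ∈ H1 → Yv v = Y v := fun v hv => by simp [hYv, hv, hH1 hv]
  have hYvH : ∀ v, v ∈ H → v ∉ H1 → Yv v = ∅ := fun v hv hv1 => by simp [hYv, hv, hv1]
  have hYvT : ∀ v, v ∉ H → Yv v = nb R v := fun v hv => by simp [hYv, hv]
  have hYcard : ∀ v, (Yv v).card ≤ D := by
    intro v
    by_cases hv : v ∈ H
    · by_cases hv1 : v ∈ H1
      · rw [hYvH1 v hv1, (hY v hv1).1]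
        exact hmD
      · rw [hYvH v hv hv1, Finset.card_empty]
        exact Nat.zero_le _
    · rw [hYvT v hv]
      exact hD v hv
  have hm1R : (1 : ℝ) ≤ m := by
    have h1 : (256 : ℝ) ≤ 4 / c ^ 2 := by
      rw [le_div_iff₀ (by positivity)]
      nlinarith
    linarith
  -- the bad events
  set X : V → (V → Bool) → ℝ := fun v ω => dv Z2 ρ p (Yv v ∩ Rnd) ω with hXdef
  set Bad : V → (V → Bool) → Prop := fun v ω =>
    (v ∉ H ∧ c * dg R v - 1 ≤ |X v ω|) ∨ (v ∈ H1 ∧ (m : ℝ) / 2 ≤ -(J * s v) * X v ω) with hBad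
  have hprob : ∀ v, Pr p (Bad v) ≤ P0 := by
    intro v
    by_cases hv : v ∈ H
    · by_cases hv1 : v ∈ H1
      · refine le_trans ?_ hP1
        have hτ : -(J * s v) = 1 ∨ -(J * s v) = -1 := by
          rcases hJ with rfl | rfl <;> rcases hs v with h | h | h
          · right; rw [h]; norm_num
          · left; rw [h]; norm_num
          · exact absurd h (hsH v hv)
          · left; rw [h]; norm_num
          · right; rw [h]; norm_num
          · exact absurd h (hsH v hv)
        have h1 : Pr p (Bad v) ≤ Pr p (fun ω => (m : ℝ) / 2 ≤ -(J * s v) * X v ω) := by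
          refine Pr_mono p hp _ _ fun ω hω => ?_
          rcases hω with h | h
          · exact absurd hv h.1
          · exact h.2
        have h2 := h1.trans (dv_tail Z2 ρ hinj hρ p hp (Yv v ∩ Rnd) _ hτ (1 / 2) (by norm_num)
          (by norm_num) ((m : ℝ) / 2) (2 * m) (by
          have e1 : ((Yv v ∩ Rnd).card : ℝ) ≤ (Yv v).card := by
            exact_mod_cast Finset.card_le_card Finset.inter_subset_left
          rw [hYvH1 v hv1, (hY v hv1).1] at e1
          rw [hYvH1 v hv1]
          push_cast at e1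
          exact e1))
        refine h2.trans ?_
        have h3 : Real.exp (-(1 / 2 * ((m : ℝ) / 2)) + (1 / 2) ^ 2 * (2 * (m : ℝ)) / 4) ≤
            Real.exp (-(c ^ 2 * m / 2)) := by
          apply Real.exp_le_exp.2
          have hc64 : c ^ 2 ≤ 1 / 64 := by nlinarith
          have h4 : c ^ 2 * (m : ℝ) ≤ 1 / 64 * m := mul_le_mul_of_nonneg_right hc64 (by linarith)
          linarith
        have h5 := Real.exp_pos (-(c ^ 2 * m / 2))
        linarith
      · have h0 : Pr p (Bad v) = 0 := by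
          unfold Pr
          apply Finset.sum_eq_zero
          intro ω _
          rw [if_neg]
          rintro (h | h)
          · exact h.1 hv
          · exact hv1 h.1
        rw [h0]
        exact le_trans (by positivity) hP1
    · refine le_trans ?_ hP1
      have h1 : Pr p (Bad v) ≤ Pr p (fun ω => (c * dg R v - 1 ≤ 1 * X v ω) ∨
          (c * dg R v - 1 ≤ -1 * X v ω)) := by
        refine Pr_mono p hp _ _ fun ω hω => ?_
        rcases hω with hω | hω
        · rcases le_abs.1 hω.2 with h2 | h2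
          · left
            linarith
          · right
            linarith
        · exact absurd (hH1 hω.1) hv
      have hdm : (m : ℝ) ≤ dg R v := by exact_mod_cast hdeg v
      have hc2 : 0 < c ^ 2 := by positivity
      have hm' : 4 ≤ c ^ 2 * m := by
        rw [div_le_iff₀ hc2] at hm
        linarith
      have hm'' : 4 ≤ c * m := by
        have : c ^ 2 * m ≤ c * m := by
          have : c * (c * m) ≤ 1 * (c * m) := by
            apply mul_le_mul_of_nonneg_right (by linarith)
            positivity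
          nlinarith
        linarith
      have hcard : ((Yv v ∩ Rnd).card : ℝ) ≤ dg R v := by
        have : (Yv v ∩ Rnd).card ≤ dg R v := by
          refine (Finset.card_le_card Finset.inter_subset_left).trans ?_
          rw [hYvT v hv]
          rfl
        exact_mod_cast this
      have hexp : -(2 * c * (c * dg R v - 1)) + (2 * c) ^ 2 * (dg R v : ℝ) / 4 ≤
          -(c ^ 2 * m / 2) := by
        have e1 : c ^ 2 * m ≤ c ^ 2 * dg R v := mul_le_mul_of_nonneg_left hdm hc2.le
        have e2 : 2 * c ≤ c ^ 2 * m / 2 := by nlinarith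
        nlinarith
      have h2 := fun τ hτ => (dv_tail Z2 ρ hinj hρ p hp (Yv v ∩ Rnd) τ hτ (2 * c) (by linarith)
        (by linarith) (c * dg R v - 1) (dg R v) hcard).trans (Real.exp_le_exp.2 hexp)
      refine h1.trans ((Pr_or_le p hp _ _).trans ?_)
      have h3 := h2 1 (Or.inl rfl)
      have h4 := h2 (-1) (Or.inr rfl)
      simp only [hXdef]
      linarith
  -- the local lemma
  obtain ⟨ω, hω⟩ := lll p hp Bad (fun v => (Yv v ∩ Rnd).image ρ) (by
    intro v ω ω' h
    have e1 : X v ω = X v ω' := by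
      simp only [hXdef, dv]
      refine Finset.sum_congr rfl fun w hw => ?_
      rw [h (ρ w) (Finset.mem_image_of_mem _ hw)]
    simp only [hBad, e1]) P0 hprob (2 * D * (2 * D + 1)) (by
    intro v
    set N : Finset V := ((Yv v ∩ Rnd).image ρ).biUnion (fun i =>
      (Rnd.filter (fun w => ρ w = i)).biUnion (fun w => nb R w ∪ H1.filter (fun h => w ∈ Y h)))
      with hN
    have h1 : {v' : V | ¬ Disjoint ((Yv v ∩ Rnd).image ρ) ((Yv v' ∩ Rnd).image ρ)} ⊆ (N : Set V) := by
      intro v' hv'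
      rw [Set.mem_ofPred_eq, Finset.not_disjoint_iff] at hv'
      obtain ⟨i, hi, hi'⟩ := hv'
      rw [Finset.mem_image] at hi'
      obtain ⟨w, hw, hw'⟩ := hi'
      rw [Finset.mem_inter] at hw
      rw [Finset.mem_coe, hN, Finset.mem_biUnion]
      refine ⟨i, hi, ?_⟩
      rw [Finset.mem_biUnion]
      refine ⟨w, Finset.mem_filter.2 ⟨hw.2, hw'⟩, ?_⟩
      rw [Finset.mem_union]
      by_cases hv' : v' ∈ H
      · by_cases hv1' : v' ∈ H1
        · right
          have := hw.1
          rw [hYvH1 v' hv1'] at this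
          exact Finset.mem_filter.2 ⟨hv1', this⟩
        · have := hw.1
          rw [hYvH v' hv' hv1'] at this
          exact absurd this (Finset.notMem_empty _)
      · left
        have := hw.1
        rw [hYvT v' hv'] at this
        exact mem_nb.2 (hsymm _ _ (mem_nb.1 this))
    refine (Set.ncard_le_ncard h1 (Finset.finite_toSet _)).trans ?_
    rw [Set.ncard_coe_finset]
    have h2 : ∀ i, (Rnd.filter (fun w => ρ w = i)).card ≤ 2 := by
      intro i
      have e1 : ((Rnd.filter (fun w => ρ w = i)).filter (fun w => w ∈ Z2)).card ≤ 1 := by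
        rw [Finset.card_le_one]
        intro a ha b hb
        simp only [Finset.mem_filter] at ha hb
        exact hinj (by exact_mod_cast ha.2) (by exact_mod_cast hb.2) (ha.1.2.trans hb.1.2.symm)
      have e2 : ((Rnd.filter (fun w => ρ w = i)).filter (fun w => ¬ w ∈ Z2)).card ≤ 1 := by
        rw [Finset.card_le_one]
        intro a ha b hb
        simp only [Finset.mem_filter] at ha hb
        rw [← hρ a ha.2, ← hρ b hb.2, ha.1.2, hb.1.2]
      have e3 := Finset.card_filter_add_card_filter_not (s := Rnd.filter (fun w => ρ w = i))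
        (fun w => w ∈ Z2)
      omega
    have h3 : ∀ i ∈ (Yv v ∩ Rnd).image ρ, ((Rnd.filter (fun w => ρ w = i)).biUnion
        (fun w => nb R w ∪ H1.filter (fun h => w ∈ Y h))).card ≤ 2 * (2 * D + 1) := by
      intro i _
      refine (Finset.card_biUnion_le_card_mul _ _ (2 * D + 1) fun w hw => ?_).trans
        (Nat.mul_le_mul_right _ (h2 i))
      refine (Finset.card_union_le _ _).trans ?_
      have e1 : (nb R w).card ≤ D := hD w (hRH w (Finset.mem_filter.1 hw).1)
      have e2 : (H1.filter (fun h => w ∈ Y h)).card ≤ D + 1 :=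
        hYd w ((hRmem w).1 (Finset.mem_filter.1 hw).1).1
      omega
    have h4 : ((Yv v ∩ Rnd).image ρ).card ≤ D :=
      Finset.card_image_le.trans ((Finset.card_le_card Finset.inter_subset_left).trans (hYcard v))
    refine (Finset.card_biUnion_le_card_mul _ _ (2 * (2 * D + 1)) h3).trans ?_
    calc ((Yv v ∩ Rnd).image ρ).card * (2 * (2 * D + 1)) ≤ D * (2 * (2 * D + 1)) :=
          Nat.mul_le_mul_right _ h4
      _ = 2 * D * (2 * D + 1) := by ring) (by
    push_cast
    exact hP)
  -- the signs outside the correction set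
  set e0 : V → ℝ := fun v => if s v = 0 then
    (if v ∈ Z2 then (-1 : ℝ) else 1) * (2 * ind (ω (ρ v)) - 1) else s v with he0
  have hind : ∀ b, ind b = 1 ∨ ind b = 0 := by
    intro b
    unfold ind
    split_ifs
    · exact Or.inl rfl
    · exact Or.inr rfl
  have he0pm : ∀ v, e0 v = 1 ∨ e0 v = -1 := by
    intro v
    simp only [he0]
    split_ifs with h1 h2
    · rcases hind (ω (ρ v)) with h | h <;> rw [h] <;> norm_num
    · rcases hind (ω (ρ v)) with h | h <;> rw [h] <;> norm_num
    · rcases hs v with h | h | h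
      · exact Or.inl h
      · exact Or.inr h
      · exact absurd h h1
  have hdiff : ∀ w ∈ Rnd, e0 w / 2 - q w =
      (if w ∈ Z2 then (-1 : ℝ) else 1) * (ind (ω (ρ w)) - p (ρ w)) := by
    intro w hw
    have hw0 := ((hRmem w).1 hw).1
    simp only [he0, if_pos hw0]
    by_cases h2 : w ∈ Z2
    · have h3 := hZmem w (hZ2Z w h2)
      have h4 := hZmem (φ w) (hZ1Z _ (hφ w h2))
      rw [if_pos h2, hρ2 w h2, h3.2.2.1]
      simp only [hpdef, if_pos h4.2.1, h4.2.2.1]
      ring
    · rw [if_neg h2, hρ w h2]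
      simp only [hpdef, if_pos hw0]
      ring
  -- the sum
  have hsum0 : |∑ v ∈ univ \ K, e0 v| ≤ K.card := by
    have hZ2s : ∑ v ∈ Z, e0 v = 0 := by
      rw [← hZ12, Finset.sum_union hdisj, ← himg, Finset.sum_image hinj0, ← Finset.sum_add_distrib]
      apply Finset.sum_eq_zero
      intro v hv
      have h3 := hZmem v (hZ2Z v hv)
      have h4 := hZmem (φ v) (hZ1Z _ (hφ v hv))
      have h5 : φ v ∉ Z2 := fun h => Finset.disjoint_left.1 hdisj (hφ v hv) h
      simp only [he0, if_pos h3.2.1, if_pos h4.2.1, if_pos hv, if_neg h5, hρ2 v hv, hρ _ h5]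
      ring
    have hdec : univ \ K = ((H ∪ F0) ∪ F1) ∪ Z := by
      ext v
      simp only [Finset.mem_sdiff, Finset.mem_univ, true_and, Finset.mem_union, hF0, hF1, hZ,
        Finset.mem_filter]
      constructor
      · intro hv
        by_cases h1 : v ∈ H
        · exact Or.inl (Or.inl (Or.inl h1))
        · by_cases h2 : s v = 0
          · by_cases h3 : q v = 0
            · exact Or.inr ⟨h1, h2, h3, hv⟩
            · exact Or.inl (Or.inr ⟨h1, h2, h3⟩)
          · exact Or.inl (Or.inl (Or.inr ⟨h1, h2⟩))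
      · rintro (((h | h) | h) | h) hvK
        · exact (hK v hvK).1 h
        · exact h.2 (hK v hvK).2.1
        · exact h.2.2 (hK v hvK).2.2
        · exact h.2.2.2 hvK
    have hd1 : Disjoint H F0 := by
      rw [Finset.disjoint_left]
      intro v h1 h2
      simp only [hF0, Finset.mem_filter] at h2
      exact h2.2.1 h1
    have hd2 : Disjoint (H ∪ F0) F1 := by
      rw [Finset.disjoint_left]
      intro v h1 h2
      simp only [hF1, Finset.mem_filter] at h2
      rcases Finset.mem_union.1 h1 with h1 | h1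
      · exact h2.2.1 h1
      · simp only [hF0, Finset.mem_filter] at h1
        exact h1.2.2 h2.2.2.1
    have hd3 : Disjoint ((H ∪ F0) ∪ F1) Z := by
      rw [Finset.disjoint_left]
      intro v h1 h2
      have h2 := hZmem v h2
      rcases Finset.mem_union.1 h1 with h1 | h1
      · rcases Finset.mem_union.1 h1 with h1 | h1
        · exact h2.1 h1
        · simp only [hF0, Finset.mem_filter] at h1
          exact h1.2.2 h2.2.1
      · simp only [hF1, Finset.mem_filter] at h1
        exact h1.2.2.2 h2.2.2.1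
    rw [hdec, Finset.sum_union hd3, Finset.sum_union hd2, Finset.sum_union hd1, hZ2s, add_zero]
    have hH' : ∑ v ∈ H, e0 v = ∑ v ∈ H, s v :=
      Finset.sum_congr rfl fun v hv => by
        simp only [he0]
        rw [if_neg (hsH v hv)]
    have habs : ∀ A : Finset V, |∑ v ∈ A, e0 v| ≤ A.card := by
      intro A
      refine (Finset.abs_sum_le_sum_abs _ _).trans ?_
      have : ∀ v ∈ A, |e0 v| ≤ 1 := fun v _ => by
        rcases he0pm v with h | h <;> rw [h] <;> norm_num
      refine (Finset.sum_le_card_nsmul _ _ _ this).trans (le_of_eq ?_)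
      simp
    rw [hH']
    have a1 := abs_add_le (∑ v ∈ H, s v + ∑ v ∈ F0, e0 v) (∑ v ∈ F1, e0 v)
    have a2 := abs_add_le (∑ v ∈ H, s v) (∑ v ∈ F0, e0 v)
    have a3 := habs F0
    have a4 := habs F1
    linarith
  obtain ⟨e, heK, hepm, hesum⟩ := exists_correction K e0 (fun v _ => he0pm v) hsum0
  have hcast : ∀ n : ℕ, (k : ℝ) ≤ n → k ≤ n := fun n h => by exact_mod_cast h
  have hes : ∀ w, s w ≠ 0 → e w = s w := by
    intro w hw
    have h1 : w ∉ K := fun h => hw (hK w h).2.1
    rw [heK w h1]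
    simp only [he0]
    rw [if_neg hw]
  refine ⟨e, hepm, hesum, hes, fun v hv => ?_, fun v hv1 => ?_⟩
  swap
  · -- the served hubs
    have hv : v ∈ H := hH1 hv1
    have hJe : J * e v = 1 ∨ J * e v = -1 := by
      rcases hJ with rfl | rfl <;> rcases hepm v with h | h <;> rw [h] <;> norm_num
    apply hcast
    have hbad := hω v
    simp only [hBad, not_or, not_and, not_le] at hbad
    have h1 := hbad.2 hv1
    rw [card_good (Y v) e (J * e v) hJe hepm]
    have hev : e v = s v := hes v (hsH v hv)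
    have h3 : ∀ w ∈ Y v, (1 + J * e v * e w) / 2 = 1 / 2 + J * s v * q w +
        J * s v * (if w ∈ Rnd then
        (if w ∈ Z2 then (-1 : ℝ) else 1) * (ind (ω (ρ w)) - p (ρ w)) else 0) := by
      intro w hw
      have h4 := (hY v hv1).2.1 w hw
      have h7 : w ∈ Rnd := (hRmem w).2 h4
      rw [if_pos h7, ← hdiff w h7, heK w h4.2, hev]
      ring
    rw [Finset.sum_congr rfl h3, Finset.sum_add_distrib, Finset.sum_add_distrib,
      ← Finset.mul_sum, ← Finset.mul_sum, Finset.sum_const, (hY v hv1).1, nsmul_eq_mul]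
    have h5 := (hY v hv1).2.2
    have h4 : ∑ w ∈ Y v, (if w ∈ Rnd then
        (if w ∈ Z2 then (-1 : ℝ) else 1) * (ind (ω (ρ w)) - p (ρ w)) else 0) = X v ω := by
      simp only [hXdef, dv]
      rw [hYvH1 v hv1, Finset.sum_ite_mem]
    rw [h4]
    have h2k' : 2 * (k : ℝ) ≤ m := by exact_mod_cast h2k
    push_cast
    nlinarith
  have hJe : J * e v = 1 ∨ J * e v = -1 := by
    rcases hJ with rfl | rfl <;> rcases hepm v with h | h <;> rw [h] <;> norm_num
  apply hcast
  have hbad := hω v
  simp only [hBad, not_or, not_and, not_le] at hbad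
  · have h1 := hbad.1 hv
    rw [card_good (nb R v) e (J * e v) hJe hepm]
    have h2 : ∑ w ∈ nb R v, (1 + J * e v * e w) / 2 =
        (dg R v : ℝ) / 2 + e v * (J * ∑ w ∈ nb R v, q w) +
          e v * (J * ∑ w ∈ nb R v, (e w / 2 - q w)) := by
      have : ∀ w ∈ nb R v, (1 + J * e v * e w) / 2 =
          1 / 2 + e v * J * q w + e v * J * (e w / 2 - q w) := fun w _ => by ring
      rw [Finset.sum_congr rfl this, Finset.sum_add_distrib, Finset.sum_add_distrib,
        ← Finset.mul_sum, ← Finset.mul_sum, Finset.sum_const, nsmul_eq_mul]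
      unfold dg
      ring
    rw [h2]
    have h3 : |∑ w ∈ nb R v, (e w / 2 - q w)| ≤ c * dg R v := by
      have h4 : ∀ w ∈ nb R v, e w / 2 - q w = (if w ∈ Rnd then
          (if w ∈ Z2 then (-1 : ℝ) else 1) * (ind (ω (ρ w)) - p (ρ w)) else 0) +
          (if w ∈ K then e w / 2 else 0) := by
        intro w _
        by_cases h5 : w ∈ K
        · have h6 : w ∉ Rnd := fun h => ((hRmem w).1 h).2 h5
          rw [if_neg h6, if_pos h5, (hK w h5).2.2]
          ring
        · rw [if_neg h5]
          by_cases h6 : s w = 0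
          · have h7 : w ∈ Rnd := (hRmem w).2 ⟨h6, h5⟩
            rw [if_pos h7, ← hdiff w h7, heK w h5]
            ring
          · have h7 : w ∉ Rnd := fun h => h6 ((hRmem w).1 h).1
            rw [if_neg h7, hes w h6, hq1 w h6]
            ring
      rw [Finset.sum_congr rfl h4, Finset.sum_add_distrib, Finset.sum_ite_mem, Finset.sum_ite_mem]
      have h5 : ∑ w ∈ nb R v ∩ Rnd, (if w ∈ Z2 then (-1 : ℝ) else 1) *
          (ind (ω (ρ w)) - p (ρ w)) = X v ω := by
        simp only [hXdef, dv]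
        rw [hYvT v hv]
      rw [h5]
      have h6 : |∑ w ∈ nb R v ∩ K, e w / 2| ≤ 1 := by
        refine (Finset.abs_sum_le_sum_abs _ _).trans ?_
        have : ∀ w ∈ nb R v ∩ K, |e w / 2| ≤ 1 / 2 := fun w _ => by
          rcases hepm w with h | h <;> rw [h] <;> norm_num [abs_div]
        refine (Finset.sum_le_card_nsmul _ _ _ this).trans ?_
        rw [nsmul_eq_mul]
        have h7 : ((nb R v ∩ K).card : ℝ) ≤ 2 := by exact_mod_cast hK2 v hv
        linarith
      have h7 := abs_add_le (X v ω) (∑ w ∈ nb R v ∩ K, e w / 2)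
      linarith
    have h4 : |e v * (J * ∑ w ∈ nb R v, (e w / 2 - q w))| ≤ c * dg R v := by
      rw [abs_mul, abs_mul, hJ2, one_mul]
      have : |e v| = 1 := by rcases hepm v with h | h <;> rw [h] <;> norm_num
      rw [this, one_mul]
      exact h3
    have h5 := (abs_le.1 h4).1
    have h6 : -((dg R v : ℝ) / 2 - k - c * dg R v) ≤ e v * (J * ∑ w ∈ nb R v, q w) := by
      by_cases h7 : s v = 0
      · have h8 := abs_le.1 (hx0 v hv h7)
        rcases hepm v with h9 | h9 <;> rw [h9] <;> linarith [h8.1, h8.2]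
      · rw [hes v h7]
        exact hx1 v hv h7
    linarith

end Pool.Agent.helper14.LE
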