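import Pool.Agent.helper14.LE.State
import Pool.Agent.helper14.LE.RoundH

set_option autoImplicit false

/-!
# Choice of the sign of an engulfed hub, disjoint families, flipping of engulfed hubs and rounding
-/

namespace Pool.Agent.helper14.LE

open Finset Pool.Agent.helper2.Bis

theorem hub_choice {V : Type} [DecidableEq V] (J : ℝ) (hJ : J = 1 ∨ J = -1) (m k : ℕ)
    (s q : V → ℝ) (hs : ∀ v, s v = 1 ∨ s v = -1 ∨ s v = 0) (N0 N1 NZ : Finset V)
    (hN0 : ∀ w ∈ N0, s w ≠ 0) (hcard : 4 * m + 2 * k ≤ NZ.card + (N0.card + N1.card))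
    (hNZ : NZ.card < 2 * m) :
    ∃ (Yh : Finset V) (σh : ℝ), (σh = 1 ∨ σh = -1) ∧
      ((Yh ⊆ N1 ∧ Yh.card = 2 * m ∧ 0 ≤ J * σh * ∑ w ∈ Yh, q w) ∨
        (Yh = ∅ ∧ k ≤ (N0.filter (fun w => J * σh * s w = 1)).card)) := by
  classical
  have hJJ : J * J = 1 := by rcases hJ with rfl | rfl <;> norm_num
  by_cases h4 : 2 * m ≤ N1.card
  · obtain ⟨Yh, hY1, hY2⟩ := Finset.exists_subset_card_eq h4
    by_cases h5 : 0 ≤ ∑ w ∈ Yh, q w
    · refine ⟨Yh, J, hJ, Or.inl ⟨hY1, hY2, ?_⟩⟩
      rw [hJJ, one_mul]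
      exact h5
    · refine ⟨Yh, -J, ?_, Or.inl ⟨hY1, hY2, ?_⟩⟩
      · rcases hJ with h' | h' <;> rw [h'] <;> norm_num
      · have e1 : J * -J * ∑ w ∈ Yh, q w = -(∑ w ∈ Yh, q w) := by
          have : J * -J = -(J * J) := by ring
          rw [this, hJJ]
          ring
        rw [e1]
        linarith
  · have h9 : 2 * k ≤ N0.card := by omega
    have h10 : N0.card ≤
        (N0.filter (fun w => J * 1 * s w = 1)).card +
        (N0.filter (fun w => J * -1 * s w = 1)).card := by
      have hsub : N0 ⊆ N0.filter (fun w => J * 1 * s w = 1) ∪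
          N0.filter (fun w => J * -1 * s w = 1) := by
        intro w hw
        have h11 : s w ≠ 0 := hN0 w hw
        rw [Finset.mem_union, Finset.mem_filter, Finset.mem_filter]
        rcases hs w with h12 | h12 | h12
        · rcases hJ with h13 | h13
          · left
            exact ⟨hw, by rw [h12, h13]; norm_num⟩
          · right
            exact ⟨hw, by rw [h12, h13]; norm_num⟩
        · rcases hJ with h13 | h13
          · right
            exact ⟨hw, by rw [h12, h13]; norm_num⟩
          · left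
            exact ⟨hw, by rw [h12, h13]; norm_num⟩
        · exact absurd h12 h11
      exact (Finset.card_le_card hsub).trans (Finset.card_union_le _ _)
    by_cases h11 : k ≤ (N0.filter (fun w => J * 1 * s w = 1)).card
    · exact ⟨∅, 1, Or.inl rfl, Or.inr ⟨rfl, h11⟩⟩
    · exact ⟨∅, -1, Or.inr rfl, Or.inr ⟨rfl, by omega⟩⟩

/-- disjoint sets of the same size -/
theorem exists_family {V : Type} [DecidableEq V] (A : V → Finset V) (M n : ℕ) (H1 : Finset V) :
    H1.card ≤ n → (∀ v ∈ H1, M * n ≤ (A v).card) →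
    ∃ Y : V → Finset V, (∀ v ∈ H1, Y v ⊆ A v ∧ (Y v).card = M) ∧
      ∀ w, ∀ a ∈ H1, ∀ b ∈ H1, w ∈ Y a → w ∈ Y b → a = b := by
  classical
  induction H1 using Finset.induction_on with
  | empty =>
    intro _ _
    exact ⟨fun _ => ∅, by simp, by simp⟩
  | insert a S ha ih =>
    intro hn hA
    rw [Finset.card_insert_of_notMem ha] at hn
    obtain ⟨Y, hY1, hY2⟩ := ih (by omega) (fun v hv => hA v (Finset.mem_insert_of_mem hv))
    set U : Finset V := S.biUnion Y with hU
    have hUc : U.card ≤ S.card * M :=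
      Finset.card_biUnion_le_card_mul _ _ M (fun v hv => (hY1 v hv).2.le)
    have h1 : M ≤ (A a \ U).card := by
      have h2 := Finset.le_card_sdiff U (A a)
      have h3 := hA a (Finset.mem_insert_self _ _)
      have h4 : S.card * M + M ≤ M * n := by
        calc S.card * M + M = M * (S.card + 1) := by ring
          _ ≤ M * n := Nat.mul_le_mul_left _ hn
      omega
    obtain ⟨B, hB1, hB2⟩ := Finset.exists_subset_card_eq h1
    have hBU : ∀ w ∈ B, ∀ v ∈ S, w ∉ Y v := by
      intro w hw v hv hwv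
      exact (Finset.mem_sdiff.1 (hB1 hw)).2 (Finset.mem_biUnion.2 ⟨v, hv, hwv⟩)
    have hne : ∀ v ∈ S, v ≠ a := fun v hv h => ha (h ▸ hv)
    refine ⟨fun v => if v = a then B else Y v, ?_, ?_⟩
    · intro v hv
      rcases Finset.mem_insert.1 hv with rfl | hv
      · simp only [if_true]
        exact ⟨hB1.trans Finset.sdiff_subset, hB2⟩
      · simp only [if_neg (hne v hv)]
        exact hY1 v hv
    · intro w x hx y hy hwx hwy
      rcases Finset.mem_insert.1 hx with hx' | hx'
      · rcases Finset.mem_insert.1 hy with hy' | hy'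
        · rw [hx', hy']
        · exfalso
          simp only [hx', if_true] at hwx
          simp only [if_neg (hne y hy')] at hwy
          exact hBU w hwx y hy' hwy
      · rcases Finset.mem_insert.1 hy with hy' | hy'
        · exfalso
          simp only [hy', if_true] at hwy
          simp only [if_neg (hne x hx')] at hwx
          exact hBU w hwy x hx' hwx
        · simp only [if_neg (hne x hx')] at hwx
          simp only [if_neg (hne y hy')] at hwy
          exact hY2 w x hx' y hy' hwx hwy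

theorem finish_h {V : Type} [Fintype V] [DecidableEq V] (P R : V → V → Prop)
    (hRP : ∀ u v, R u v → P u v) (hsymm : ∀ u v, R u v → R v u)
    (J : ℝ) (hJ : J = 1 ∨ J = -1) (m k r D : ℕ) (c : ℝ) (hc : 0 < c) (hc8 : c ≤ 1 / 8)
    (hm1 : 1 ≤ m) (hm4 : 4 / c ^ 2 ≤ (m : ℝ)) (hD5m : 5 * m ≤ D) (h2k : 2 * k ≤ m)
    (hdeg : ∀ v, m ≤ dg R v) (θ : ℝ) (X : Finset V) (hX : ∀ v, (nb R v ∩ X).card ≤ r)
    (H : Finset V) (hH : ∀ v, v ∈ H ↔ D < dg R v) (hHm : ∀ h ∈ H, ∀ v, R h v → v ∉ H)
    (s0 s q : V → ℝ) (hs0 : ∀ v, s0 v = 1 ∨ s0 v = -1) (hs0sum : |∑ h ∈ H, s0 h| ≤ 1)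
    (hs : ∀ v, s v = 1 ∨ s v = -1 ∨ s v = 0) (hss0 : ∀ h ∈ H, s h = s0 h)
    (hq1 : ∀ v, s v ≠ 0 → q v = s v / 2) (hq0 : ∀ v, s v = 0 → |q v| ≤ 1 / 2)
    (hx0 : ∀ v, v ∉ H → s v = 0 →
      |J * ∑ w ∈ nb R v, q w| ≤ (dg R v : ℝ) / 2 - (k + r) - c * dg R v)
    (hx1 : ∀ v, v ∉ H → s v ≠ 0 →
      -((dg R v : ℝ) / 2 - (k + r) - c * dg R v) ≤ s v * (J * ∑ w ∈ nb R v, q w))
    (F Z : Finset V) (hF : ∀ v, v ∈ F ↔ v ∉ H ∧ q v ≠ 0)
    (hZ : ∀ v, v ∈ Z ↔ v ∉ H ∧ s v = 0 ∧ q v = 0)
    (hFH : ∑ v ∈ F, (nb R v ∩ H).card ≤ F.card * m)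
    (hserve : ∀ v ∈ H, θ ≤ (dg P v : ℝ) → 2 * m * H.card ≤ (nb P v ∩ Z).card)
    (hKex : ∀ U : Finset V, U.card ≤ 2 * m * H.card → ∀ N : ℕ, N ≤ 3 * F.card + 2 →
      ∃ K : Finset V, K ⊆ Z \ U ∧ K.card = N ∧ ∀ v, v ∉ H → (nb R v ∩ K).card ≤ 2)
    (hP : 4 * (2 * Real.exp (-(c ^ 2 * m / 2))) * (2 * (D : ℝ) * (2 * D + 1) + 1) ≤ 1) :
    ∃ e : V → ℝ, (∀ v, e v = 1 ∨ e v = -1) ∧ |∑ v, e v| ≤ 1 ∧
      (∀ v, (dg R v ≤ D ∨ θ ≤ (dg P v : ℝ) ∨ v ∈ X) →
        k ≤ ((nb P v).filter (fun w => J * e v * e w = 1)).card) := by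
  classical
  have hD2m : 2 * m ≤ D := by omega
  have hDle : ∀ v, v ∉ H → dg R v ≤ D := by
    intro v hv
    rw [hH] at hv
    omega
  have hsH : ∀ h ∈ H, s h ≠ 0 := by
    intro h hh
    rw [hss0 h hh]
    rcases hs0 h with h' | h' <;> rw [h'] <;> norm_num
  have hsq : ∀ v, s v ≠ 0 → q v ≠ 0 := by
    intro v hv
    rw [hq1 v hv]
    exact div_ne_zero hv two_ne_zero
  set F0 : Finset V := univ.filter (fun v => v ∉ H ∧ s v ≠ 0) with hF0
  set F1 : Finset V := univ.filter (fun v => v ∉ H ∧ s v = 0 ∧ q v ≠ 0) with hF1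
  have eF0 : Set.ncard {v : V | v ∉ H ∧ s v ≠ 0} = F0.card := by
    rw [← Set.ncard_coe_finset]
    congr 1
    ext v
    simp [hF0]
  have eF1 : Set.ncard {v : V | v ∉ H ∧ s v = 0 ∧ q v ≠ 0} = F1.card := by
    rw [← Set.ncard_coe_finset]
    congr 1
    ext v
    simp [hF1]
  have hF01 : F0.card + F1.card = F.card := by
    rw [← Finset.card_union_of_disjoint]
    · congr 1
      ext v
      rw [hF]
      simp only [hF0, hF1, mem_union, mem_filter, mem_univ, true_and]
      constructor
      · rintro (⟨h1, h2⟩ | ⟨h1, _, h3⟩)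
        · exact ⟨h1, hsq v h2⟩
        · exact ⟨h1, h3⟩
      · rintro ⟨h1, h2⟩
        by_cases h3 : s v = 0
        · exact Or.inr ⟨h1, h3, h2⟩
        · exact Or.inl ⟨h1, h3⟩
    · rw [Finset.disjoint_left]
      intro v hv hv'
      simp only [hF0, hF1, mem_filter, mem_univ, true_and] at hv hv'
      exact hv.2 hv'.2.1
  -- the leaves of a hub
  have hleaf : ∀ h ∈ H, dg R h ≤ (nb R h ∩ Z).card + (nb R h ∩ F).card := by
    intro h hh
    have hsub : nb R h ⊆ (nb R h ∩ Z) ∪ (nb R h ∩ F) := by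
      intro w hw
      have hwH : w ∉ H := hHm h hh w (mem_nb.mp hw)
      rw [Finset.mem_union, Finset.mem_inter, Finset.mem_inter]
      by_cases hq : q w = 0
      · left
        refine ⟨hw, ?_⟩
        rw [hZ]
        refine ⟨hwH, ?_, hq⟩
        by_contra h'
        exact hsq w h' hq
      · right
        refine ⟨hw, ?_⟩
        rw [hF]
        exact ⟨hwH, hq⟩
    exact (Finset.card_le_card hsub).trans (Finset.card_union_le _ _)
  have hFsplit : ∀ A : Finset V, (A ∩ F).card ≤ (A ∩ F0).card + (A ∩ F1).card := by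
    intro A
    have hsub : A ∩ F ⊆ (A ∩ F0) ∪ (A ∩ F1) := by
      intro w hw
      rw [Finset.mem_inter] at hw
      have h1 := hw.2
      rw [hF] at h1
      rw [Finset.mem_union, Finset.mem_inter, Finset.mem_inter]
      by_cases hsw : s w = 0
      · right
        refine ⟨hw.1, ?_⟩
        simp only [hF1, mem_filter, mem_univ, true_and]
        exact ⟨h1.1, hsw, h1.2⟩
      · left
        refine ⟨hw.1, ?_⟩
        simp only [hF0, mem_filter, mem_univ, true_and]
        exact ⟨h1.1, hsw⟩
    exact (Finset.card_le_card hsub).trans (Finset.card_union_le _ _)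
  -- the three kinds of hubs
  set G1 : Finset V := H.filter (fun v => θ ≤ (dg P v : ℝ)) with hG1
  set G2 : Finset V := H.filter (fun v => (dg P v : ℝ) < θ ∧ 2 * m ≤ (nb R v ∩ Z).card) with hG2
  set G3 : Finset V := H.filter (fun v => (dg P v : ℝ) < θ ∧ (nb R v ∩ Z).card < 2 * m ∧
    v ∈ X) with hG3
  have hG3H : G3 ⊆ H := Finset.filter_subset _ _
  -- few engulfed hubs
  have hG3F : G3.card ≤ F.card := by
    have h1 : G3.card * m ≤ ∑ h ∈ G3, (nb R h ∩ F).card := by
      rw [← smul_eq_mul]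
      refine Finset.card_nsmul_le_sum _ _ _ (fun h hh => ?_)
      have h2 := (mem_filter.mp hh).2
      have h3 := hleaf h (hG3H hh)
      have h4 : D < dg R h := (hH h).1 (hG3H hh)
      omega
    have h2 : ∑ h ∈ G3, (nb R h ∩ F).card ≤ ∑ v ∈ F, (nb R v ∩ H).card := by
      have e1 : ∀ h ∈ G3, (nb R h ∩ F).card = ∑ v ∈ F, if R h v then 1 else 0 := by
        intro h _
        rw [Finset.sum_boole]
        simp only [Nat.cast_id]
        congr 1
        ext v
        simp only [mem_inter, mem_nb, mem_filter]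
        exact ⟨fun hv => ⟨hv.2, hv.1⟩, fun hv => ⟨hv.2, hv.1⟩⟩
      have e2 : ∀ v ∈ F, ∑ h ∈ G3, (if R h v then 1 else 0) ≤ (nb R v ∩ H).card := by
        intro v _
        rw [Finset.sum_boole]
        simp only [Nat.cast_id]
        apply Finset.card_le_card
        intro h hh
        rw [mem_filter] at hh
        rw [mem_inter, mem_nb]
        exact ⟨hsymm _ _ hh.2, hG3H hh.1⟩
      rw [Finset.sum_congr rfl e1, Finset.sum_comm]
      exact Finset.sum_le_sum e2
    have h3 : ∑ v ∈ F, (nb R v ∩ H).card ≤ F.card * m := hFH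
    exact Nat.le_of_mul_le_mul_right ((h1.trans h2).trans h3) (by omega)
  have hserve' : ∀ v ∈ G1, 2 * m * G1.card ≤ (nb P v ∩ Z).card := by
    intro v hv
    refine (Nat.mul_le_mul_left _ (Finset.card_le_card (Finset.filter_subset _ _))).trans
      (hserve v (mem_filter.mp hv).1 (mem_filter.mp hv).2)
  obtain ⟨Yg, hYg1, hYg2⟩ := exists_family (fun v => nb P v ∩ Z) (2 * m) G1.card G1 le_rfl
    hserve'
  -- local choices
  have hloc : ∀ h, ∃ (Yh : Finset V) (σh : ℝ), (σh = 1 ∨ σh = -1) ∧
      (h ∈ G2 → Yh ⊆ nb R h ∩ Z ∧ Yh.card = 2 * m) ∧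
      (h ∈ G3 → (Yh ⊆ nb R h ∩ F1 ∧ Yh.card = 2 * m ∧ 0 ≤ J * σh * ∑ w ∈ Yh, q w) ∨
        (Yh = ∅ ∧ k ≤ ((nb R h ∩ F0).filter (fun w => J * σh * s w = 1)).card)) := by
    intro h
    by_cases h2 : h ∈ G2
    · obtain ⟨Yh, hY1, hY2⟩ := Finset.exists_subset_card_eq (mem_filter.mp h2).2.2
      refine ⟨Yh, 1, Or.inl rfl, fun _ => ⟨hY1, hY2⟩, fun h3 => ?_⟩
      have e1 := (mem_filter.mp h2).2.2
      have e2 := (mem_filter.mp h3).2.2.1
      omega
    · by_cases h3 : h ∈ G3
      · have h5 := (mem_filter.mp h3).2.2.1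
        have h6 := hleaf h (hG3H h3)
        have h7 : D < dg R h := (hH h).1 (hG3H h3)
        have h8 := hFsplit (nb R h)
        obtain ⟨Yh, σh, hσh, hY⟩ := hub_choice J hJ m k s q hs (nb R h ∩ F0) (nb R h ∩ F1)
          (nb R h ∩ Z) (fun w hw => (mem_filter.mp (Finset.mem_inter.1 hw).2).2.2)
          (by omega) h5
        exact ⟨Yh, σh, hσh, fun h' => absurd h' h2, fun _ => hY⟩
      · exact ⟨∅, 1, Or.inl rfl, fun h' => absurd h' h2, fun h' => absurd h' h3⟩
  choose Yl σ hσ hYl2 hYl3 using hloc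
  set Y : V → Finset V := fun h => if h ∈ G1 then Yg h else Yl h with hYdef
  have hYG1 : ∀ h ∈ G1, Y h = Yg h := fun h hh => by simp only [hYdef, if_pos hh]
  have hYnG1 : ∀ h, h ∉ G1 → Y h = Yl h := fun h hh => by simp only [hYdef, if_neg hh]
  have hG2G1 : ∀ h ∈ G2, h ∉ G1 := by
    intro h h2 h1
    have e1 := (mem_filter.mp h2).2.1
    have e2 := (mem_filter.mp h1).2
    linarith
  have hG3G1 : ∀ h ∈ G3, h ∉ G1 := by
    intro h h2 h1
    have e1 := (mem_filter.mp h2).2.1
    have e2 := (mem_filter.mp h1).2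
    linarith
  set s' : V → ℝ := fun h => if h ∈ G3 then σ h else s h with hs'def
  set q' : V → ℝ := fun h => if h ∈ G3 then σ h / 2 else q h with hq'def
  have hs'G : ∀ h ∈ G3, s' h = σ h := fun h hh => by simp only [hs'def, if_pos hh]
  have hq'G : ∀ h ∈ G3, q' h = σ h / 2 := fun h hh => by simp only [hq'def, if_pos hh]
  have hs'n : ∀ h, h ∉ G3 → s' h = s h := fun h hh => by simp only [hs'def, if_neg hh]
  have hq'n : ∀ h, h ∉ G3 → q' h = q h := fun h hh => by simp only [hq'def, if_neg hh]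
  have hnG3 : ∀ v, v ∉ H → v ∉ G3 := fun v hv h => hv (hG3H h)
  -- the change of the fields
  have hchange : ∀ v, v ∉ H → |∑ w ∈ nb R v, q' w - ∑ w ∈ nb R v, q w| ≤ r := by
    intro v _
    have h1 : ∑ w ∈ nb R v, q' w - ∑ w ∈ nb R v, q w =
        ∑ w ∈ nb R v ∩ G3, (σ w / 2 - s w / 2) := by
      rw [← Finset.sum_sub_distrib, ← Finset.sum_filter_add_sum_filter_not (nb R v) (· ∈ G3)]
      have e1 : ∑ w ∈ (nb R v).filter (fun w => ¬ w ∈ G3), (q' w - q w) = 0 := by
        apply Finset.sum_eq_zero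
        intro w hw
        rw [hq'n w (Finset.mem_filter.1 hw).2, sub_self]
      rw [e1, add_zero, Finset.filter_mem_eq_inter]
      refine Finset.sum_congr rfl fun w hw => ?_
      have hwG := (Finset.mem_inter.1 hw).2
      rw [hq'G w hwG, hq1 w (hsH w (hG3H hwG))]
    rw [h1]
    have h2 : |∑ w ∈ nb R v ∩ G3, (σ w / 2 - s w / 2)| ≤ ((nb R v ∩ G3).card : ℝ) := by
      refine (Finset.abs_sum_le_sum_abs _ _).trans ?_
      have : ∀ w ∈ nb R v ∩ G3, |σ w / 2 - s w / 2| ≤ 1 := fun w _ => by
        rcases hσ w with h | h <;> rcases hs w with h' | h' | h' <;> rw [h, h'] <;>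
          norm_num [abs_le]
      refine (Finset.sum_le_card_nsmul _ _ _ this).trans (le_of_eq ?_)
      simp
    refine h2.trans ?_
    have h3 : (nb R v ∩ G3).card ≤ r := by
      refine (Finset.card_le_card ?_).trans (hX v)
      intro w hw
      rw [Finset.mem_inter] at hw ⊢
      exact ⟨hw.1, (mem_filter.mp hw.2).2.2.2⟩
    exact_mod_cast h3
  have hJabs : ∀ x : ℝ, |J * x| = |x| := by
    intro x
    rw [abs_mul]
    have : |J| = 1 := by rcases hJ with h | h <;> rw [h] <;> norm_num
    rw [this, one_mul]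
  -- size of the correction set
  obtain ⟨N, hN1, hN2, hNpar⟩ : ∃ N : ℕ, 3 * F.card + 1 ≤ N ∧ N ≤ 3 * F.card + 2 ∧
      (N ≤ Z.card → Even (Z.card - N)) := by
    rcases Nat.even_or_odd (Z.card - (3 * F.card + 1)) with h | h
    · exact ⟨3 * F.card + 1, le_refl _, by omega, fun _ => h⟩
    · refine ⟨3 * F.card + 2, by omega, le_refl _, fun hle => ?_⟩
      obtain ⟨r', hr'⟩ := h
      exact ⟨r', by omega⟩
  set U : Finset V := (G1 ∪ G2).biUnion Y with hU
  have hUc : U.card ≤ 2 * m * H.card := by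
    have h1 : ∀ h ∈ G1 ∪ G2, (Y h).card ≤ 2 * m := by
      intro h hh
      rcases Finset.mem_union.1 hh with h1 | h2
      · rw [hYG1 h h1]
        exact (hYg1 h h1).2.le
      · rw [hYnG1 h (hG2G1 h h2)]
        exact (hYl2 h h2).2.le
    refine (Finset.card_biUnion_le_card_mul _ _ (2 * m) h1).trans ?_
    rw [mul_comm]
    apply Nat.mul_le_mul_left
    apply Finset.card_le_card
    exact Finset.union_subset (Finset.filter_subset _ _) (Finset.filter_subset _ _)
  obtain ⟨K, hKZU, hKc, hK2⟩ := hKex U hUc N hN2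
  have hKZ : K ⊆ Z := hKZU.trans Finset.sdiff_subset
  have hKU : ∀ v ∈ K, v ∉ U := fun v hv => (Finset.mem_sdiff.1 (hKZU hv)).2
  have hNZ : N ≤ Z.card := by
    rw [← hKc]
    exact Finset.card_le_card hKZ
  -- the served hubs
  set H1 : Finset V := (G1 ∪ G2) ∪ G3.filter (fun h => (Yl h).card = 2 * m) with hH1
  have hH1H : H1 ⊆ H := by
    refine Finset.union_subset (Finset.union_subset (Finset.filter_subset _ _)
      (Finset.filter_subset _ _)) ((Finset.filter_subset _ _).trans hG3H)
  have hG2G3 : ∀ h ∈ G2, h ∉ G3 := by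
    intro h h2 h3
    have e1 := (mem_filter.mp h2).2.2
    have e2 := (mem_filter.mp h3).2.2.1
    omega
  obtain ⟨e, he1, he2, hes, he3, he4⟩ := rounding_h R hsymm H J hJ m k D c hc hc8 hm4 hdeg hDle
    s' q' (by
      intro v
      by_cases hv : v ∈ G3
      · rw [hs'G v hv]
        rcases hσ v with h | h
        · exact Or.inl h
        · exact Or.inr (Or.inl h)
      · rw [hs'n v hv]
        exact hs v)
    (by
      intro v hv
      by_cases hv3 : v ∈ G3
      · rw [hs'G v hv3]
        rcases hσ v with h | h <;> rw [h] <;> norm_num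
      · rw [hs'n v hv3]
        exact hsH v hv)
    (by
      intro v hv
      by_cases hv3 : v ∈ G3
      · rw [hs'G v hv3, hq'G v hv3]
      · rw [hs'n v hv3] at hv ⊢
        rw [hq'n v hv3]
        exact hq1 v hv)
    (by
      intro v hv
      by_cases hv3 : v ∈ G3
      · rw [hs'G v hv3] at hv
        rcases hσ v with h | h <;> rw [h] at hv <;> norm_num at hv
      · rw [hs'n v hv3] at hv
        rw [hq'n v hv3]
        exact hq0 v hv)
    (by
      intro v hv hsv
      rw [hs'n v (hnG3 v hv)] at hsv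
      have h1 := hx0 v hv hsv
      have h2 := hchange v hv
      rw [hJabs] at h1 ⊢
      have h3 : |∑ w ∈ nb R v, q' w| ≤ |∑ w ∈ nb R v, q w| + r := by
        have h4 := abs_add_le (∑ w ∈ nb R v, q w) (∑ w ∈ nb R v, q' w - ∑ w ∈ nb R v, q w)
        rw [add_sub_cancel] at h4
        linarith
      linarith)
    (by
      intro v hv hsv
      rw [hs'n v (hnG3 v hv)] at hsv ⊢
      have h1 := hx1 v hv hsv
      have h2 := hchange v hv
      have h3 : |s v * (J * (∑ w ∈ nb R v, q' w - ∑ w ∈ nb R v, q w))| ≤ r := by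
        rw [abs_mul, hJabs]
        have : |s v| = 1 := by
          rcases hs v with h | h | h
          · rw [h]; norm_num
          · rw [h]; norm_num
          · exact absurd h hsv
        rw [this, one_mul]
        exact h2
      have h4 := (abs_le.1 h3).1
      have h5 : s v * (J * ∑ w ∈ nb R v, q' w) = s v * (J * ∑ w ∈ nb R v, q w) +
          s v * (J * (∑ w ∈ nb R v, q' w - ∑ w ∈ nb R v, q w)) := by ring
      rw [h5]
      linarith)
    K
    (fun v hv => by
      have h1 := (hZ v).1 (hKZ hv)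
      rw [hs'n v (hnG3 v h1.1), hq'n v (hnG3 v h1.1)]
      exact h1) hK2
    (by
      have e : Set.ncard {v : V | v ∉ H ∧ s' v = 0 ∧ q' v = 0 ∧ v ∉ K} = Z.card - N := by
        have : {v : V | v ∉ H ∧ s' v = 0 ∧ q' v = 0 ∧ v ∉ K} = ((Z \ K : Finset V) : Set V) := by
          ext v
          simp only [Set.mem_ofPred_eq, Finset.coe_sdiff, Set.mem_sdiff, Finset.mem_coe, hZ]
          constructor
          · rintro ⟨h1, h2, h3, h4⟩
            rw [hs'n v (hnG3 v h1)] at h2
            rw [hq'n v (hnG3 v h1)] at h3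
            exact ⟨⟨h1, h2, h3⟩, h4⟩
          · rintro ⟨⟨h1, h2, h3⟩, h4⟩
            rw [hs'n v (hnG3 v h1), hq'n v (hnG3 v h1)]
            exact ⟨h1, h2, h3, h4⟩
        rw [this, Set.ncard_coe_finset, Finset.card_sdiff_of_subset hKZ, hKc]
      rw [e]
      exact hNpar hNZ)
    (by
      have eF0' : Set.ncard {v : V | v ∉ H ∧ s' v ≠ 0} = F0.card := by
        rw [← eF0]
        congr 1
        ext v
        simp only [Set.mem_ofPred_eq]
        constructor
        · rintro ⟨h1, h2⟩
          rw [hs'n v (hnG3 v h1)] at h2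
          exact ⟨h1, h2⟩
        · rintro ⟨h1, h2⟩
          rw [hs'n v (hnG3 v h1)]
          exact ⟨h1, h2⟩
      have eF1' : Set.ncard {v : V | v ∉ H ∧ s' v = 0 ∧ q' v ≠ 0} = F1.card := by
        rw [← eF1]
        congr 1
        ext v
        simp only [Set.mem_ofPred_eq]
        constructor
        · rintro ⟨h1, h2, h3⟩
          rw [hs'n v (hnG3 v h1)] at h2
          rw [hq'n v (hnG3 v h1)] at h3
          exact ⟨h1, h2, h3⟩
        · rintro ⟨h1, h2, h3⟩
          rw [hs'n v (hnG3 v h1), hq'n v (hnG3 v h1)]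
          exact ⟨h1, h2, h3⟩
      rw [eF0', eF1', hKc]
      have h1 : |∑ h ∈ H, s' h| ≤ 1 + 2 * G3.card := by
        have e1 : ∑ h ∈ H, s' h = ∑ h ∈ H, s0 h + ∑ h ∈ G3, (σ h - s0 h) := by
          have e2 : ∑ h ∈ G3, (σ h - s0 h) = ∑ h ∈ H, (if h ∈ G3 then (σ h - s0 h) else 0) := by
            rw [Finset.sum_ite_mem, Finset.inter_eq_right.2 hG3H]
          rw [e2, ← Finset.sum_add_distrib]
          refine Finset.sum_congr rfl fun h hh => ?_
          by_cases h3 : h ∈ G3
          · rw [hs'G h h3, if_pos h3]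
            ring
          · rw [hs'n h h3, if_neg h3, hss0 h hh]
            ring
        have e3 : |∑ h ∈ G3, (σ h - s0 h)| ≤ 2 * G3.card := by
          refine (Finset.abs_sum_le_sum_abs _ _).trans ?_
          have : ∀ h ∈ G3, |σ h - s0 h| ≤ 2 := fun h _ => by
            rcases hσ h with h' | h' <;> rcases hs0 h with h'' | h'' <;> rw [h', h''] <;>
              norm_num
          refine (Finset.sum_le_card_nsmul _ _ _ this).trans (le_of_eq ?_)
          rw [nsmul_eq_mul]
          ring
        rw [e1]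
        have e4 := abs_add_le (∑ h ∈ H, s0 h) (∑ h ∈ G3, (σ h - s0 h))
        linarith
      have h2 : (F0.card : ℝ) + F1.card = F.card := by exact_mod_cast hF01
      have h3 : 3 * (F.card : ℝ) + 1 ≤ N := by exact_mod_cast hN1
      have h4 : (G3.card : ℝ) ≤ F.card := by exact_mod_cast hG3F
      linarith)
    H1 hH1H Y hD2m h2k
    (by
      intro h hh
      have hz0 : ∀ w ∈ Z, s' w = 0 ∧ q' w = 0 := by
        intro w hw
        have h1 := (hZ w).1 hw
        rw [hs'n w (hnG3 w h1.1), hq'n w (hnG3 w h1.1)]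
        exact h1.2
      rcases Finset.mem_union.1 hh with h12 | h3
      · have hYZ : ∀ w ∈ Y h, w ∈ Z := by
          intro w hw
          rcases Finset.mem_union.1 h12 with h1 | h2
          · rw [hYG1 h h1] at hw
            exact (Finset.mem_inter.1 ((hYg1 h h1).1 hw)).2
          · rw [hYnG1 h (hG2G1 h h2)] at hw
            exact (Finset.mem_inter.1 ((hYl2 h h2).1 hw)).2
        have hYc : (Y h).card = 2 * m := by
          rcases Finset.mem_union.1 h12 with h1 | h2
          · rw [hYG1 h h1]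
            exact (hYg1 h h1).2
          · rw [hYnG1 h (hG2G1 h h2)]
            exact (hYl2 h h2).2
        refine ⟨hYc, fun w hw => ⟨(hz0 w (hYZ w hw)).1, fun hwK => ?_⟩, ?_⟩
        · exact hKU w hwK (Finset.mem_biUnion.2 ⟨h, h12, hw⟩)
        · have : ∑ w ∈ Y h, q' w = 0 :=
            Finset.sum_eq_zero fun w hw => (hz0 w (hYZ w hw)).2
          rw [this, mul_zero]
      · have h3' := Finset.mem_filter.1 h3
        rw [hYnG1 h (hG3G1 h h3'.1), hs'G h h3'.1]
        rcases hYl3 h h3'.1 with h4 | h4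
        · have hwF : ∀ w ∈ Yl h, w ∉ H ∧ s w = 0 ∧ q w ≠ 0 := fun w hw =>
            (mem_filter.mp (Finset.mem_inter.1 (h4.1 hw)).2).2
          refine ⟨h4.2.1, fun w hw => ⟨?_, fun hwK => ?_⟩, ?_⟩
          · rw [hs'n w (hnG3 w (hwF w hw).1)]
            exact (hwF w hw).2.1
          · exact (hwF w hw).2.2 ((hZ w).1 (hKZ hwK)).2.2
          · have : ∑ w ∈ Yl h, q' w = ∑ w ∈ Yl h, q w :=
              Finset.sum_congr rfl fun w hw => hq'n w (hnG3 w (hwF w hw).1)
            rw [this]
            exact h4.2.2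
        · exfalso
          have e1 := h3'.2
          rw [h4.1, Finset.card_empty] at e1
          omega)
    (by
      intro w hw
      have hwH : w ∉ H := by
        intro hwH
        by_cases h3 : w ∈ G3
        · rw [hs'G w h3] at hw
          rcases hσ w with h | h <;> rw [h] at hw <;> norm_num at hw
        · rw [hs'n w h3] at hw
          exact hsH w hwH hw
      have hsub : H1.filter (fun h => w ∈ Y h) ⊆ nb R w ∪ G1.filter (fun h => w ∈ Yg h) := by
        intro h hh
        rw [Finset.mem_filter] at hh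
        rw [Finset.mem_union]
        by_cases h1 : h ∈ G1
        · right
          have := hh.2
          rw [hYG1 h h1] at this
          exact Finset.mem_filter.2 ⟨h1, this⟩
        · left
          have h2 := hh.2
          rw [hYnG1 h h1] at h2
          rw [mem_nb]
          rcases Finset.mem_union.1 hh.1 with h12 | h3
          · rcases Finset.mem_union.1 h12 with h1' | h2'
            · exact absurd h1' h1
            · exact hsymm _ _ (mem_nb.mp (Finset.mem_inter.1 ((hYl2 h h2').1 h2)).1)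
          · have h3' := Finset.mem_filter.1 h3
            rcases hYl3 h h3'.1 with h4 | h4
            · exact hsymm _ _ (mem_nb.mp (Finset.mem_inter.1 (h4.1 h2)).1)
            · rw [h4.1] at h2
              exact absurd h2 (Finset.notMem_empty _)
      refine (Finset.card_le_card hsub).trans ((Finset.card_union_le _ _).trans ?_)
      have e1 : (nb R w).card ≤ D := hDle w hwH
      have e2 : (G1.filter (fun h => w ∈ Yg h)).card ≤ 1 := by
        rw [Finset.card_le_one]
        intro a ha b hb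
        rw [Finset.mem_filter] at ha hb
        exact hYg2 w a ha.1 b hb.1 ha.2 hb.2
      omega)
    (2 * Real.exp (-(c ^ 2 * m / 2))) (le_refl _) hP
  have hnbRP : ∀ v, nb R v ⊆ nb P v := by
    intro v w hw
    rw [mem_nb] at hw ⊢
    exact hRP v w hw
  refine ⟨e, he1, he2, ?_⟩
  · intro v hv
    by_cases hvH : v ∈ H
    · have hvD : ¬ dg R v ≤ D := not_le.2 ((hH v).1 hvH)
      by_cases hvG1 : v ∈ G1
      · have hvH1 : v ∈ H1 := Finset.mem_union_left _ (Finset.mem_union_left _ hvG1)
        refine (he4 v hvH1).trans (Finset.card_le_card ?_)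
        apply Finset.filter_subset_filter
        rw [hYG1 v hvG1]
        intro w hw
        exact (Finset.mem_inter.1 ((hYg1 v hvG1).1 hw)).1
      · have hvθ : (dg P v : ℝ) < θ := by
          rw [← not_le]
          intro h
          exact hvG1 (Finset.mem_filter.2 ⟨hvH, h⟩)
        by_cases hvG2 : v ∈ G2
        · have hvH1 : v ∈ H1 := Finset.mem_union_left _ (Finset.mem_union_right _ hvG2)
          refine (he4 v hvH1).trans (Finset.card_le_card ?_)
          apply Finset.filter_subset_filter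
          rw [hYnG1 v hvG1]
          intro w hw
          exact hnbRP v (Finset.mem_inter.1 ((hYl2 v hvG2).1 hw)).1
        · have hvG3 : v ∈ G3 := by
            rcases hv with hv | hv | hv
            · exact absurd hv hvD
            · exact absurd hvθ (not_lt.2 hv)
            · refine Finset.mem_filter.2 ⟨hvH, hvθ, ?_, hv⟩
              rw [← not_le]
              intro h
              exact hvG2 (Finset.mem_filter.2 ⟨hvH, hvθ, h⟩)
          rcases hYl3 v hvG3 with h4 | h4
          · have hvH1 : v ∈ H1 :=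
              Finset.mem_union_right _ (Finset.mem_filter.2 ⟨hvG3, h4.2.1⟩)
            refine (he4 v hvH1).trans (Finset.card_le_card ?_)
            apply Finset.filter_subset_filter
            rw [hYnG1 v hvG1]
            intro w hw
            exact hnbRP v (Finset.mem_inter.1 (h4.1 hw)).1
          · refine h4.2.trans (Finset.card_le_card ?_)
            intro w hw
            rw [Finset.mem_filter] at hw ⊢
            have hw1 := Finset.mem_inter.1 hw.1
            have hw2 := (mem_filter.mp hw1.2).2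
            have hsw : s' w = s w := hs'n w (hnG3 w hw2.1)
            have hew : e w = s w := by
              rw [hes w (by rw [hsw]; exact hw2.2), hsw]
            have hev : e v = σ v := by
              rw [hes v (by
                rw [hs'G v hvG3]
                rcases hσ v with h | h <;> rw [h] <;> norm_num), hs'G v hvG3]
            refine ⟨hnbRP v hw1.1, ?_⟩
            rw [hew, hev]
            exact hw.2
    · refine (he3 v hvH).trans (Finset.card_le_card ?_)
      apply Finset.filter_subset_filter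
      exact hnbRP v

end Pool.Agent.helper14.LE
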