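import Pool.Agent.helper14.LE.State
import Pool.Agent.helper14.LE.FinishH
import Pool.Agent.helper15.Bis.Signs
import Pool.Agent.helper40.Bis.ChooseK

set_option autoImplicit false

/-!
# Exact bisections that are good at all vertices of low degree, of giant degree, or isolated from
other hubs
-/

namespace Pool.Agent.helper14.LE

open Finset Pool.Agent.helper2.Bis

theorem core_h (c L : ℝ) (hc : 0 < c) (hc8 : c ≤ 1 / 8) (hL : 0 ≤ L) (m k r : ℕ) (hm1 : 1 ≤ m)
    (hm4 : 4 / c ^ 2 ≤ (m : ℝ)) (hEL : 11 * (m : ℝ) ^ 2 * Real.exp L ≤ Real.exp (c ^ 2 / 8 * m))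
    (hkm : (k : ℝ) + r ≤ (1 / 2 - 3 * c) * m)
    (V : Type) [Fintype V] [DecidableEq V] (P R : V → V → Prop) (hRP : ∀ u v, R u v → P u v)
    (hsymm : ∀ u v, R u v → R v u) (hirr : ∀ v, ¬ R v v)
    (hdeg : ∀ v, m ≤ dg R v) (hedge : ∀ u v, R u v → dg R u = m ∨ dg R v = m)
    (X : Finset V) (hX : ∀ v, (nb R v ∩ X).card ≤ r) (J : ℝ) (hJ : J = 1 ∨ J = -1) :
    ∃ e : V → ℝ, (∀ v, e v = 1 ∨ e v = -1) ∧ |∑ v, e v| ≤ 1 ∧
      (∀ v, (dg R v ≤ ⌊Real.exp (c ^ 2 / 8 * m)⌋₊ ∨
          Real.exp (-L) * Fintype.card V ≤ (dg P v : ℝ) ∨ v ∈ X) →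
        k ≤ ((nb P v).filter (fun w => J * e v * e w = 1)).card) ∧
      ⌊Real.exp (c ^ 2 / 8 * m)⌋₊ *
        Set.ncard {v : V | ⌊Real.exp (c ^ 2 / 8 * m)⌋₊ < dg R v} ≤ m * Fintype.card V := by
  classical
  have hm1R : (1 : ℝ) ≤ m := by exact_mod_cast hm1
  have hc2pos : 0 < c ^ 2 := by positivity
  have hc64 : c ^ 2 ≤ 1 / 64 := by nlinarith
  have hcm : 4 ≤ c ^ 2 * m := by
    rw [div_le_iff₀ hc2pos] at hm4
    linarith
  have hm256 : (256 : ℝ) ≤ m := by nlinarith
  have hm8 : 8 ≤ m := by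
    have : (8 : ℝ) ≤ m := by linarith
    exact_mod_cast this
  set E : ℝ := Real.exp (c ^ 2 / 8 * m) with hEdef
  have hE0 : 0 < E := Real.exp_pos _
  have hL1 : 1 ≤ Real.exp L := Real.one_le_exp hL
  have hEm2 : 11 * (m : ℝ) ^ 2 ≤ E := by
    have : 11 * (m : ℝ) ^ 2 * 1 ≤ 11 * (m : ℝ) ^ 2 * Real.exp L :=
      mul_le_mul_of_nonneg_left hL1 (by positivity)
    linarith
  have hE1 : 1 ≤ E := by nlinarith
  have hE2 : Real.exp (c ^ 2 / 4 * m) = E ^ 2 := by
    rw [hEdef, ← Real.exp_nat_mul]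
    congr 1
    push_cast
    ring
  have hE4' : Real.exp (-(c ^ 2 * m / 2)) * E ^ 4 = 1 := by
    rw [hEdef, ← Real.exp_nat_mul, ← Real.exp_add]
    rw [← Real.exp_zero]
    congr 1
    push_cast
    ring
  have hE4 : Real.exp (-(c ^ 2 / 4 * m)) ≤ c ^ 2 / 48 := by
    rw [Real.exp_neg, hE2, inv_le_iff_one_le_mul₀ (by positivity)]
    have h1 : (121 : ℝ) * m ^ 4 ≤ E ^ 2 := by
      have := pow_le_pow_left₀ (by positivity) hEm2 2
      calc (121 : ℝ) * m ^ 4 = (11 * (m : ℝ) ^ 2) ^ 2 := by ring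
        _ ≤ _ := this
    have h2 : (m : ℝ) ≤ (m : ℝ) ^ 4 := by
      calc (m : ℝ) = (m : ℝ) ^ 1 := (pow_one _).symm
        _ ≤ (m : ℝ) ^ 4 := pow_le_pow_right₀ hm1R (by norm_num)
    have h3 : (121 : ℝ) * m ≤ E ^ 2 := by linarith
    calc (1 : ℝ) ≤ 1 / 48 * (121 * (4 : ℝ)) := by norm_num
      _ ≤ 1 / 48 * (121 * (c ^ 2 * m)) := by linarith
      _ = c ^ 2 / 48 * (121 * m) := by ring
      _ ≤ c ^ 2 / 48 * E ^ 2 := mul_le_mul_of_nonneg_left h3 (by positivity)
  have hE8 : (m : ℝ) ≤ E := by nlinarith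
  set D : ℕ := ⌊E⌋₊ with hDdef
  have hmD : m ≤ D := Nat.le_floor hE8
  have hDle' : (D : ℝ) ≤ E := Nat.floor_le hE0.le
  have hDge : E < D + 1 := Nat.lt_floor_add_one _
  have hD1 : (1 : ℝ) ≤ D := by
    have : (m : ℝ) ≤ D := by exact_mod_cast hmD
    linarith
  have hDhalf : E / 2 ≤ D := by linarith
  have hD5m : 5 * m ≤ D := by
    have h1 : (5 * m : ℝ) ≤ D := by nlinarith
    exact_mod_cast h1
  have hD2m : 2 * m ≤ D := by omega
  have hD2 : (D : ℝ) ^ 2 ≤ Real.exp (c ^ 2 / 4 * m) := by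
    rw [hE2]
    exact pow_le_pow_left₀ (Nat.cast_nonneg _) hDle' 2
  have hexp1 : 1 ≤ Real.exp (c ^ 2 / 4 * m) := Real.one_le_exp (by positivity)
  have hr0 : (0 : ℝ) ≤ r := Nat.cast_nonneg r
  have h2k : 2 * k ≤ m := by
    have : 2 * (k : ℝ) ≤ m := by nlinarith
    exact_mod_cast this
  set θ : ℝ := Real.exp (-L) * Fintype.card V with hθ
  -- the trivial case
  by_cases hV : IsEmpty V
  · refine ⟨fun _ => 1, fun _ => Or.inl rfl, ?_, fun v => (hV.false v).elim, ?_⟩
    · simp
    · have : {v : V | D < dg R v} = ∅ := by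
        ext v
        exact (hV.false v).elim
      rw [this]
      simp
  rw [not_isEmpty_iff] at hV
  obtain ⟨v0⟩ := hV
  -- hubs
  set H : Finset V := univ.filter (fun v => D < dg R v) with hH
  have hHm : ∀ h ∈ H, ∀ v, R h v → v ∉ H ∧ dg R v = m := by
    intro h hh v hv
    have h1 : D < dg R h := (mem_filter.mp hh).2
    have h2 : dg R v = m := by
      rcases hedge h v hv with h3 | h3
      · omega
      · exact h3
    refine ⟨?_, h2⟩
    intro h3
    have := (mem_filter.mp h3).2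
    omega
  have hDle : ∀ v, v ∉ H → dg R v ≤ D := by
    intro v hv
    by_contra hcon
    exact hv (mem_filter.mpr ⟨mem_univ _, by omega⟩)
  set T : Finset V := univ.filter (fun v => v ∉ H) with hT
  have hTH : T.card + H.card = Fintype.card V := by
    have := Finset.card_filter_add_card_filter_not (s := (univ : Finset V)) (fun v => v ∉ H)
    have e : univ.filter (fun v => ¬ (v ∉ H)) = H := by ext v; simp
    rw [e] at this
    exact this
  -- number of hubs
  have hHT : D * H.card ≤ m * T.card := by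
    have h1 : H.card * D ≤ ∑ h ∈ H, dg R h := by
      rw [← smul_eq_mul]
      exact Finset.card_nsmul_le_sum _ _ _ (fun h hh => (mem_filter.mp hh).2.le)
    have h2 : ∑ h ∈ H, dg R h = ∑ v ∈ T, (nb R v ∩ H).card := by
      have e1 : ∀ h ∈ H, dg R h = ∑ v ∈ T, if R h v then 1 else 0 := by
        intro h hh
        rw [Finset.sum_boole]
        unfold dg
        simp only [Nat.cast_id]
        congr 1
        ext v
        simp only [mem_nb, hT, mem_filter, mem_univ, true_and]
        exact ⟨fun hv => ⟨(hHm h hh v hv).1, hv⟩, fun hv => hv.2⟩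
      have e2 : ∀ v ∈ T, (nb R v ∩ H).card = ∑ h ∈ H, if R h v then 1 else 0 := by
        intro v _
        rw [Finset.sum_boole]
        simp only [Nat.cast_id]
        congr 1
        ext h
        simp only [mem_inter, mem_nb, mem_filter]
        exact ⟨fun hh => ⟨hh.2, hsymm _ _ hh.1⟩, fun hh => ⟨hsymm _ _ hh.2, hh.1⟩⟩
      rw [Finset.sum_congr rfl e1, Finset.sum_congr rfl e2, Finset.sum_comm]
    have h3 : ∑ v ∈ T, (nb R v ∩ H).card ≤ ∑ _v ∈ T, m := by
      apply Finset.sum_le_sum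
      intro v _
      by_cases hne : (nb R v ∩ H).Nonempty
      · obtain ⟨h, hh⟩ := hne
        have hh' := mem_inter.mp hh
        have hdm : dg R v = m := (hHm h hh'.2 v (hsymm _ _ (mem_nb.mp hh'.1))).2
        rw [← hdm]
        exact Finset.card_le_card Finset.inter_subset_left
      · rw [Finset.not_nonempty_iff_eq_empty.mp hne]
        simp
    rw [Finset.sum_const, smul_eq_mul] at h3
    calc D * H.card = H.card * D := mul_comm _ _
      _ ≤ _ := h1
      _ = _ := h2
      _ ≤ _ := h3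
      _ = m * T.card := mul_comm _ _
  have hHT4 : H.card ≤ T.card := by
    have h1 : m * H.card ≤ m * T.card := (Nat.mul_le_mul_right _ hmD).trans hHT
    exact Nat.le_of_mul_le_mul_left h1 (by omega)
  have hVm : m + 1 ≤ Fintype.card V := by
    have h1 := hdeg v0
    have h2 : (insert v0 (nb R v0)).card ≤ Fintype.card V := Finset.card_le_univ _
    rw [Finset.card_insert_of_notMem (fun h => hirr v0 (mem_nb.mp h))] at h2
    unfold dg at h1
    omega
  have hT4 : 4 ≤ T.card := by omega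
  -- random signs on the hubs
  have hB : ∀ v : V, nb R v ∩ H ⊆ H := fun v => Finset.inter_subset_right
  have hBc : ∀ v : V, (nb R v ∩ H).card ≤ m := by
    intro v
    by_cases hne : (nb R v ∩ H).Nonempty
    · obtain ⟨h, hh⟩ := hne
      have hh' := mem_inter.mp hh
      have hdm : dg R v = m := (hHm h hh'.2 v (hsymm _ _ (mem_nb.mp hh'.1))).2
      rw [← hdm]
      exact Finset.card_le_card Finset.inter_subset_left
    · rw [Finset.not_nonempty_iff_eq_empty.mp hne]
      simp
  obtain ⟨s0, hs0, hs0sum, hs0W⟩ := signs H (fun v : V => nb R v ∩ H) hB m (by omega) hBc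
    (c * m) (by positivity)
  set W : ℕ := Set.ncard {v : V | c * m < |∑ h ∈ nb R v ∩ H, s0 h|} with hWdef
  have hW : (W : ℝ) ≤ 4 * Real.exp (-(c ^ 2 * m / 2)) * T.card := by
    have h3 : -((c * m) ^ 2) / (2 * m) = -(c ^ 2 * m / 2) := by
      field_simp
    rw [h3] at hs0W
    have h4 : (Fintype.card V : ℝ) ≤ 2 * T.card := by
      have : Fintype.card V ≤ 2 * T.card := by omega
      exact_mod_cast this
    calc (W : ℝ) ≤ 2 * Real.exp (-(c ^ 2 * m / 2)) * Fintype.card V := hs0W
      _ ≤ 2 * Real.exp (-(c ^ 2 * m / 2)) * (2 * T.card) :=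
          mul_le_mul_of_nonneg_left h4 (by positivity)
      _ = _ := by ring
  obtain ⟨s, q, hs, hss0, hq1, hq0, hx0, hx1, hn1⟩ := state R hsymm H J hJ m (k + r) c hc hc8
    (by omega) (by push_cast; exact hkm) hdeg s0 hs0 hBc W (le_refl _)
  push_cast at hx0 hx1
  -- finite sets
  set F : Finset V := univ.filter (fun v => v ∉ H ∧ q v ≠ 0) with hF
  set Z : Finset V := univ.filter (fun v => v ∉ H ∧ s v = 0 ∧ q v = 0) with hZ
  have eF : Set.ncard {v : V | v ∉ H ∧ q v ≠ 0} = F.card := by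
    rw [← Set.ncard_coe_finset]
    congr 1
    ext v
    simp [hF]
  rw [eF] at hn1
  have hsq : ∀ v, s v ≠ 0 → q v ≠ 0 := by
    intro v hv
    rw [hq1 v hv]
    exact div_ne_zero hv two_ne_zero
  have hTZ : T.card ≤ Z.card + F.card := by
    have hsub : T ⊆ Z ∪ F := by
      intro v hv
      have hvH : v ∉ H := (mem_filter.mp hv).2
      simp only [hZ, hF, mem_union, mem_filter, mem_univ, true_and]
      by_cases h : q v = 0
      · left
        refine ⟨hvH, ?_, h⟩
        by_contra h'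
        exact hsq v h' h
      · right
        exact ⟨hvH, h⟩
    exact (Finset.card_le_card hsub).trans (Finset.card_union_le _ _)
  have hdisj : Disjoint H Z := by
    rw [Finset.disjoint_left]
    intro v hv hvZ
    exact (mem_filter.mp hvZ).2.1 hv
  have hn0 : (0 : ℝ) ≤ Fintype.card V := Nat.cast_nonneg _
  have hTn : (T.card : ℝ) ≤ Fintype.card V := by exact_mod_cast (by omega : T.card ≤ _)
  have hEE : Real.exp (-(c ^ 2 * m / 2)) * Real.exp (c ^ 2 / 4 * m) ≤ c ^ 2 / 48 := by
    rw [← Real.exp_add]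
    have : -(c ^ 2 * m / 2) + c ^ 2 / 4 * m = -(c ^ 2 / 4 * m) := by ring
    rw [this]
    exact hE4
  have hHT' : E * H.card ≤ 2 * (m * T.card) := by
    have h1 : (D : ℝ) * H.card ≤ m * T.card := by exact_mod_cast hHT
    have h2 : E / 2 * H.card ≤ D * H.card := mul_le_mul_of_nonneg_right hDhalf (Nat.cast_nonneg _)
    linarith
  have hUT : 11 * (2 * m * H.card) ≤ 4 * T.card := by
    have h1 : (m : ℝ) * (11 * (2 * m * H.card)) ≤ m * (4 * T.card) := by
      have h2 : (11 * (m : ℝ) ^ 2) * H.card ≤ E * H.card :=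
        mul_le_mul_of_nonneg_right hEm2 (Nat.cast_nonneg _)
      calc (m : ℝ) * (11 * (2 * m * H.card)) = 2 * ((11 * (m : ℝ) ^ 2) * H.card) := by ring
        _ ≤ 2 * (E * H.card) := by linarith
        _ ≤ 2 * (2 * (m * T.card)) := by linarith
        _ = _ := by ring
    have h3 : (11 * (2 * m * H.card) : ℝ) ≤ 4 * T.card :=
      le_of_mul_le_mul_left h1 (by linarith)
    exact_mod_cast h3
  -- the giants
  have hHn : (2 * (m : ℝ) + 1) * H.card * E ≤ 6 * (m : ℝ) ^ 2 * Fintype.card V := by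
    have h3 : (m : ℝ) * T.card ≤ m * Fintype.card V :=
      mul_le_mul_of_nonneg_left hTn (by linarith)
    have h4 : E * H.card ≤ 2 * (m * Fintype.card V) := by linarith
    calc (2 * (m : ℝ) + 1) * H.card * E = (2 * (m : ℝ) + 1) * (E * H.card) := by ring
      _ ≤ (3 * m) * (2 * (m * Fintype.card V)) :=
          mul_le_mul (by linarith) h4 (by positivity) (by positivity)
      _ = _ := by ring
  have hFn : 2 * (F.card : ℝ) * E ≤ m * Fintype.card V := by
    have h1 : 2 * c ^ 2 * (F.card : ℝ) ≤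
        4 * Real.exp (-(c ^ 2 * m / 2)) * Fintype.card V := by
      refine hn1.trans (hW.trans ?_)
      exact mul_le_mul_of_nonneg_left hTn (by positivity)
    have hx0 : 0 < Real.exp (-(c ^ 2 * m / 2)) := Real.exp_pos _
    have h2 : Real.exp (-(c ^ 2 * m / 2)) * E ≤ 1 := by
      rw [← hE4']
      apply mul_le_mul_of_nonneg_left _ hx0.le
      calc E = E ^ 1 := (pow_one _).symm
        _ ≤ E ^ 4 := pow_le_pow_right₀ hE1 (by norm_num)
    have h3 : c ^ 2 * (2 * (F.card : ℝ) * E) ≤ 4 * Fintype.card V := by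
      calc c ^ 2 * (2 * (F.card : ℝ) * E) = (2 * c ^ 2 * (F.card : ℝ)) * E := by ring
        _ ≤ (4 * Real.exp (-(c ^ 2 * m / 2)) * Fintype.card V) * E :=
            mul_le_mul_of_nonneg_right h1 hE0.le
        _ = 4 * (Real.exp (-(c ^ 2 * m / 2)) * E) * Fintype.card V := by ring
        _ ≤ 4 * 1 * Fintype.card V := by
            apply mul_le_mul_of_nonneg_right _ hn0
            exact mul_le_mul_of_nonneg_left h2 (by norm_num)
        _ = _ := by ring
    have h4 : c ^ 2 * (2 * (F.card : ℝ) * E) ≤ c ^ 2 * (m * Fintype.card V) := by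
      refine h3.trans ?_
      calc 4 * (Fintype.card V : ℝ) ≤ (c ^ 2 * m) * Fintype.card V :=
            mul_le_mul_of_nonneg_right hcm hn0
        _ = _ := by ring
    exact le_of_mul_le_mul_left h4 hc2pos
  have hserve : ∀ v ∈ H, θ ≤ (dg P v : ℝ) → 2 * m * H.card ≤ (nb P v ∩ Z).card := by
    intro v hvH hvP
    have h1 : dg P v ≤ (nb P v ∩ Z).card + H.card + F.card := by
      have hsub : nb P v ⊆ ((nb P v ∩ Z) ∪ H) ∪ F := by
        intro w hw
        by_cases hwH : w ∈ H
        · exact Finset.mem_union_left _ (Finset.mem_union_right _ hwH)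
        by_cases hwF : w ∈ F
        · exact Finset.mem_union_right _ hwF
        have hwZ : w ∈ Z := by
          simp only [hF, mem_filter, mem_univ, true_and, not_and, not_not] at hwF
          have hq : q w = 0 := hwF hwH
          simp only [hZ, mem_filter, mem_univ, true_and]
          refine ⟨hwH, ?_, hq⟩
          by_contra h'
          exact hsq w h' hq
        exact Finset.mem_union_left _ (Finset.mem_union_left _ (Finset.mem_inter.2 ⟨hw, hwZ⟩))
      have h2 := Finset.card_le_card hsub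
      have h3 := Finset.card_union_le ((nb P v ∩ Z) ∪ H) F
      have h4 := Finset.card_union_le (nb P v ∩ Z) H
      unfold dg
      omega
    have h3 : (2 * m * H.card + H.card + F.card : ℝ) ≤ dg P v := by
      refine le_trans ?_ hvP
      have hFE : (0 : ℝ) ≤ F.card * E := by positivity
      have e1 : (2 * m * H.card + H.card + F.card : ℝ) * E ≤
          (11 * (m : ℝ) ^ 2) * Fintype.card V := by
        have e4 : (m : ℝ) ≤ (m : ℝ) ^ 2 := by nlinarith
        have e5 : (m : ℝ) * Fintype.card V ≤ (m : ℝ) ^ 2 * Fintype.card V :=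
          mul_le_mul_of_nonneg_right e4 hn0
        nlinarith
      have e7 : (11 * (m : ℝ) ^ 2) * Fintype.card V ≤ Real.exp (-L) * E * Fintype.card V := by
        apply mul_le_mul_of_nonneg_right _ hn0
        have e8 : Real.exp (-L) * (11 * (m : ℝ) ^ 2 * Real.exp L) ≤ Real.exp (-L) * E :=
          mul_le_mul_of_nonneg_left hEL (Real.exp_pos _).le
        have e9 : Real.exp (-L) * Real.exp L = 1 := by
          rw [← Real.exp_add]
          simp
        calc 11 * (m : ℝ) ^ 2 = 11 * (m : ℝ) ^ 2 * (Real.exp (-L) * Real.exp L) := by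
              rw [e9, mul_one]
          _ = Real.exp (-L) * (11 * (m : ℝ) ^ 2 * Real.exp L) := by ring
          _ ≤ _ := e8
      have e10 : (2 * m * H.card + H.card + F.card : ℝ) * E ≤ θ * E := by
        calc _ ≤ _ := e1
          _ ≤ _ := e7
          _ = _ := by rw [hθ]; ring
      exact le_of_mul_le_mul_right e10 hE0
    have h4 : 2 * m * H.card + H.card + F.card ≤ dg P v := by exact_mod_cast h3
    omega
  have hFT : 24 * F.card ≤ T.card := by
    have hT0 : (0 : ℝ) ≤ T.card := Nat.cast_nonneg _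
    have h0 : Real.exp (-(c ^ 2 * m / 2)) ≤ c ^ 2 / 48 := by
      refine le_trans ?_ hEE
      calc Real.exp (-(c ^ 2 * m / 2)) = Real.exp (-(c ^ 2 * m / 2)) * 1 := (mul_one _).symm
        _ ≤ _ := mul_le_mul_of_nonneg_left hexp1 (Real.exp_pos _).le
    have h1 : c ^ 2 * (24 * (F.card : ℝ)) ≤ c ^ 2 * T.card := by
      have h2 : 2 * c ^ 2 * (F.card : ℝ) ≤ 4 * Real.exp (-(c ^ 2 * m / 2)) * T.card :=
        hn1.trans hW
      have h3 : 4 * Real.exp (-(c ^ 2 * m / 2)) * T.card ≤ 4 * (c ^ 2 / 48) * T.card :=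
        mul_le_mul_of_nonneg_right (by linarith) hT0
      have h4 : 0 ≤ c ^ 2 * (T.card : ℝ) := by positivity
      nlinarith
    have h5 : (24 * F.card : ℝ) ≤ T.card := le_of_mul_le_mul_left h1 hc2pos
    exact_mod_cast h5
  have hKex : ∀ U : Finset V, U.card ≤ 2 * m * H.card → ∀ N : ℕ, N ≤ 3 * F.card + 2 →
      ∃ K : Finset V, K ⊆ Z \ U ∧ K.card = N ∧ ∀ v, v ∉ H → (nb R v ∩ K).card ≤ 2 := by
    intro U hUc N hN2
    have hZU : Z.card ≤ (Z \ U).card + U.card := by
      have := Finset.le_card_sdiff U Z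
      omega
    by_cases hW0 : W = 0
    · have hF0' : F.card = 0 := by
        rw [hW0] at hn1
        have h1 : (F.card : ℝ) ≤ 0 := by
          by_contra h
          rw [not_le] at h
          have : 0 < 2 * c ^ 2 * (F.card : ℝ) := by positivity
          simp only [Nat.cast_zero] at hn1
          linarith
        exact_mod_cast le_antisymm h1 (Nat.cast_nonneg _)
      have hNZ : N ≤ (Z \ U).card := by omega
      obtain ⟨K, hKZ, hKc⟩ := Finset.exists_subset_card_eq hNZ
      refine ⟨K, hKZ, hKc, fun v _ => ?_⟩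
      refine (Finset.card_le_card Finset.inter_subset_right).trans ?_
      omega
    · have hW1 : (1 : ℝ) ≤ W := by exact_mod_cast Nat.one_le_iff_ne_zero.mpr hW0
      have hNR : (N : ℝ) * c ^ 2 ≤ 2 * W := by
        have h1 : (N : ℝ) ≤ 3 * F.card + 2 := by exact_mod_cast hN2
        have h2 : (N : ℝ) * c ^ 2 ≤ (3 * F.card + 2) * c ^ 2 :=
          mul_le_mul_of_nonneg_right h1 (by positivity)
        nlinarith
      have hDR : (D : ℝ) ^ 2 + 2 ≤ 3 * Real.exp (c ^ 2 / 4 * m) := by linarith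
      have hND : 2 * ((N : ℝ) * ((D : ℝ) ^ 2 + 2)) ≤ T.card := by
        have hT0 : (0 : ℝ) ≤ T.card := Nat.cast_nonneg _
        have h1 : (N : ℝ) * c ^ 2 * ((D : ℝ) ^ 2 + 2) ≤ T.card / 2 * c ^ 2 := by
          calc (N : ℝ) * c ^ 2 * ((D : ℝ) ^ 2 + 2)
              ≤ (2 * W) * (3 * Real.exp (c ^ 2 / 4 * m)) :=
                mul_le_mul hNR hDR (by positivity) (by positivity)
            _ ≤ (2 * (4 * Real.exp (-(c ^ 2 * m / 2)) * T.card)) *
                (3 * Real.exp (c ^ 2 / 4 * m)) :=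
                mul_le_mul_of_nonneg_right (by linarith) (by positivity)
            _ = 24 * (Real.exp (-(c ^ 2 * m / 2)) * Real.exp (c ^ 2 / 4 * m)) * T.card := by ring
            _ ≤ 24 * (c ^ 2 / 48) * T.card := by
                apply mul_le_mul_of_nonneg_right _ hT0
                exact mul_le_mul_of_nonneg_left hEE (by norm_num)
            _ = T.card / 2 * c ^ 2 := by ring
        have h2 : (N : ℝ) * ((D : ℝ) ^ 2 + 2) * c ^ 2 ≤ T.card / 2 * c ^ 2 := by
          calc (N : ℝ) * ((D : ℝ) ^ 2 + 2) * c ^ 2 = (N : ℝ) * c ^ 2 * ((D : ℝ) ^ 2 + 2) := by ring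
            _ ≤ _ := h1
        have h3 := le_of_mul_le_mul_right h2 hc2pos
        linarith
      have hND' : 2 * (N * (D ^ 2 + 2)) ≤ T.card := by exact_mod_cast hND
      have h5 : N * (D ^ 2 + 2) = N * (D ^ 2 + 1) + N := by ring
      have hNZ : N * (D ^ 2 + 1) ≤ (Z \ U).card := by omega
      obtain ⟨K, hKZ, hKc, hK⟩ := Pool.Agent.helper40.Bis.greedy R hsymm H Z (Z \ U) hdisj
        Finset.sdiff_subset D hDle N hNZ N le_rfl
      refine ⟨K, hKZ, hKc, fun v hv => ?_⟩
      have : (nb R v ∩ K).card ≤ 1 := by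
        rw [Finset.card_le_one]
        intro a ha b hb
        rw [mem_inter, mem_nb] at ha hb
        exact hK v hv a ha.2 b hb.2 ha.1 hb.1
      omega
  have hFH : ∑ v ∈ F, (nb R v ∩ H).card ≤ F.card * m := by
    rw [← smul_eq_mul]
    exact Finset.sum_le_card_nsmul _ _ _ (fun v _ => hBc v)
  obtain ⟨e, he1, he2, he3⟩ := finish_h P R hRP hsymm J hJ m k r D c hc hc8 hm1 hm4 hD5m h2k hdeg θ X hX
    H (fun v => by simp [hH]) (fun h hh v hv => (hHm h hh v hv).1) s0 s q hs0 hs0sum hs hss0 hq1 hq0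
    hx0 hx1 F Z (fun v => by simp [hF]) (fun v => by simp [hZ]) hFH hserve hKex
    (by
      have hDR : 2 * (D : ℝ) * (2 * D + 1) + 1 ≤ 7 * Real.exp (c ^ 2 / 4 * m) := by
        have h1 : (D : ℝ) ≤ (D : ℝ) ^ 2 := by nlinarith
        have h2 : (1 : ℝ) ≤ (D : ℝ) ^ 2 := by nlinarith
        nlinarith
      calc 4 * (2 * Real.exp (-(c ^ 2 * m / 2))) * (2 * (D : ℝ) * (2 * D + 1) + 1)
          ≤ 4 * (2 * Real.exp (-(c ^ 2 * m / 2))) * (7 * Real.exp (c ^ 2 / 4 * m)) :=
            mul_le_mul_of_nonneg_left hDR (by positivity)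
        _ = 56 * (Real.exp (-(c ^ 2 * m / 2)) * Real.exp (c ^ 2 / 4 * m)) := by ring
        _ ≤ 56 * (c ^ 2 / 48) := mul_le_mul_of_nonneg_left hEE (by norm_num)
        _ ≤ 1 := by linarith)
  refine ⟨e, he1, he2, he3, ?_⟩
  have eH : Set.ncard {v : V | D < dg R v} = H.card := by
    rw [← Set.ncard_coe_finset]
    congr 1
    ext v
    simp [hH]
  rw [eH]
  exact hHT.trans (Nat.mul_le_mul_left _ (by omega))

end Pool.Agent.helper14.LE
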