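import Pool.Agent.helper2.Bis.Defs
import Pool.Agent.helper66.TGood

set_option autoImplicit false

/-!
# The fractional state of the low vertices (from the screening lemma of helper66)
-/

namespace Pool.Agent.helper14.LE

open Finset Pool.Agent.helper2.Bis

theorem state {V : Type} [Fintype V] [DecidableEq V] (R : V → V → Prop)
    (hsymm : ∀ u v, R u v → R v u) (H : Finset V) (J : ℝ) (hJ : J = 1 ∨ J = -1) (m k : ℕ)
    (c : ℝ) (hc : 0 < c) (hc8 : c ≤ 1 / 8) (hm : 1 ≤ m) (hkm : (k : ℝ) ≤ (1 / 2 - 3 * c) * m)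
    (hdeg : ∀ v, m ≤ dg R v)
    (s0 : V → ℝ) (hs0 : ∀ h, s0 h = 1 ∨ s0 h = -1)
    (hBc : ∀ v : V, (nb R v ∩ H).card ≤ m) (W : ℕ)
    (hW : Set.ncard {v : V | c * m < |∑ h ∈ nb R v ∩ H, s0 h|} ≤ W) :
    ∃ s q : V → ℝ, (∀ v, s v = 1 ∨ s v = -1 ∨ s v = 0) ∧ (∀ h ∈ H, s h = s0 h) ∧
      (∀ v, s v ≠ 0 → q v = s v / 2) ∧ (∀ v, s v = 0 → |q v| ≤ 1 / 2) ∧
      (∀ v, v ∉ H → s v = 0 →
        |J * ∑ w ∈ nb R v, q w| ≤ (dg R v : ℝ) / 2 - k - c * dg R v) ∧
      (∀ v, v ∉ H → s v ≠ 0 →
        -((dg R v : ℝ) / 2 - k - c * dg R v) ≤ s v * (J * ∑ w ∈ nb R v, q w)) ∧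
      2 * c ^ 2 * (Set.ncard {v : V | v ∉ H ∧ q v ≠ 0} : ℝ) ≤ W := by
  classical
  have hJ2 : |J| = 1 := by rcases hJ with rfl | rfl <;> simp
  have hmR : (1 : ℝ) ≤ m := by exact_mod_cast hm
  set hs : V → ℝ := fun v => ∑ h ∈ nb R v ∩ H, s0 h with hhs
  have hhsm : ∀ v, |hs v| ≤ m := by
    intro v
    have h1 : |hs v| ≤ ((nb R v ∩ H).card : ℝ) := by
      refine (Finset.abs_sum_le_sum_abs _ _).trans ?_
      have : ∀ w ∈ nb R v ∩ H, |s0 w| ≤ 1 := fun w _ => by
        rcases hs0 w with h | h <;> rw [h] <;> norm_num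
      refine (Finset.sum_le_card_nsmul _ _ _ this).trans (le_of_eq ?_)
      simp
    have h2 : ((nb R v ∩ H).card : ℝ) ≤ m := by exact_mod_cast hBc v
    linarith
  set τ : ℝ := (1 - 4 * c) * m - 2 * k with hτdef
  have hτ1 : 2 * c * m ≤ τ := by rw [hτdef]; nlinarith
  have hτ : 0 < τ := lt_of_lt_of_le (by positivity) hτ1
  obtain ⟨x, hx1, hxs, hxg⟩ := Pool.Agent.helper66.Brouwer.screening
    (ι := {v : V // v ∉ H}) (fun i j => if R i.1 j.1 then J else 0)
    (fun i j => by
      by_cases h : R i.1 j.1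
      · simp [h, hsymm _ _ h]
      · have h' : ¬ R j.1 i.1 := fun h' => h (hsymm _ _ h')
        simp [h, h'])
    (fun i => if c * m < |hs i.1| then J * hs i.1 else 0) τ hτ
  -- extension to all vertices
  set x0 : V → ℝ := fun v => if hv : v ∈ H then 0 else x ⟨v, hv⟩ with hx0
  have hx0H : ∀ v, v ∈ H → x0 v = 0 := fun v hv => by simp [hx0, hv]
  have hx0T : ∀ (v : V) (hv : v ∉ H), x0 v = x ⟨v, hv⟩ := fun v hv => by simp [hx0, hv]
  have hx01 : ∀ v, |x0 v| ≤ 1 := by
    intro v
    by_cases hv : v ∈ H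
    · rw [hx0H v hv]; norm_num
    · rw [hx0T v hv]; exact hx1 _
  have hsumι : ∀ f : V → ℝ, (∀ v ∈ H, f v = 0) →
      ∑ i : {v : V // v ∉ H}, f i.1 = ∑ v, f v := by
    intro f hf
    have h1 : ∑ v ∈ univ.filter (fun v => v ∉ H), f v = ∑ i : {v : V // v ∉ H}, f i.1 :=
      Finset.sum_subtype _ (by simp) f
    rw [← h1, Finset.sum_filter]
    refine Finset.sum_congr rfl fun v _ => ?_
    by_cases hv : v ∈ H
    · simp [hv, hf v hv]
    · simp [hv]
  have hAx : ∀ (v : V) (hv : v ∉ H), ∑ j : {v : V // v ∉ H}, (if R v j.1 then J else 0) * x j =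
      J * ∑ w ∈ nb R v, x0 w := by
    intro v hv
    have h1 : ∑ j : {v : V // v ∉ H}, (if R v j.1 then J else 0) * x j =
        ∑ j : {v : V // v ∉ H}, (if R v j.1 then J else 0) * x0 j.1 :=
      Finset.sum_congr rfl fun j _ => by rw [hx0T j.1 j.2]
    rw [h1, hsumι (fun w => (if R v w then J else 0) * x0 w) (fun w hw => by
      simp [hx0H w hw]), Finset.mul_sum]
    unfold nb
    rw [Finset.sum_filter]
    refine Finset.sum_congr rfl fun w _ => ?_
    split_ifs <;> simp
  -- truncation
  set x' : V → ℝ := fun v => if c < |x0 v| then x0 v else 0 with hx'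
  have hx'H : ∀ v, v ∈ H → x' v = 0 := fun v hv => by
    simp only [hx', hx0H v hv]
    split_ifs <;> rfl
  have hx'1 : ∀ v, |x' v| ≤ 1 := by
    intro v
    simp only [hx']
    split_ifs
    · exact hx01 v
    · simp
  have hx'd : ∀ v, |x' v - x0 v| ≤ c := by
    intro v
    simp only [hx']
    split_ifs with h
    · simp [hc.le]
    · rw [zero_sub, abs_neg]
      exact not_lt.1 h
  have hx'e : ∀ v, |x0 v| = 1 → x' v = x0 v := by
    intro v hv
    simp only [hx']
    rw [if_pos]
    rw [hv]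
    linarith
  set s : V → ℝ := fun v => if v ∈ H then s0 v else if x' v = 1 then 1 else
    if x' v = -1 then -1 else 0 with hsdef
  set q : V → ℝ := fun v => if v ∈ H then s0 v / 2 else x' v / 2 with hqdef
  have hsH : ∀ v, v ∈ H → s v = s0 v := fun v hv => by simp [hsdef, hv]
  have hqH : ∀ v, v ∈ H → q v = s0 v / 2 := fun v hv => by simp [hqdef, hv]
  have hqT : ∀ v, v ∉ H → q v = x' v / 2 := fun v hv => by simp [hqdef, hv]
  -- fields
  have hfield : ∀ (v : V) (hv : v ∉ H),
      |2 * (J * ∑ w ∈ nb R v, q w) - ((if c * m < |hs v| then J * hs v else 0) +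
        ∑ j : {v : V // v ∉ H}, (if R v j.1 then J else 0) * x j)| ≤ 2 * c * dg R v := by
    intro v hv
    rw [hAx v hv]
    have hdm : (m : ℝ) ≤ dg R v := by exact_mod_cast hdeg v
    have e1 : 2 * (J * ∑ w ∈ nb R v, q w) = J * hs v + J * ∑ w ∈ nb R v, x' w := by
      have e2 : ∑ w ∈ nb R v, q w = (∑ w ∈ nb R v, (if w ∈ H then s0 w else 0)) / 2 +
          (∑ w ∈ nb R v, x' w) / 2 := by
        rw [Finset.sum_div, Finset.sum_div, ← Finset.sum_add_distrib]
        refine Finset.sum_congr rfl fun w _ => ?_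
        by_cases hw : w ∈ H
        · rw [hqH w hw, hx'H w hw, if_pos hw]; ring
        · rw [hqT w hw, if_neg hw]; ring
      rw [e2, Finset.sum_ite_mem]
      simp only [hhs]
      ring
    have e3 : |J * hs v - (if c * m < |hs v| then J * hs v else 0)| ≤ c * m := by
      split_ifs with h
      · rw [sub_self, abs_zero]; positivity
      · rw [sub_zero, abs_mul, hJ2, one_mul]
        exact not_lt.1 h
    have e4 : |J * ∑ w ∈ nb R v, x' w - J * ∑ w ∈ nb R v, x0 w| ≤ c * dg R v := by
      rw [← mul_sub, ← Finset.sum_sub_distrib, abs_mul, hJ2, one_mul]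
      refine (Finset.abs_sum_le_sum_abs _ _).trans ?_
      refine (Finset.sum_le_card_nsmul _ _ _ (fun w _ => hx'd w)).trans (le_of_eq ?_)
      unfold dg
      rw [nsmul_eq_mul]
      ring
    have e5 : 2 * (J * ∑ w ∈ nb R v, q w) - ((if c * m < |hs v| then J * hs v else 0) +
        J * ∑ w ∈ nb R v, x0 w) = (J * hs v - (if c * m < |hs v| then J * hs v else 0)) +
        (J * ∑ w ∈ nb R v, x' w - J * ∑ w ∈ nb R v, x0 w) := by
      rw [e1]; ring
    rw [e5]
    refine (abs_add_le _ _).trans ?_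
    have : c * m ≤ c * dg R v := mul_le_mul_of_nonneg_left hdm hc.le
    linarith
  have hmain : ∀ v : V, τ / 2 + c * dg R v ≤ (dg R v : ℝ) / 2 - k - c * dg R v := by
    intro v
    have hdm : (m : ℝ) ≤ dg R v := by exact_mod_cast hdeg v
    rw [hτdef]
    nlinarith
  refine ⟨s, q, ?_, hsH, ?_, ?_, ?_, ?_, ?_⟩
  · intro v
    simp only [hsdef]
    split_ifs
    · rcases hs0 v with h | h
      · exact Or.inl h
      · exact Or.inr (Or.inl h)
    · exact Or.inl rfl
    · exact Or.inr (Or.inl rfl)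
    · exact Or.inr (Or.inr rfl)
  · intro v
    simp only [hsdef, hqdef]
    split_ifs with h1 h2 h3
    · intro _; rfl
    · intro _; rw [h2]
    · intro _; rw [h3]
    · intro h; exact absurd rfl h
  · intro v
    simp only [hsdef, hqdef]
    split_ifs with h1 h2 h3
    · intro h
      rcases hs0 v with h' | h' <;> rw [h'] at h <;> norm_num at h
    · intro h; norm_num at h
    · intro h; norm_num at h
    · intro _
      rw [abs_div, abs_two]
      have := hx'1 v
      linarith
  · intro v hv hsv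
    have h1 := hfield v hv
    have hx'ne1 : x' v ≠ 1 := by
      intro h
      simp only [hsdef] at hsv
      rw [if_neg hv, if_pos h] at hsv
      norm_num at hsv
    have hx'ne2 : x' v ≠ -1 := by
      intro h
      simp only [hsdef] at hsv
      rw [if_neg hv, if_neg hx'ne1, if_pos h] at hsv
      norm_num at hsv
    have hxne1 : x ⟨v, hv⟩ ≠ 1 := by
      intro h
      apply hx'ne1
      rw [hx'e v (by rw [hx0T v hv, h]; norm_num), hx0T v hv, h]
    have hxne2 : x ⟨v, hv⟩ ≠ -1 := by
      intro h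
      apply hx'ne2
      rw [hx'e v (by rw [hx0T v hv, h]; norm_num), hx0T v hv, h]
    have h2 := hxg ⟨v, hv⟩
    have h3 := not_lt.1 (mt h2.1 hxne1)
    have h4 := not_lt.1 (mt h2.2 hxne2)
    simp only at h3 h4
    have h5 := abs_le.1 h1
    have h6 := hmain v
    rw [abs_le]
    constructor <;> linarith [h5.1, h5.2]
  · intro v hv hsv
    have h1 := hfield v hv
    have h2 := hxg ⟨v, hv⟩
    have h5 := abs_le.1 h1
    have h6 := hmain v
    simp only [hsdef] at hsv ⊢
    rw [if_neg hv] at hsv ⊢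
    have hx'x : ∀ a : ℝ, a ≠ 0 → x' v = a → x0 v = a := by
      intro a ha h
      simp only [hx'] at h
      split_ifs at h with h'
      · exact h
      · exact absurd h.symm ha
    split_ifs at hsv ⊢ with h7 h8
    · have h9 : x ⟨v, hv⟩ = 1 := by rw [← hx0T v hv]; exact hx'x 1 one_ne_zero h7
      have h10 : ¬ ((if c * m < |hs v| then J * hs v else 0) +
        ∑ j : {v : V // v ∉ H}, (if R v j.1 then J else 0) * x j < -τ) := by
        intro h
        have := h2.2 h
        rw [h9] at this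
        norm_num at this
      have h11 := not_lt.1 h10
      linarith [h5.1, h5.2]
    · have h9 : x ⟨v, hv⟩ = -1 := by
        rw [← hx0T v hv]; exact hx'x (-1) (by norm_num) h8
      have h10 : ¬ (τ < (if c * m < |hs v| then J * hs v else 0) +
        ∑ j : {v : V // v ∉ H}, (if R v j.1 then J else 0) * x j) := by
        intro h
        have := h2.1 h
        rw [h9] at this
        norm_num at this
      have h11 := not_lt.1 h10
      linarith [h5.1, h5.2]
    · exact absurd rfl hsv
  · -- counting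
    have hSig : τ * ∑ i : {v : V // v ∉ H}, |x i| ≤ m * W := by
      refine hxs.trans ?_
      have h1 : ∑ i : {v : V // v ∉ H}, |(if c * m < |hs i.1| then J * hs i.1 else 0)| ≤
          ∑ i : {v : V // v ∉ H}, (if c * m < |hs i.1| then (m : ℝ) else 0) := by
        refine Finset.sum_le_sum fun i _ => ?_
        split_ifs
        · rw [abs_mul, hJ2, one_mul]
          exact hhsm i.1
        · simp
      refine h1.trans ?_
      have h2 : ∑ i : {v : V // v ∉ H}, (if c * m < |hs i.1| then (m : ℝ) else 0) ≤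
          ∑ v : V, (if c * m < |hs v| then (m : ℝ) else 0) := by
        have h3 : ∑ v ∈ univ.filter (fun v => v ∉ H), (if c * m < |hs v| then (m : ℝ) else 0) =
            ∑ i : {v : V // v ∉ H}, (if c * m < |hs i.1| then (m : ℝ) else 0) :=
          Finset.sum_subtype _ (by simp) (fun v => if c * m < |hs v| then (m : ℝ) else 0)
        rw [← h3]
        refine Finset.sum_le_sum_of_subset_of_nonneg (Finset.subset_univ _) fun v _ _ => ?_
        split_ifs
        · positivity
        · exact le_refl _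
      refine h2.trans ?_
      rw [← Finset.sum_filter, Finset.sum_const, nsmul_eq_mul, mul_comm]
      have h4 : ((univ.filter (fun v : V => c * m < |hs v|)).card : ℝ) ≤ W := by
        have : (univ.filter (fun v : V => c * m < |hs v|)).card =
            Set.ncard {v : V | c * m < |∑ h ∈ nb R v ∩ H, s0 h|} := by
          rw [← Set.ncard_coe_finset]
          congr 1
          ext v
          simp [hhs]
        rw [this]
        exact_mod_cast hW
      exact mul_le_mul_of_nonneg_left h4 (by positivity)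
    have hcount : c * (Set.ncard {v : V | v ∉ H ∧ q v ≠ 0} : ℝ) ≤
        ∑ i : {v : V // v ∉ H}, |x i| := by
      have e1 : Set.ncard {v : V | v ∉ H ∧ q v ≠ 0} =
          (univ.filter (fun v => v ∉ H ∧ q v ≠ 0)).card := by
        rw [← Set.ncard_coe_finset]
        congr 1
        ext v
        simp
      have e2 : ∑ i : {v : V // v ∉ H}, |x i| = ∑ v, |x0 v| := by
        rw [← hsumι (fun v => |x0 v|) (fun v hv => by simp [hx0H v hv])]
        exact Finset.sum_congr rfl fun i _ => by rw [hx0T i.1 i.2]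
      rw [e1, e2]
      have e3 : c * ((univ.filter (fun v => v ∉ H ∧ q v ≠ 0)).card : ℝ) ≤
          ∑ v ∈ univ.filter (fun v => v ∉ H ∧ q v ≠ 0), |x0 v| := by
        rw [mul_comm, ← nsmul_eq_mul]
        refine Finset.card_nsmul_le_sum _ _ _ fun v hv => ?_
        have h1 := (Finset.mem_filter.1 hv).2
        have h2 : x' v ≠ 0 := by
          intro h
          apply h1.2
          rw [hqT v h1.1, h, zero_div]
        by_contra h3
        apply h2
        simp only [hx']
        rw [if_neg]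
        intro h4
        exact h3 h4.le
      refine e3.trans ?_
      exact Finset.sum_le_sum_of_subset_of_nonneg (Finset.subset_univ _)
        fun v _ _ => abs_nonneg _
    have hX0 : 0 ≤ ∑ i : {v : V // v ∉ H}, |x i| :=
      Finset.sum_nonneg fun i _ => abs_nonneg _
    have h1 : 2 * c * m * ∑ i : {v : V // v ∉ H}, |x i| ≤ m * W :=
      (mul_le_mul_of_nonneg_right hτ1 hX0).trans hSig
    have h2 : 2 * c * ∑ i : {v : V // v ∉ H}, |x i| ≤ W := by
      have h3 : (m : ℝ) * (2 * c * ∑ i : {v : V // v ∉ H}, |x i|) ≤ m * W := by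
        calc (m : ℝ) * (2 * c * ∑ i : {v : V // v ∉ H}, |x i|) =
            2 * c * m * ∑ i : {v : V // v ∉ H}, |x i| := by ring
          _ ≤ _ := h1
      exact le_of_mul_le_mul_left h3 (by linarith)
    have h3 : 2 * c * (c * (Set.ncard {v : V | v ∉ H ∧ q v ≠ 0} : ℝ)) ≤
        2 * c * ∑ i : {v : V // v ∉ H}, |x i| :=
      mul_le_mul_of_nonneg_left hcount (by positivity)
    calc 2 * c ^ 2 * (Set.ncard {v : V | v ∉ H ∧ q v ≠ 0} : ℝ) =
        2 * c * (c * (Set.ncard {v : V | v ∉ H ∧ q v ≠ 0} : ℝ)) := by ring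
      _ ≤ _ := h3
      _ ≤ _ := h2

end Pool.Agent.helper14.LE
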