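import Pool.Agent.helper57.BisM.Num
import Pool.Agent.helper33.Bis.AssembleMM
import Pool.Agent.helper14.LE.StateN
import Pool.Agent.helper15.Bis.Signs

set_option autoImplicit false

/-!
# Exact bisections that are good at all low vertices, at a set `S` of hubs and at the giants, if
bootstrap percolation in the low part, started at vertices with many neighbours in `S`, is bounded at
one scale, which may be macroscopic
-/

namespace Pool.Agent.helper14.LE

open Finset Pool.Agent.helper2.Bis Pool.Agent.helper83.Bis Pool.Agent.helper57.BisM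

/-- exact bisections of (spanning subgraphs) `R`, edge-minimal of minimum degree `m`: good at all
vertices of `R`-degree at most `exp (5 L)`, at all `S`, at all giants -/
theorem core_n (c L ω : ℝ) (hc : 0 < c) (hc32 : c ≤ 1 / 32) (hL : 1 ≤ L) (m k : ℕ)
    (hmL : (m : ℝ) ≤ Real.exp L) (hcm : 32768 * L ≤ c * m) (hc2m : 512 * L ≤ c ^ 2 * m)
    (hkm : (k : ℝ) ≤ (1 / 2 - 12 * c) * m)
    (hω1 : Real.exp (-(100 * L)) ≤ ω) (hω2 : ω ≤ c / 128)
    (V : Type) [Fintype V] [DecidableEq V] (P R : V → V → Prop) (hRP : ∀ u v, R u v → P u v)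
    (hsymm : ∀ u v, R u v → R v u) (hirr : ∀ v, ¬ R v v)
    (hdeg : ∀ v, m ≤ dg R v) (hedge : ∀ u v, R u v → dg R u = m ∨ dg R v = m)
    (S Q : Finset V) (hS : ∀ u ∈ S, ⌊Real.exp (5 * L)⌋₊ < dg R u)
    (hQ : ∀ v ∈ Q, dg R v ≤ ⌊Real.exp (5 * L)⌋₊)
    (hpoor : ∀ v, v ∉ Q → dg R v ≤ ⌊Real.exp (5 * L)⌋₊ →
      ((nb R v ∩ (Q ∪ S)).card : ℝ) ≤ c * m)
    (hull : ∀ Z ⊆ Q, (∀ v ∈ Z, c * m / 2 < ((nb R v ∩ S).card : ℝ)) →
      (Z.card : ℝ) ≤ Real.exp (-(2 * L)) * ω * Fintype.card V →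
      ∃ W : Finset V, Z ⊆ W ∧ (W.card : ℝ) ≤ ω * Fintype.card V ∧
        ∀ v ∈ Q, v ∉ W → ((nb R v ∩ W).card : ℝ) < c * m / 2)
    (J : ℝ) (hJ : J = 1 ∨ J = -1) :
    ∃ e : V → ℝ, (∀ v, e v = 1 ∨ e v = -1) ∧ |∑ v, e v| ≤ 1 ∧
      (∀ v, (dg R v ≤ ⌊Real.exp (5 * L)⌋₊ ∨ v ∈ S ∨
          max (Real.exp (-L)) (4 * ω) * Fintype.card V ≤ (dg P v : ℝ)) →
        k ≤ ((nb P v).filter (fun w => J * e v * e w = 1)).card) := by
  classical
  obtain ⟨D, hDdef⟩ : ∃ D : ℕ, D = ⌊Real.exp (5 * L)⌋₊ := ⟨_, rfl⟩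
  rw [← hDdef] at hS hQ hpoor
  simp only [← hDdef]
  -- the constants
  have hcmpos : 0 < c * m := by linarith
  have hmpos : (0 : ℝ) < m := by
    by_contra hcon
    rw [not_lt] at hcon
    have : c * (m : ℝ) ≤ 0 := mul_nonpos_of_nonneg_of_nonpos hc.le hcon
    linarith
  have hm1 : 1 ≤ m := by
    have : 0 < m := by exact_mod_cast hmpos
    omega
  have hm1R : (1 : ℝ) ≤ m := by exact_mod_cast hm1
  have hm20 : 1048576 ≤ (m : ℝ) := by
    have h1 : c * (m : ℝ) ≤ 1 / 32 * m := mul_le_mul_of_nonneg_right hc32 hmpos.le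
    linarith
  have hX : (1024 : ℝ) ≤ Real.exp L := by linarith
  have hm4096' : 4096 ≤ m := by
    have : (4096 : ℝ) ≤ m := by linarith
    exact_mod_cast this
  have hDu : (D : ℝ) ≤ Real.exp (5 * L) := by
    rw [hDdef]
    exact Nat.floor_le (Real.exp_pos _).le
  have hXpow : Real.exp (5 * L) = Real.exp L ^ 5 := by
    rw [← Real.exp_nat_mul]
    push_cast
    ring_nf
  have hDl : Real.exp (5 * L) ≤ 2 * D := by
    have h1 : Real.exp (5 * L) < D + 1 := by
      rw [hDdef]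
      exact Nat.lt_floor_add_one _
    have h2 : (1024 : ℝ) ^ 5 ≤ Real.exp L ^ 5 := pow_le_pow_left₀ (by norm_num) hX 5
    rw [← hXpow] at h2
    norm_num at h2
    linarith
  have hDpos : (0 : ℝ) < D := by
    have := Real.exp_pos (5 * L)
    linarith
  have hDm4 : 4096 * (m : ℝ) * Real.exp L ≤ D := by
    have h1 : Real.exp (5 * L) = Real.exp L ^ 3 * (Real.exp L * Real.exp L) := by
      rw [hXpow]
      ring
    have h2 : (m : ℝ) * Real.exp L ≤ Real.exp L * Real.exp L :=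
      mul_le_mul_of_nonneg_right hmL (Real.exp_pos _).le
    have h3 : (1024 : ℝ) ^ 3 ≤ Real.exp L ^ 3 := pow_le_pow_left₀ (by norm_num) hX 3
    have h4 : (1024 : ℝ) ^ 3 * (m * Real.exp L) ≤ Real.exp L ^ 3 * (Real.exp L * Real.exp L) :=
      mul_le_mul h3 h2 (by positivity) (by positivity)
    rw [← h1] at h4
    norm_num at h4
    have h5 : 0 ≤ (m : ℝ) * Real.exp L := by positivity
    linarith
  have hmD' : 4096 * (m : ℝ) ≤ D := by
    have h1 : 4096 * (m : ℝ) * 1 ≤ 4096 * (m : ℝ) * Real.exp L :=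
      mul_le_mul_of_nonneg_left (by linarith) (by positivity)
    linarith
  have hmD : 2 * m ≤ D := by
    have h1 : 2 * (m : ℝ) ≤ D := by linarith
    exact_mod_cast h1
  have hD4 : 4 ≤ D := by omega
  have h2k : 2 * k ≤ m := by
    have : 2 * (k : ℝ) ≤ m := by nlinarith
    exact_mod_cast this
  have hc2pos : 0 < c ^ 2 := by positivity
  have hm4 : 4 / (c / 2) ^ 2 ≤ (m : ℝ) := by
    rw [div_le_iff₀ (by positivity)]
    have : (m : ℝ) * (c / 2) ^ 2 = c ^ 2 * m / 4 := by ring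
    rw [this]
    linarith
  have hDle : (D : ℝ) ≤ Real.exp ((c / 2) ^ 2 / 8 * m) := by
    refine hDu.trans (Real.exp_le_exp.2 ?_)
    have : (c / 2) ^ 2 / 8 * (m : ℝ) = c ^ 2 * m / 32 := by ring
    rw [this]
    linarith
  -- the trivial case
  by_cases hV : IsEmpty V
  · refine ⟨fun _ => 1, fun _ => Or.inl rfl, ?_, fun v => (hV.false v).elim⟩
    simp
  rw [not_isEmpty_iff] at hV
  obtain ⟨v0⟩ := hV
  -- hubs
  set H : Finset V := univ.filter (fun v => D < dg R v) with hH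
  have hHm' : ∀ h ∈ H, ∀ v, R h v → v ∉ H ∧ dg R v = m := by
    intro h hh v hv
    have h1 : D < dg R h := (mem_filter.mp hh).2
    have h2 : dg R v = m := by
      rcases hedge h v hv with h3 | h3
      · omega
      · exact h3
    refine ⟨?_, h2⟩
    intro h3
    have := (mem_filter.mp h3).2
    omega
  have hDlow : ∀ v, v ∉ H → dg R v ≤ D := by
    intro v hv
    by_contra hcon
    exact hv (mem_filter.mpr ⟨mem_univ _, by omega⟩)
  set T : Finset V := univ.filter (fun v => v ∉ H) with hT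
  have hTH : T.card + H.card = Fintype.card V := by
    have := Finset.card_filter_add_card_filter_not (s := (univ : Finset V)) (fun v => v ∉ H)
    have e : univ.filter (fun v => ¬ (v ∉ H)) = H := by ext v; simp
    rw [e] at this
    exact this
  have hBc : ∀ v : V, (nb R v ∩ H).card ≤ m := by
    intro v
    by_cases hne : (nb R v ∩ H).Nonempty
    · obtain ⟨h, hh⟩ := hne
      have hh' := mem_inter.mp hh
      have hdm : dg R v = m := (hHm' h hh'.2 v (hsymm _ _ (mem_nb.mp hh'.1))).2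
      rw [← hdm]
      exact Finset.card_le_card Finset.inter_subset_left
    · rw [Finset.not_nonempty_iff_eq_empty.mp hne]
      simp
  -- number of hubs
  have hHT : D * H.card ≤ m * T.card := by
    have h1 : H.card * D ≤ ∑ h ∈ H, dg R h := by
      rw [← smul_eq_mul]
      exact Finset.card_nsmul_le_sum _ _ _ (fun h hh => (mem_filter.mp hh).2.le)
    have h2 : ∑ h ∈ H, dg R h = ∑ v ∈ T, (nb R v ∩ H).card := by
      have e1 : ∀ h ∈ H, dg R h = ∑ v ∈ T, if R h v then 1 else 0 := by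
        intro h hh
        rw [Finset.sum_boole]
        unfold dg
        simp only [Nat.cast_id]
        congr 1
        ext v
        simp only [mem_nb, hT, mem_filter, mem_univ, true_and]
        exact ⟨fun hv => ⟨(hHm' h hh v hv).1, hv⟩, fun hv => hv.2⟩
      have e2 : ∀ v ∈ T, (nb R v ∩ H).card = ∑ h ∈ H, if R h v then 1 else 0 := by
        intro v _
        rw [Finset.sum_boole]
        simp only [Nat.cast_id]
        congr 1
        ext h
        simp only [mem_inter, mem_nb, mem_filter]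
        exact ⟨fun hh => ⟨hh.2, hsymm _ _ hh.1⟩, fun hh => ⟨hsymm _ _ hh.2, hh.1⟩⟩
      rw [Finset.sum_congr rfl e1, Finset.sum_congr rfl e2, Finset.sum_comm]
    have h3 : ∑ v ∈ T, (nb R v ∩ H).card ≤ ∑ _v ∈ T, m :=
      Finset.sum_le_sum (fun v _ => hBc v)
    rw [Finset.sum_const, smul_eq_mul] at h3
    calc D * H.card = H.card * D := mul_comm _ _
      _ ≤ _ := h1
      _ = _ := h2
      _ ≤ _ := h3
      _ = m * T.card := mul_comm _ _
  have hHT4 : H.card ≤ T.card := by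
    have h1 : m * H.card ≤ m * T.card := (Nat.mul_le_mul_right _ (by omega)).trans hHT
    exact Nat.le_of_mul_le_mul_left h1 (by omega)
  have hVm : m + 1 ≤ Fintype.card V := by
    have h1 := hdeg v0
    have h2 : (insert v0 (nb R v0)).card ≤ Fintype.card V := Finset.card_le_univ _
    rw [Finset.card_insert_of_notMem (fun h => hirr v0 (mem_nb.mp h))] at h2
    unfold dg at h1
    omega
  have hT8 : 8 ≤ T.card := by omega
  have hn0 : (0 : ℝ) ≤ Fintype.card V := Nat.cast_nonneg _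
  -- random signs on the hubs
  obtain ⟨s0, hs0, hs0sum, hs0W⟩ := signs H (fun v : V => nb R v ∩ H)
    (fun v => Finset.inter_subset_right) m (by omega) hBc (4 * c * m) (by positivity)
  set W : ℕ := Set.ncard {v : V | 4 * c * m < |∑ h ∈ nb R v ∩ H, s0 h|} with hWdef
  have hW : (W : ℝ) ≤ 4 * Real.exp (-(8 * c ^ 2 * m)) * T.card := by
    have h3 : -((4 * c * m) ^ 2) / (2 * m) = -(8 * c ^ 2 * m) := by
      field_simp
      norm_num
    rw [h3] at hs0W
    have h4 : (Fintype.card V : ℝ) ≤ 2 * T.card := by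
      have : Fintype.card V ≤ 2 * T.card := by omega
      exact_mod_cast this
    calc (W : ℝ) ≤ 2 * Real.exp (-(8 * c ^ 2 * m)) * Fintype.card V := hs0W
      _ ≤ 2 * Real.exp (-(8 * c ^ 2 * m)) * (2 * T.card) :=
          mul_le_mul_of_nonneg_left h4 (by positivity)
      _ = _ := by ring
  -- the size of the sets serving the middle hubs
  set N0 : ℕ := ⌈(m : ℝ) / c⌉₊ with hN0def
  have hN01 : (m : ℝ) / c ≤ N0 := Nat.le_ceil _
  have hmc : (m : ℝ) ≤ m / c := by
    rw [le_div_iff₀ hc]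
    have : (m : ℝ) * c ≤ m * 1 := mul_le_mul_of_nonneg_left (by linarith) hmpos.le
    linarith
  have hN02 : (N0 : ℝ) ≤ 2 * m / c := by
    have h1 : (N0 : ℝ) < m / c + 1 := Nat.ceil_lt_add_one (by positivity)
    have h3 : 2 * (m : ℝ) / c = m / c + m / c := by
      field_simp
      norm_num
    linarith
  have hN0m : 2 * (m : ℝ) ≤ 4 * (c / 2) * N0 := by
    rw [div_le_iff₀ hc] at hN01
    linarith
  have hN0pos : 0 < N0 := by
    have h2 : (0 : ℝ) < N0 := by linarith
    exact_mod_cast h2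
  -- `m N0 ≤ D / 4`
  have hmN : 4 * ((m : ℝ) * N0) ≤ D := by
    have h1 : 1 / c ≤ Real.exp L := by
      rw [div_le_iff₀ hc]
      have h2 : c * (m : ℝ) ≤ c * Real.exp L := mul_le_mul_of_nonneg_left hmL hc.le
      have h3 : Real.exp L * c = c * Real.exp L := mul_comm _ _
      linarith
    have h2 : (N0 : ℝ) ≤ 2 * m * Real.exp L := by
      refine hN02.trans ?_
      calc 2 * (m : ℝ) / c = 2 * m * (1 / c) := by ring
        _ ≤ 2 * m * Real.exp L := mul_le_mul_of_nonneg_left h1 (by positivity)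
    have h3 : 4 * ((m : ℝ) * N0) ≤ 4 * (m * (2 * m * Real.exp L)) := by
      apply mul_le_mul_of_nonneg_left _ (by norm_num)
      exact mul_le_mul_of_nonneg_left h2 hmpos.le
    have h4 : Real.exp (5 * L) = Real.exp L ^ 2 * (Real.exp L * (Real.exp L * Real.exp L)) := by
      rw [hXpow]
      ring
    have h5 : (m : ℝ) * (m * Real.exp L) ≤ Real.exp L * (Real.exp L * Real.exp L) :=
      mul_le_mul hmL (mul_le_mul_of_nonneg_right hmL (Real.exp_pos _).le) (by positivity)
        (Real.exp_pos _).le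
    have h6 : (1024 : ℝ) ^ 2 ≤ Real.exp L ^ 2 := pow_le_pow_left₀ (by norm_num) hX 2
    have h7 : (1024 : ℝ) ^ 2 * (m * (m * Real.exp L)) ≤
        Real.exp L ^ 2 * (Real.exp L * (Real.exp L * Real.exp L)) :=
      mul_le_mul h6 h5 (by positivity) (by positivity)
    rw [← h4] at h7
    norm_num at h7
    have h8 : 0 ≤ (m : ℝ) * (m * Real.exp L) := by positivity
    linarith
  have h2N0D : 2 * N0 ≤ D := by
    have h1 : (1 : ℝ) * N0 ≤ m * N0 := mul_le_mul_of_nonneg_right hm1R (Nat.cast_nonneg _)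
    have h2 : 2 * (N0 : ℝ) ≤ D := by
      have : (0 : ℝ) ≤ N0 := Nat.cast_nonneg _
      linarith
    exact_mod_cast h2
  have hN0D : N0 ≤ D := by omega
  have hHN : 2 * (H.card * N0) ≤ T.card := by
    have h1 : (D : ℝ) * H.card ≤ m * T.card := by exact_mod_cast hHT
    have h2 : 2 * ((m : ℝ) * N0) ≤ D := by
      have : (0 : ℝ) ≤ (m : ℝ) * N0 := by positivity
      linarith
    have h3 : (2 * ((m : ℝ) * N0)) * H.card ≤ D * H.card :=
      mul_le_mul_of_nonneg_right h2 (Nat.cast_nonneg _)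
    have h4 : (m : ℝ) * (2 * (H.card * N0)) ≤ m * T.card := by
      calc (m : ℝ) * (2 * (H.card * N0)) = (2 * ((m : ℝ) * N0)) * H.card := by ring
        _ ≤ _ := h3
        _ ≤ _ := h1
    have h5 : (2 * (H.card * N0) : ℝ) ≤ T.card := le_of_mul_le_mul_left h4 (by linarith)
    exact_mod_cast h5
  -- the number of changed hubs
  have hTn : (T.card : ℝ) ≤ Fintype.card V := by exact_mod_cast (by omega : T.card ≤ _)
  have hWV : (W : ℝ) ≤ 4 * Real.exp (-(8 * c ^ 2 * m)) * Fintype.card V :=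
    hW.trans (mul_le_mul_of_nonneg_left hTn (by positivity))
  obtain ⟨F, hF1⟩ := num_m c L ω hc hc32 m D N0 W (Fintype.card V) hL hX hmL hc2m hDl hω1
    hN0pos hN02 hWV
  have hω0 : 0 < ω := lt_of_lt_of_le (Real.exp_pos _) hω1
  have hcase : W = 0 ∨ ((∀ Z ⊆ Q, (∀ v ∈ Z, c * m / 2 < ((nb R v ∩ S).card : ℝ)) →
      Z.card ≤ N0 * (F + 1) → ∃ X : Finset V, Z ⊆ X ∧
      X.card ≤ ⌊ω * Fintype.card V⌋₊ ∧
        ∀ v ∈ Q, v ∉ X → ((nb R v ∩ X).card : ℝ) < c * m / 2) ∧
      2 * (m : ℝ) * ((⌊ω * Fintype.card V⌋₊ : ℕ) + W / (32 * c ^ 2)) <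
        (F + 1) * D) := by
    by_cases hW0 : W = 0
    · exact Or.inl hW0
    · right
      obtain ⟨h1, h2⟩ := hF1 hW0
      refine ⟨fun Z hZ hZS hZc => ?_, h2⟩
      have h3 : (Z.card : ℝ) ≤ N0 * (F + 1) := by exact_mod_cast hZc
      obtain ⟨X, hX1, hX2, hX3⟩ := hull Z hZ hZS (h3.trans h1)
      exact ⟨X, hX1, Nat.le_floor hX2, hX3⟩
  obtain ⟨b, hbdef⟩ : ∃ b : ℕ, b = ⌊ω * Fintype.card V⌋₊ := ⟨_, rfl⟩
  rw [← hbdef] at hcase
  obtain ⟨s, q, f, Mc, l, hs, hsH, hq1, hq0, hx0, hx1, hY, hsum, hF0, hF1', hfW, hMc, _, hl⟩ :=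
    state_n R hsymm hirr H J hJ
    m k D F b c hc hc32 hm1 (by linarith) hkm hdeg (fun h hh v hv => (hHm' h hh v hv).1) S Q
    (fun u hu => mem_filter.2 ⟨mem_univ _, hS u hu⟩)
    (by
      rw [Finset.disjoint_left]
      intro v hv hvH
      have h1 := hQ v hv
      have h2 := (mem_filter.1 hvH).2
      omega)
    (fun u hu => (hS u hu).le) (fun v hv hvH => hpoor v hv (hDlow v hvH)) s0 hs0 hs0sum hBc W
    (le_refl _) N0 h2N0D hmD hcase
  -- the numbers
  have hb : (b : ℝ) ≤ ω * Fintype.card V := by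
    rw [hbdef]
    exact Nat.floor_le (by positivity)
  have hl' : D * l ≤ 2 * m * (b + f) :=
    hl.trans (Nat.mul_le_mul_left _ (by omega))
  obtain ⟨hfT, hgT, hgi⟩ := num_g c L ω hc hc32 m D W (Fintype.card V) T.card H.card b f l hL hX
    hmL hc2m hDu hDl hω1 hω2 hWV (by omega) hb hfW hl' hTH hHT
  obtain ⟨j, hj1, hj2⟩ : ∃ j : ℕ, (1 / 2 : ℝ) ^ j ≤ c / 2 / 2 ∧ (2 : ℝ) ^ j ≤ 8 / c := by
    have hex : ∃ j : ℕ, (1 / 2 : ℝ) ^ j ≤ c / 4 := by
      obtain ⟨j, hj⟩ := exists_pow_lt_of_lt_one (show (0 : ℝ) < c / 4 by positivity)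
        (show (1 / 2 : ℝ) < 1 by norm_num)
      exact ⟨j, hj.le⟩
    refine ⟨Nat.find hex, ?_, ?_⟩
    · have := Nat.find_spec hex
      linarith
    · have h0 : Nat.find hex ≠ 0 := by
        intro h0
        have h1 := Nat.find_spec hex
        rw [h0, pow_zero] at h1
        linarith
      obtain ⟨i, hi⟩ := Nat.exists_eq_succ_of_ne_zero h0
      have h1 := Nat.find_min hex (show i < Nat.find hex by omega)
      rw [not_le] at h1
      rw [hi, Nat.succ_eq_add_one, pow_succ, le_div_iff₀ hc]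
      have h2 : (1 / 2 : ℝ) ^ i * 2 ^ i = 1 := by
        rw [← mul_pow]
        norm_num
      have h3 : c / 4 * 2 ^ i ≤ (1 / 2 : ℝ) ^ i * 2 ^ i :=
        mul_le_mul_of_nonneg_right h1.le (by positivity)
      rw [h2] at h3
      linarith
  have hgT' := hgT j hj2
  -- the giants
  set G : Finset V := H.filter (fun v => v ∉ S ∧
    max (Real.exp (-L)) (4 * ω) * Fintype.card V ≤ (dg P v : ℝ)) with hG
  have hgiant : ∀ v ∈ G, 2 * m * G.card + H.card + 3 * (b + f + 1 + 2 * l) + 2 * f + 1 ≤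
      dg P v := by
    intro v hv
    have hvH := (Finset.mem_filter.1 hv).1
    have hvP := (Finset.mem_filter.1 hv).2.2
    have hDv : D < dg R v := (Finset.mem_filter.1 hvH).2
    have hDn : D ≤ Fintype.card V := by
      have h1 : dg R v ≤ Fintype.card V := Finset.card_le_univ _
      omega
    have hGH : G.card ≤ H.card := Finset.card_le_card (Finset.filter_subset _ _)
    have h3 := (hgi hDn).trans hvP
    have h4 : 2 * m * H.card + H.card + 3 * (b + f + 1 + 2 * l) + 2 * f + 1 ≤ dg P v := by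
      exact_mod_cast h3
    have h5 : 2 * m * G.card ≤ 2 * m * H.card := Nat.mul_le_mul_left _ hGH
    omega
  obtain ⟨e, he1, he2, he3⟩ := Pool.Agent.helper33.Bis.assemble_mm P R hRP hsymm H J hJ m k D N0 (c / 2) (by linarith)
    (by linarith) hm4 hDle hmD
    h2k hdeg hDlow (fun h hh v hv => (hHm' h hh v hv).1) S G
    (fun u hu => mem_filter.2 ⟨mem_univ _, hS u hu⟩) (Finset.filter_subset _ _)
    (by
      rw [Finset.disjoint_left]
      intro v hv hvG
      exact (Finset.mem_filter.1 hvG).2.1 hv)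
    s q (b + f + 1 + 2 * l) f j hs hsH hq1 hq0
    (fun v hv hsv => (hx0 v hv hsv).trans (le_of_eq (by ring)))
    (fun v hv hsv => le_trans (le_of_eq (by ring)) (hx1 v hv hsv))
    (fun u hu => by
      obtain ⟨Y, hY1, hY2, hY3⟩ := hY u hu
      exact ⟨Y, hY1, hY2, fun w hw => le_trans (by linarith) (hY3 w hw)⟩)
    (hsum.trans (by
      have h1 : 1 + 2 * l ≤ b + f + 1 + 2 * l := by omega
      exact_mod_cast h1))
    (hF0.trans (by omega)) hF1' hj1 T hT hT8 hgT' hfT hN0m hN0D hHN hgiant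
  refine ⟨e, he1, he2, ?_⟩
  intro v hv
  apply he3 v
  by_cases hvH : v ∈ H
  · by_cases hvS : v ∈ S
    · exact Or.inr (Or.inl hvS)
    · right; right
      rcases hv with hv | hv | hv
      · have := (mem_filter.mp hvH).2
        omega
      · exact absurd hv hvS
      · exact Finset.mem_filter.2 ⟨hvH, hvS, hv⟩
  · exact Or.inl hvH

end Pool.Agent.helper14.LE
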